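import Mathlib
import Pool.Agent.LGO.PW.Defs

/-!
# LGO/PWG: the charts and families of discs of LGO/PW for `m` functions instead of `3`

Definitions as in `PW/Defs.lean`, for `z : Fin m → ℂ → ℂ`.  `PW.nrm`, `PW.LH`, `PW.CD` are reused.
-/

namespace Pool.Agent.LGO.PWG

open UpperHalfPlane MvPolynomial Metric

variable {m : ℕ}

/-- the point `x` is the point of the chart `z` with parameter `s` -/
def Lift (z : Fin m → ℂ → ℂ) (s : ℂ) (x : Fin m → ℂ) : Prop :=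
  ∀ a, ∃ τ : ℍ, (τ : ℂ) = z a s ∧ x a = Pool.Agent.Hhelper14.ZP.jInv τ

/-- algebraic independence of the functions over `ℂ`, on the set `Ω` -/
def Ind (Ω : Set ℂ) (z : Fin m → ℂ → ℂ) : Prop :=
  ∀ G : MvPolynomial (Fin m) ℂ, G ≠ 0 → ∃ s ∈ Ω, eval (fun a => z a s) G ≠ 0

/-- a compact chart: holomorphic on the disc of radius `4`, used in the closed disc of radius `1` -/
structure Comp (z : Fin m → ℂ → ℂ) : Prop where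
  an : ∀ a, DifferentiableOn ℂ (z a) (ball 0 4)
  im : ∃ c : ℝ, 0 < c ∧ ∀ a, ∀ s ∈ ball (0 : ℂ) 4, c ≤ (z a s).im
  bd : ∃ C : ℝ, ∀ a, ∀ s ∈ ball (0 : ℂ) 4, ‖z a s‖ ≤ C
  ind : Ind (ball 0 4) z

/-- the functions of a cusp chart: `z a w = e a w / (2 π i) + ψ a (exp w)` -/
noncomputable def cz (e : Fin m → ℕ) (ψ : Fin m → ℂ → ℂ) (a : Fin m) (w : ℂ) : ℂ :=
  (e a : ℂ) * w / (2 * Real.pi * Complex.I) + ψ a (Complex.exp w)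

/-- a cusp chart, used for `Re w ≤ -4`, `|Im w| ≤ π` -/
structure Cusp (e : Fin m → ℕ) (ψ : Fin m → ℂ → ℂ) : Prop where
  inf : ∃ a, 0 < e a
  an : ∀ a, DifferentiableOn ℂ (ψ a) (ball 0 1)
  bd : ∃ C : ℝ, ∀ a, ∀ q ∈ ball (0 : ℂ) 1, ‖ψ a q‖ ≤ C
  im : ∃ c : ℝ, 0 < c ∧ ∀ a, ∀ w ∈ PW.LH, c ≤ (cz e ψ a w).im
  ind : Ind PW.LH (cz e ψ)

/-- the set `W` is covered by finitely many charts, up to finitely many points -/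
def HasAtlas (W : Set (Fin m → ℂ)) : Prop :=
  ∃ (F : Set (Fin m → ℂ)) (n k : ℕ) (z : Fin n → Fin m → ℂ → ℂ) (e : Fin k → Fin m → ℕ)
    (ψ : Fin k → Fin m → ℂ → ℂ), F.Finite ∧ (∀ k, Comp (z k)) ∧ (∀ k, Cusp (e k) (ψ k)) ∧
    ∀ x ∈ W, x ∈ F ∨ (∃ k, ∃ s ∈ closedBall (0 : ℂ) 1, Lift (z k) s x) ∨
      ∃ k, ∃ w ∈ PW.CD, Lift (cz (e k) (ψ k)) w x

/-- a family of discs of radius `3` on which the polynomials in the functions satisfy a doubling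
inequality; `ρ w` is the absolute value of the parameter `q` at the centre `w` of the disc
(`1` in a compact chart) -/
structure Fam (Ω Cn : Set ℂ) (z : Fin m → ℂ → ℂ) (ρ : ℂ → ℝ) : Prop where
  isOpen : IsOpen Ω
  ball : ∀ w ∈ Cn, ball w 3 ⊆ Ω
  an : ∀ a, DifferentiableOn ℂ (z a) Ω
  im : ∃ c : ℝ, 0 < c ∧ ∀ a, ∀ s ∈ Ω, c ≤ (z a s).im
  size : ∃ C : ℝ, ∀ a, ∀ s ∈ Ω, ‖z a s‖ ≤ C * (1 + ‖s‖)
  rho : ∀ w ∈ Cn, 0 < ρ w ∧ ρ w ≤ 1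
  dbl : ∀ d : ℕ, ∃ C : ℕ, 0 < C ∧ ∀ w ∈ Cn, ∀ G : MvPolynomial (Fin m) ℂ, G ≠ 0 →
    G.totalDegree ≤ d → ∃ c : ℝ, 0 < c ∧ PW.nrm G * ρ w ^ C ≤ C * (1 + ‖w‖) ^ C * c ∧
      (∀ s ∈ Metric.ball w 3, ‖eval (fun a => z a s) G‖ ≤ C * c) ∧
      ∃ s ∈ closedBall w 1, c ≤ C * ‖eval (fun a => z a s) G‖

end Pool.Agent.LGO.PWG
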