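import Mathlib
import Pool.Agent.LGO.PWG.Defs
import Pool.Agent.LGO.PWC.Defs

/-!
# LGO/PWG: the types of special points

* `Pt2 H z s` (`m = 4`): two pairs, `z 1 s = g (z 0 s)`, `z 3 s = g' (z 2 s)` with integral matrices with entries at most `H`.
* `Pt3 H z s` (`m = 3`): one pair `z 1 s = g (z 0 s)`, and `z 2 s` is quadratic with coefficients at most `H`.
* `Pt4 H z s` (`m = 2`): `z 0 s` and `z 1 s` are quadratic with coefficients at most `H`.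
* `Rel2`, `Rel3`, `Rel4`: the relations between the values of `z` and the eight integers `v s`.

PROOFS.  As `PWC.exists_rel` (`PWC/Defs.lean`): choose the integers for the points with `Pt`, `0` for the others; the unused integers are `0`.
The denominators are not `0`: see `PWC/Defs.lean` (private `Defs_den`).  A quadratic relation with `a = 0` and `Im x > 0`: `b x + c = 0`, so `b Im x = 0`,
`b = 0`, `c = 0`; but the coefficients are not all `0`.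
-/

namespace Pool.Agent.LGO.PWG

open MvPolynomial

/-- an integral matrix with entries at most `H` maps `x` to `x'` -/
def IsoH (H : ℝ) (x x' : ℂ) : Prop :=
  ∃ g : Matrix (Fin 2) (Fin 2) ℤ, g.det ≠ 0 ∧ (∀ i j, |(g i j : ℝ)| ≤ H) ∧ Maps g x x'

/-- `x` is in the upper half plane and a root of a quadratic polynomial with integral coefficients, at
most `H` -/
def QuadH (H : ℝ) (x : ℂ) : Prop :=
  0 < x.im ∧ ∃ q : Fin 3 → ℤ, q ≠ 0 ∧ (∀ i, |(q i : ℝ)| ≤ H) ∧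
    (q 0 : ℂ) * x ^ 2 + (q 1 : ℂ) * x + (q 2 : ℂ) = 0

/-- pair and pair -/
def Pt2 (z : Fin 4 → ℂ → ℂ) (H : ℝ) (s : ℂ) : Prop := IsoH H (z 0 s) (z 1 s) ∧ IsoH H (z 2 s) (z 3 s)

/-- pair and quadratic point -/
def Pt3 (z : Fin 3 → ℂ → ℂ) (H : ℝ) (s : ℂ) : Prop := IsoH H (z 0 s) (z 1 s) ∧ QuadH H (z 2 s)

/-- two quadratic points -/
def Pt4 (z : Fin 2 → ℂ → ℂ) (H : ℝ) (s : ℂ) : Prop := QuadH H (z 0 s) ∧ QuadH H (z 1 s)

/-- pair and pair, with the eight integers -/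
structure Rel2 (z : Fin 4 → ℂ → ℂ) (v : ℂ → Fin 8 → ℤ) (s : ℂ) : Prop where
  d1 : (v s 2 : ℂ) * z 0 s + (v s 3 : ℂ) ≠ 0
  d2 : (v s 6 : ℂ) * z 2 s + (v s 7 : ℂ) ≠ 0
  r1 : z 1 s * ((v s 2 : ℂ) * z 0 s + (v s 3 : ℂ)) = (v s 0 : ℂ) * z 0 s + (v s 1 : ℂ)
  r2 : z 3 s * ((v s 6 : ℂ) * z 2 s + (v s 7 : ℂ)) = (v s 4 : ℂ) * z 2 s + (v s 5 : ℂ)

/-- pair and quadratic point, with the eight integers (the last one is not used) -/
structure Rel3 (z : Fin 3 → ℂ → ℂ) (v : ℂ → Fin 8 → ℤ) (s : ℂ) : Prop where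
  d1 : (v s 2 : ℂ) * z 0 s + (v s 3 : ℂ) ≠ 0
  d2 : (v s 4 : ℂ) ≠ 0
  r1 : z 1 s * ((v s 2 : ℂ) * z 0 s + (v s 3 : ℂ)) = (v s 0 : ℂ) * z 0 s + (v s 1 : ℂ)
  r2 : (v s 4 : ℂ) * z 2 s ^ 2 + (v s 5 : ℂ) * z 2 s + (v s 6 : ℂ) = 0

/-- two quadratic points, with the eight integers (the last two are not used) -/
structure Rel4 (z : Fin 2 → ℂ → ℂ) (v : ℂ → Fin 8 → ℤ) (s : ℂ) : Prop where
  d1 : (v s 0 : ℂ) ≠ 0
  d2 : (v s 3 : ℂ) ≠ 0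
  r1 : (v s 0 : ℂ) * z 0 s ^ 2 + (v s 1 : ℂ) * z 0 s + (v s 2 : ℂ) = 0
  r2 : (v s 3 : ℂ) * z 1 s ^ 2 + (v s 4 : ℂ) * z 1 s + (v s 5 : ℂ) = 0

private theorem typ_den {g : Matrix (Fin 2) (Fin 2) ℤ} (hg : g.det ≠ 0) {τ τ' : ℂ} (h : Maps g τ τ') :
    (g 1 0 : ℂ) * τ + (g 1 1 : ℂ) ≠ 0 := by
  intro h0
  unfold Maps at h
  rw [h0, mul_zero] at h
  have h1 : (g 0 0 : ℂ) * (g 1 1 : ℂ) - (g 0 1 : ℂ) * (g 1 0 : ℂ) = 0 := by
    linear_combination (g 0 0 : ℂ) * h0 + (g 1 0 : ℂ) * h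
  rw [Matrix.det_fin_two] at hg
  apply hg
  exact_mod_cast h1

private theorem typ_ne {x : ℂ} (hx : 0 < x.im) {q : Fin 3 → ℤ} (hq : q ≠ 0)
    (h : (q 0 : ℂ) * x ^ 2 + (q 1 : ℂ) * x + (q 2 : ℂ) = 0) : (q 0 : ℂ) ≠ 0 := by
  intro h0
  apply hq
  rw [h0, zero_mul, zero_add] at h
  have h1 : (q 1 : ℝ) * x.im = 0 := by
    have h2 := congrArg Complex.im h
    simpa using h2
  have h3 : (q 1 : ℝ) = 0 := by
    rcases mul_eq_zero.mp h1 with h4 | h4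
    · exact h4
    · exact absurd h4 hx.ne'
  have h5 : q 1 = 0 := by exact_mod_cast h3
  have h6 : q 2 = 0 := by
    rw [h5, Int.cast_zero, zero_mul, zero_add] at h
    exact_mod_cast h
  have h7 : q 0 = 0 := by exact_mod_cast h0
  funext k
  fin_cases k
  · exact h7
  · exact h5
  · exact h6

theorem exists_rel2 {H : ℝ} (hH : 0 ≤ H) (z : Fin 4 → ℂ → ℂ) : ∃ v : ℂ → Fin 8 → ℤ,
    (∀ s k, |(v s k : ℝ)| ≤ H) ∧ ∀ s, Pt2 z H s → Rel2 z v s := by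
  have key : ∀ s, ∃ w : Fin 8 → ℤ, (∀ k, |(w k : ℝ)| ≤ H) ∧ (Pt2 z H s →
      ((w 2 : ℂ) * z 0 s + (w 3 : ℂ) ≠ 0 ∧ (w 6 : ℂ) * z 2 s + (w 7 : ℂ) ≠ 0 ∧
        z 1 s * ((w 2 : ℂ) * z 0 s + (w 3 : ℂ)) = (w 0 : ℂ) * z 0 s + (w 1 : ℂ) ∧
        z 3 s * ((w 6 : ℂ) * z 2 s + (w 7 : ℂ)) = (w 4 : ℂ) * z 2 s + (w 5 : ℂ))) := by
    intro s
    by_cases hs : Pt2 z H s
    · obtain ⟨⟨g, hg, hgH, hgM⟩, ⟨g', hg', hgH', hgM'⟩⟩ := hs
      refine ⟨![g 0 0, g 0 1, g 1 0, g 1 1, g' 0 0, g' 0 1, g' 1 0, g' 1 1], ?_,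
        fun _ => ⟨?_, ?_, ?_, ?_⟩⟩
      · intro k
        fin_cases k
        · exact hgH 0 0
        · exact hgH 0 1
        · exact hgH 1 0
        · exact hgH 1 1
        · exact hgH' 0 0
        · exact hgH' 0 1
        · exact hgH' 1 0
        · exact hgH' 1 1
      · exact typ_den hg hgM
      · exact typ_den hg' hgM'
      · exact hgM
      · exact hgM'
    · exact ⟨0, fun k => by simpa using hH, fun h => absurd h hs⟩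
  choose v hv using key
  refine ⟨v, fun s => (hv s).1, fun s hs => ?_⟩
  obtain ⟨h1, h2, h3, h4⟩ := (hv s).2 hs
  exact ⟨h1, h2, h3, h4⟩

theorem exists_rel3 {H : ℝ} (hH : 0 ≤ H) (z : Fin 3 → ℂ → ℂ) : ∃ v : ℂ → Fin 8 → ℤ,
    (∀ s k, |(v s k : ℝ)| ≤ H) ∧ ∀ s, Pt3 z H s → Rel3 z v s := by
  have key : ∀ s, ∃ w : Fin 8 → ℤ, (∀ k, |(w k : ℝ)| ≤ H) ∧ (Pt3 z H s →
      ((w 2 : ℂ) * z 0 s + (w 3 : ℂ) ≠ 0 ∧ (w 4 : ℂ) ≠ 0 ∧
        z 1 s * ((w 2 : ℂ) * z 0 s + (w 3 : ℂ)) = (w 0 : ℂ) * z 0 s + (w 1 : ℂ) ∧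
        (w 4 : ℂ) * z 2 s ^ 2 + (w 5 : ℂ) * z 2 s + (w 6 : ℂ) = 0)) := by
    intro s
    by_cases hs : Pt3 z H s
    · obtain ⟨⟨g, hg, hgH, hgM⟩, ⟨hx, q, hq, hqH, hqM⟩⟩ := hs
      refine ⟨![g 0 0, g 0 1, g 1 0, g 1 1, q 0, q 1, q 2, 0], ?_, fun _ => ⟨?_, ?_, ?_, ?_⟩⟩
      · intro k
        fin_cases k
        · exact hgH 0 0
        · exact hgH 0 1
        · exact hgH 1 0
        · exact hgH 1 1
        · exact hqH 0
        · exact hqH 1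
        · exact hqH 2
        · simpa using hH
      · exact typ_den hg hgM
      · exact typ_ne hx hq hqM
      · exact hgM
      · exact hqM
    · exact ⟨0, fun k => by simpa using hH, fun h => absurd h hs⟩
  choose v hv using key
  refine ⟨v, fun s => (hv s).1, fun s hs => ?_⟩
  obtain ⟨h1, h2, h3, h4⟩ := (hv s).2 hs
  exact ⟨h1, h2, h3, h4⟩

theorem exists_rel4 {H : ℝ} (hH : 0 ≤ H) (z : Fin 2 → ℂ → ℂ) : ∃ v : ℂ → Fin 8 → ℤ,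
    (∀ s k, |(v s k : ℝ)| ≤ H) ∧ ∀ s, Pt4 z H s → Rel4 z v s := by
  have key : ∀ s, ∃ w : Fin 8 → ℤ, (∀ k, |(w k : ℝ)| ≤ H) ∧ (Pt4 z H s →
      ((w 0 : ℂ) ≠ 0 ∧ (w 3 : ℂ) ≠ 0 ∧
        (w 0 : ℂ) * z 0 s ^ 2 + (w 1 : ℂ) * z 0 s + (w 2 : ℂ) = 0 ∧
        (w 3 : ℂ) * z 1 s ^ 2 + (w 4 : ℂ) * z 1 s + (w 5 : ℂ) = 0)) := by
    intro s
    by_cases hs : Pt4 z H s
    · obtain ⟨⟨hx, q, hq, hqH, hqM⟩, ⟨hx', q', hq', hqH', hqM'⟩⟩ := hs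
      refine ⟨![q 0, q 1, q 2, q' 0, q' 1, q' 2, 0, 0], ?_, fun _ => ⟨?_, ?_, ?_, ?_⟩⟩
      · intro k
        fin_cases k
        · exact hqH 0
        · exact hqH 1
        · exact hqH 2
        · exact hqH' 0
        · exact hqH' 1
        · exact hqH' 2
        · simpa using hH
        · simpa using hH
      · exact typ_ne hx hq hqM
      · exact typ_ne hx' hq' hqM'
      · exact hqM
      · exact hqM'
    · exact ⟨0, fun k => by simpa using hH, fun h => absurd h hs⟩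
  choose v hv using key
  refine ⟨v, fun s => (hv s).1, fun s hs => ?_⟩
  obtain ⟨h1, h2, h3, h4⟩ := (hv s).2 hs
  exact ⟨h1, h2, h3, h4⟩

end Pool.Agent.LGO.PWG
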