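import Mathlib
import Pool.Agent.LGO.PWG.Typ
import Pool.Agent.LGO.PW.Ann

/-!
# LGO/PWG: the points of a cusp chart lie in `O(log H)` unit discs

Only for the cusps where at most one coordinate is infinite (`Solo`): then one of the relations involves
only functions of `q = e ^ w`, holomorphic and bounded on the unit disc: `ψ a (q)`, `ψ b (q)` for a pair of
finite coordinates, `ψ a (q)` for a quadratic finite coordinate.

`cover_gen`: `ann` for the functions `f` and the integral vector of the relation: the `q = e ^ w` lie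
in `P` annuli.  In an annulus `|Re w - log η| ≤ C log H`; divide the rectangle (height `2 π`) into
`≤ C' (1 + log H)` cells of diameter `≤ 1`; in every cell which contains a point choose one of these
points as centre.
-/

namespace Pool.Agent.LGO.PWG

open MvPolynomial Metric Pool.Agent.LGO.PW

variable {mm : ℕ}

/-- at most one coordinate is infinite at the cusp (no common poles) -/
def Solo (e : Fin mm → ℕ) : Prop := ∀ a b, 0 < e a → 0 < e b → a = b

/-- the points with `Pt H` in the cusp are covered by `O(log H)` unit discs -/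
def Cov (Pt : ℝ → ℂ → Prop) : Prop :=
  ∃ C : ℕ, ∀ H : ℝ, 2 ≤ H → ∃ S : Finset ℂ, (∀ w ∈ S, w ∈ CD ∧ ‖w‖ ≤ H) ∧
    (S.card : ℝ) ≤ C * (1 + Real.log H) ∧
    ∀ w ∈ CD, ‖w‖ ≤ H → Pt H w → ∃ w₀ ∈ S, ‖w - w₀‖ ≤ 1

/-- points in few rectangles are close to few of them -/
private theorem Cover_net (T : Set ℂ) (A : Finset ℝ) {R : ℝ} (hR : 0 ≤ R)
    (hT : ∀ w ∈ T, |w.im| ≤ Real.pi ∧ ∃ r ∈ A, r - R ≤ w.re ∧ w.re ≤ r + R) :
    ∃ S : Finset ℂ, (∀ w ∈ S, w ∈ T) ∧ (S.card : ℝ) ≤ A.card * (17 * (4 * R + 2)) ∧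
      ∀ w ∈ T, ∃ w₀ ∈ S, ‖w - w₀‖ ≤ 1 := by
  set cell : ℂ → ℤ × ℤ := fun w => (⌊2 * w.re⌋, ⌊2 * w.im⌋) with hcell
  set K : Finset (ℤ × ℤ) :=
    A.biUnion (fun r => Finset.Icc ⌊2 * (r - R)⌋ ⌊2 * (r + R)⌋ ×ˢ Finset.Icc (-8 : ℤ) 8) with hK
  have hmaps : ∀ w ∈ T, cell w ∈ K := by
    intro w hw
    obtain ⟨him, r, hr, h1, h2⟩ := hT w hw
    have hpi : Real.pi < 4 := by linarith [Real.pi_lt_d2]
    rw [abs_le] at him
    rw [hK, Finset.mem_biUnion]
    refine ⟨r, hr, ?_⟩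
    rw [Finset.mem_product, Finset.mem_Icc, Finset.mem_Icc]
    refine ⟨⟨?_, ?_⟩, ?_, ?_⟩
    · exact Int.floor_le_floor (by linarith)
    · exact Int.floor_le_floor (by linarith)
    · change (-8 : ℤ) ≤ ⌊2 * w.im⌋
      rw [Int.le_floor]
      push_cast
      linarith
    · change ⌊2 * w.im⌋ ≤ (8 : ℤ)
      have : (⌊2 * w.im⌋ : ℝ) ≤ 8 := (Int.floor_le _).trans (by linarith)
      exact_mod_cast this
  have hKcard : (K.card : ℝ) ≤ A.card * (17 * (4 * R + 2)) := by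
    have h1 : (K.card : ℝ) ≤ ∑ r ∈ A,
        (((Finset.Icc ⌊2 * (r - R)⌋ ⌊2 * (r + R)⌋ ×ˢ Finset.Icc (-8 : ℤ) 8).card : ℕ) : ℝ) := by
      exact_mod_cast Finset.card_biUnion_le
    refine h1.trans ?_
    rw [← nsmul_eq_mul]
    apply Finset.sum_le_card_nsmul
    intro r _
    rw [Finset.card_product, Int.card_Icc, Int.card_Icc]
    have h2 : (((⌊2 * (r + R)⌋ + 1 - ⌊2 * (r - R)⌋).toNat : ℕ) : ℝ) ≤ 4 * R + 2 := by
      have h3 : (0 : ℤ) ≤ ⌊2 * (r + R)⌋ + 1 - ⌊2 * (r - R)⌋ := by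
        have : ⌊2 * (r - R)⌋ ≤ ⌊2 * (r + R)⌋ := Int.floor_le_floor (by linarith)
        omega
      have h4 : (((⌊2 * (r + R)⌋ + 1 - ⌊2 * (r - R)⌋).toNat : ℕ) : ℝ) =
          ((⌊2 * (r + R)⌋ + 1 - ⌊2 * (r - R)⌋ : ℤ) : ℝ) := by
        rw [← Int.cast_natCast, Int.toNat_of_nonneg h3]
      rw [h4]
      push_cast
      have h5 := Int.floor_le (2 * (r + R))
      have h6 := Int.lt_floor_add_one (2 * (r - R))
      linarith
    have h7 : ((8 + 1 - (-8 : ℤ)).toNat : ℕ) = 17 := by decide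
    rw [h7]
    push_cast
    linarith
  obtain ⟨T', hT'T, hbij⟩ := Set.exists_subset_bijOn T cell
  have hmT' : Set.MapsTo cell T' (K : Set (ℤ × ℤ)) := fun w hw => hmaps w (hT'T hw)
  have hfin : T'.Finite := Set.Finite.of_injOn hmT' hbij.injOn K.finite_toSet
  refine ⟨hfin.toFinset, ?_, ?_, ?_⟩
  · intro w hw
    exact hT'T (hfin.mem_toFinset.1 hw)
  · refine le_trans ?_ hKcard
    have : hfin.toFinset.card ≤ K.card := by
      apply Finset.card_le_card_of_injOn cell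
      · intro w hw
        exact hmT' (by simpa using hw)
      · intro x hx y hy hxy
        exact hbij.injOn (by simpa using hx) (by simpa using hy) hxy
    exact_mod_cast this
  · intro w hw
    obtain ⟨w₀, hw₀, heq⟩ := hbij.surjOn (Set.mem_image_of_mem cell hw)
    refine ⟨w₀, hfin.mem_toFinset.2 hw₀, ?_⟩
    have h1 : ⌊2 * w₀.re⌋ = ⌊2 * w.re⌋ := congrArg Prod.fst heq
    have h2 : ⌊2 * w₀.im⌋ = ⌊2 * w.im⌋ := congrArg Prod.snd heq
    have h3 := Int.abs_sub_lt_one_of_floor_eq_floor h1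
    have h4 := Int.abs_sub_lt_one_of_floor_eq_floor h2
    rw [abs_lt] at h3 h4
    have h5 : |(w - w₀).re| ≤ 1 / 2 := by
      rw [Complex.sub_re, abs_le]
      constructor <;> linarith
    have h6 : |(w - w₀).im| ≤ 1 / 2 := by
      rw [Complex.sub_im, abs_le]
      constructor <;> linarith
    have h7 := Complex.norm_le_abs_re_add_abs_im (w - w₀)
    linarith

theorem cover_gen {N : ℕ} {f : ℂ → Fin N → ℂ}
    (hf : ∀ i, DifferentiableOn ℂ (fun q => f q i) (ball 0 1))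
    {B : ℝ} (hB : ∀ i, ∀ q ∈ ball (0 : ℂ) 1, ‖f q i‖ ≤ B)
    (hind : ∀ c : Fin N → ℂ, c ≠ 0 → ∃ q ∈ ball (0 : ℂ) 1, ∑ i, c i * f q i ≠ 0)
    {Pt : ℝ → ℂ → Prop} (hPt : ∀ H : ℝ, 2 ≤ H → ∀ w ∈ CD, Pt H w → ∃ Φ : Fin N → ℤ, Φ ≠ 0 ∧
      (∀ i, |(Φ i : ℝ)| ≤ H) ∧ ∑ i, (Φ i : ℂ) * f (Complex.exp w) i = 0) : Cov Pt := by
  obtain ⟨C, P, hA⟩ := ann hf hB hind
  refine ⟨⌈(P : ℝ) * (17 * (4 * C + 2))⌉₊, ?_⟩
  intro H hH
  have hlogH : 0 ≤ Real.log H := Real.log_nonneg (by linarith)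
  have hH0 : 0 < H := by linarith
  obtain ⟨A, hAc, hApos, hAq⟩ := hA H hH
  set T : Set ℂ := {w | w ∈ CD ∧ ‖w‖ ≤ H ∧ Pt H w} with hT
  set R : ℝ := C * Real.log H with hR
  have hR0 : 0 ≤ R := by positivity
  obtain ⟨S, hS1, hS2, hS3⟩ := Cover_net T (A.image Real.log) hR0 (by
    rintro w ⟨hw, hwH, hPtw⟩
    refine ⟨hw.2, ?_⟩
    have hnorm : ‖Complex.exp w‖ = Real.exp w.re := Complex.norm_exp w
    obtain ⟨η, hη, h1, h2⟩ := hAq (Complex.exp w) (Complex.exp_ne_zero w)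
      (by rw [hnorm]; exact Real.exp_le_exp.2 hw.1) (hPt H hH w hw hPtw)
    have hη0 := hApos η hη
    have hpow : 0 < H ^ C := pow_pos hH0 C
    refine ⟨Real.log η, Finset.mem_image_of_mem _ hη, ?_, ?_⟩
    · have h3 := Real.log_le_log (by positivity) h1
      rw [hnorm, Real.log_exp, Real.log_div hη0.ne' hpow.ne', Real.log_pow] at h3
      exact h3
    · have h3 := Real.log_le_log (norm_pos_iff.2 (Complex.exp_ne_zero w)) h2
      rw [hnorm, Real.log_exp, Real.log_mul hη0.ne' hpow.ne', Real.log_pow] at h3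
      exact h3)
  refine ⟨S, fun w hw => ⟨(hS1 w hw).1, (hS1 w hw).2.1⟩, ?_, ?_⟩
  · refine hS2.trans ?_
    have h1 : ((A.image Real.log).card : ℝ) ≤ P := by
      exact_mod_cast Finset.card_image_le.trans hAc
    have hC : (0 : ℝ) ≤ C := Nat.cast_nonneg _
    have h2 : 17 * (4 * R + 2) ≤ 17 * (4 * C + 2) * (1 + Real.log H) := by
      rw [hR]
      nlinarith [mul_nonneg hC hlogH]
    have h5 : 0 ≤ 17 * (4 * R + 2) := by positivity
    have h6 : (P : ℝ) * (17 * (4 * C + 2)) ≤ ((⌈(P : ℝ) * (17 * (4 * C + 2))⌉₊ : ℕ) : ℝ) :=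
      Nat.le_ceil _
    have hP : (0 : ℝ) ≤ P := Nat.cast_nonneg _
    calc ((A.image Real.log).card : ℝ) * (17 * (4 * R + 2)) ≤ P * (17 * (4 * R + 2)) :=
          mul_le_mul_of_nonneg_right h1 h5
      _ ≤ P * (17 * (4 * C + 2) * (1 + Real.log H)) := mul_le_mul_of_nonneg_left h2 hP
      _ = P * (17 * (4 * C + 2)) * (1 + Real.log H) := by ring
      _ ≤ _ := mul_le_mul_of_nonneg_right h6 (by linarith)
  · intro w hw hwH hPtw
    exact hS3 w ⟨hw, hwH, hPtw⟩

private theorem Cover_cz {e : Fin mm → ℕ} {ψ : Fin mm → ℂ → ℂ} {a : Fin mm} (ha : e a = 0) (w : ℂ) :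
    cz e ψ a w = ψ a (Complex.exp w) := by
  simp [cz, ha]

private theorem Cover_exp {w : ℂ} (hw : w ∈ LH) : Complex.exp w ∈ ball (0 : ℂ) 1 := by
  rw [mem_ball_zero_iff, Complex.norm_exp, Real.exp_lt_one_iff]
  exact hw

/-- two finite coordinates related by a matrix -/
theorem Cusp.cover_iso {e : Fin mm → ℕ} {ψ : Fin mm → ℂ → ℂ} (h : Cusp e ψ) {a b : Fin mm}
    (hab : a ≠ b) (ha : e a = 0) (hb : e b = 0) :
    Cov (fun H w => IsoH H (cz e ψ a w) (cz e ψ b w)) := by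
  obtain ⟨B, hC⟩ := h.bd
  have h0 : (0 : ℂ) ∈ ball (0 : ℂ) 1 := mem_ball_self one_pos
  have hC0 : 0 ≤ B := (norm_nonneg _).trans (hC a 0 h0)
  refine cover_gen (f := fun q => ![ψ a q * ψ b q, ψ b q, ψ a q, 1]) ?_ (B := B * B + B + 1) ?_ ?_ ?_
  · intro i
    fin_cases i
    · exact (h.an a).mul (h.an b)
    · exact h.an b
    · exact h.an a
    · exact differentiableOn_const (c := (1 : ℂ))
  · intro i q hq
    have h1 := hC a q hq
    have h2 := hC b q hq
    have h3 : 0 ≤ B * B := mul_nonneg hC0 hC0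
    fin_cases i
    · change ‖ψ a q * ψ b q‖ ≤ _
      rw [norm_mul]
      have := mul_le_mul h1 h2 (norm_nonneg _) hC0
      linarith
    · change ‖ψ b q‖ ≤ _
      linarith
    · change ‖ψ a q‖ ≤ _
      linarith
    · change ‖(1 : ℂ)‖ ≤ _
      rw [norm_one]
      linarith
  · intro c hc
    set G : MvPolynomial (Fin mm) ℂ := C (c 0) * (X a * X b) + C (c 1) * X b + C (c 2) * X a + C (c 3)
      with hG
    have hev : ∀ x : Fin mm → ℂ, eval x G = c 0 * (x a * x b) + c 1 * x b + c 2 * x a + c 3 := by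
      intro x
      simp [hG]
    have hG0 : G ≠ 0 := by
      intro hz
      apply hc
      have hval : ∀ u v : ℂ, c 0 * (u * v) + c 1 * v + c 2 * u + c 3 = 0 := by
        intro u v
        have := hev (fun i => if i = a then u else v)
        rw [hz, map_zero, if_pos rfl, if_neg hab.symm] at this
        exact this.symm
      have e00 := hval 0 0
      have e10 := hval 1 0
      have e01 := hval 0 1
      have e11 := hval 1 1
      funext i
      fin_cases i
      · change c 0 = 0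
        linear_combination e11 - e10 - e01 + e00
      · change c 1 = 0
        linear_combination e01 - e00
      · change c 2 = 0
        linear_combination e10 - e00
      · change c 3 = 0
        linear_combination e00
    obtain ⟨w, hw, hne⟩ := h.ind G hG0
    refine ⟨Complex.exp w, Cover_exp hw, fun hs => hne ?_⟩
    rw [hev, Cover_cz ha, Cover_cz hb]
    simp only [Fin.sum_univ_four] at hs
    change c 0 * (ψ a (Complex.exp w) * ψ b (Complex.exp w)) + c 1 * ψ b (Complex.exp w) +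
      c 2 * ψ a (Complex.exp w) + c 3 * 1 = 0 at hs
    rw [mul_one] at hs
    exact hs
  · rintro H hH w hw ⟨g, hg, hgH, hm⟩
    refine ⟨![g 1 0, g 1 1, -g 0 0, -g 0 1], ?_, ?_, ?_⟩
    · intro hz
      apply hg
      have z0 : g 1 0 = 0 := congrFun hz 0
      have z1 : g 1 1 = 0 := congrFun hz 1
      rw [Matrix.det_fin_two, z0, z1]
      ring
    · intro i
      fin_cases i
      · exact hgH 1 0
      · exact hgH 1 1
      · change |((-g 0 0 : ℤ) : ℝ)| ≤ H
        rw [Int.cast_neg, abs_neg]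
        exact hgH 0 0
      · change |((-g 0 1 : ℤ) : ℝ)| ≤ H
        rw [Int.cast_neg, abs_neg]
        exact hgH 0 1
    · unfold Maps at hm
      rw [Cover_cz ha, Cover_cz hb] at hm
      simp only [Fin.sum_univ_four]
      change ((g 1 0 : ℤ) : ℂ) * (ψ a (Complex.exp w) * ψ b (Complex.exp w)) +
        ((g 1 1 : ℤ) : ℂ) * ψ b (Complex.exp w) + ((-g 0 0 : ℤ) : ℂ) * ψ a (Complex.exp w) +
        ((-g 0 1 : ℤ) : ℂ) * 1 = 0
      push_cast
      linear_combination hm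

/-- a finite quadratic coordinate -/
theorem Cusp.cover_quad {e : Fin mm → ℕ} {ψ : Fin mm → ℂ → ℂ} (h : Cusp e ψ) {a : Fin mm}
    (ha : e a = 0) : Cov (fun H w => QuadH H (cz e ψ a w)) := by
  obtain ⟨B, hC⟩ := h.bd
  have h0 : (0 : ℂ) ∈ ball (0 : ℂ) 1 := mem_ball_self one_pos
  have hC0 : 0 ≤ B := (norm_nonneg _).trans (hC a 0 h0)
  refine cover_gen (f := fun q => ![ψ a q ^ 2, ψ a q, 1]) ?_ (B := B ^ 2 + B + 1) ?_ ?_ ?_
  · intro i
    fin_cases i
    · exact (h.an a).pow 2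
    · exact h.an a
    · exact differentiableOn_const (c := (1 : ℂ))
  · intro i q hq
    have h1 := hC a q hq
    have h3 : 0 ≤ B ^ 2 := sq_nonneg B
    fin_cases i
    · change ‖ψ a q ^ 2‖ ≤ _
      rw [norm_pow]
      have := pow_le_pow_left₀ (norm_nonneg _) h1 2
      linarith
    · change ‖ψ a q‖ ≤ _
      linarith
    · change ‖(1 : ℂ)‖ ≤ _
      rw [norm_one]
      linarith
  · intro c hc
    set G : MvPolynomial (Fin mm) ℂ := C (c 0) * X a ^ 2 + C (c 1) * X a + C (c 2) with hG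
    have hev : ∀ x : Fin mm → ℂ, eval x G = c 0 * x a ^ 2 + c 1 * x a + c 2 := by
      intro x
      simp [hG]
    have hG0 : G ≠ 0 := by
      intro hz
      apply hc
      have hval : ∀ u : ℂ, c 0 * u ^ 2 + c 1 * u + c 2 = 0 := by
        intro u
        have := hev (fun _ => u)
        rw [hz, map_zero] at this
        exact this.symm
      have e0 := hval 0
      have e1 := hval 1
      have e2 := hval (-1)
      funext i
      fin_cases i
      · change c 0 = 0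
        linear_combination (1 / 2 : ℂ) * e1 + (1 / 2 : ℂ) * e2 - e0
      · change c 1 = 0
        linear_combination (1 / 2 : ℂ) * e1 - (1 / 2 : ℂ) * e2
      · change c 2 = 0
        linear_combination e0
    obtain ⟨w, hw, hne⟩ := h.ind G hG0
    refine ⟨Complex.exp w, Cover_exp hw, fun hs => hne ?_⟩
    rw [hev, Cover_cz ha]
    simp only [Fin.sum_univ_three] at hs
    change c 0 * ψ a (Complex.exp w) ^ 2 + c 1 * ψ a (Complex.exp w) + c 2 * 1 = 0 at hs
    rw [mul_one] at hs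
    exact hs
  · rintro H hH w hw ⟨-, q, hq0, hqH, hqr⟩
    refine ⟨q, hq0, hqH, ?_⟩
    rw [Cover_cz ha] at hqr
    simp only [Fin.sum_univ_three]
    change (q 0 : ℂ) * ψ a (Complex.exp w) ^ 2 + (q 1 : ℂ) * ψ a (Complex.exp w) + (q 2 : ℂ) * 1 = 0
    rw [mul_one]
    exact hqr

theorem Cov.mono {P Q : ℝ → ℂ → Prop} (h : Cov P) (hPQ : ∀ H w, Q H w → P H w) : Cov Q := by
  obtain ⟨C, hC⟩ := h
  refine ⟨C, fun H hH => ?_⟩
  obtain ⟨S, h1, h2, h3⟩ := hC H hH
  exact ⟨S, h1, h2, fun w hw hwH hP => h3 w hw hwH (hPQ H w hP)⟩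

private theorem Solo.zero {e : Fin mm → ℕ} (h : Solo e) {a b : Fin mm} (hab : a ≠ b) (ha : 0 < e a) :
    e b = 0 := by
  by_contra hb
  exact hab (h a b ha (Nat.pos_of_ne_zero hb))

/-- pair and pair -/
theorem Cusp.cover2 {e : Fin 4 → ℕ} {ψ : Fin 4 → ℂ → ℂ} (h : Cusp e ψ) (hs : Solo e) :
    Cov (Pt2 (cz e ψ)) := by
  by_cases h01 : e 0 = 0 ∧ e 1 = 0
  · exact (h.cover_iso (by decide) h01.1 h01.2).mono fun H w hw => hw.1
  · have h23 : e 2 = 0 ∧ e 3 = 0 := by
      by_cases h0 : e 0 = 0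
      · have h1 : 0 < e 1 := Nat.pos_of_ne_zero fun h1 => h01 ⟨h0, h1⟩
        exact ⟨hs.zero (by decide) h1, hs.zero (by decide) h1⟩
      · have h1 : 0 < e 0 := Nat.pos_of_ne_zero h0
        exact ⟨hs.zero (by decide) h1, hs.zero (by decide) h1⟩
    exact (h.cover_iso (by decide) h23.1 h23.2).mono fun H w hw => hw.2

/-- pair and quadratic coordinate -/
theorem Cusp.cover3 {e : Fin 3 → ℕ} {ψ : Fin 3 → ℂ → ℂ} (h : Cusp e ψ) (hs : Solo e) :
    Cov (Pt3 (cz e ψ)) := by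
  by_cases h2 : e 2 = 0
  · exact (h.cover_quad h2).mono fun H w hw => hw.2
  · have h1 : 0 < e 2 := Nat.pos_of_ne_zero h2
    exact (h.cover_iso (a := 0) (b := 1) (by decide) (hs.zero (by decide) h1)
      (hs.zero (by decide) h1)).mono fun H w hw => hw.1

/-- two quadratic coordinates -/
theorem Cusp.cover4 {e : Fin 2 → ℕ} {ψ : Fin 2 → ℂ → ℂ} (h : Cusp e ψ) (hs : Solo e) :
    Cov (Pt4 (cz e ψ)) := by
  by_cases h0 : e 0 = 0
  · exact (h.cover_quad h0).mono fun H w hw => hw.1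
  · have h1 : 0 < e 0 := Nat.pos_of_ne_zero h0
    exact (h.cover_quad (a := 1) (hs.zero (by decide) h1)).mono fun H w hw => hw.2

/-- isogenous triples -/
theorem Cusp.cover1 {e : Fin 3 → ℕ} {ψ : Fin 3 → ℂ → ℂ} (h : Cusp e ψ) (hs : Solo e) :
    Cov (fun H w => PW.Pt H (cz e ψ) w) := by
  have key : ∀ a b : Fin 3, a ≠ b → e a = 0 → e b = 0 → Cov (fun H w => PW.Pt H (cz e ψ) w) := by
    intro a b hab ha hb
    exact (h.cover_iso hab ha hb).mono fun H w hw => hw b a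
  by_cases h0 : e 0 = 0
  · by_cases h1 : e 1 = 0
    · exact key 0 1 (by decide) h0 h1
    · exact key 0 2 (by decide) h0 (hs.zero (by decide) (Nat.pos_of_ne_zero h1))
  · have h1 : 0 < e 0 := Nat.pos_of_ne_zero h0
    exact key 1 2 (by decide) (hs.zero (by decide) h1) (hs.zero (by decide) h1)

end Pool.Agent.LGO.PWG
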