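import Mathlib
import Pool.Agent.LGO.PWG.Defs
import Pool.Agent.LGO.PW.Zeros

/-!
# LGO/PWG (port of PW/FamZ to m functions): families of discs: factorisation, number of zeros, Lipschitz constants

* `Fam.facs`: `Fam.dbl` and `zeros`.
* `Fam.zeros_card`: `Fac.card`.
* `Fam.lip`: Cauchy estimate, `closedBall w 1` has distance `2` to the complement of `ball w 3 ⊆ Ω`,
  where `|z a| ≤ C (1 + |s|) ≤ C (4 + |w|)`; the closed disc is convex.
-/

namespace Pool.Agent.LGO.PWG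

open MvPolynomial Metric

variable {m : ℕ} {Ω Cn : Set ℂ} {z : Fin m → ℂ → ℂ} {ρ : ℂ → ℝ}

/-- a polynomial in the three functions is holomorphic -/
theorem Fam.diff (hF : Fam Ω Cn z ρ) (G : MvPolynomial (Fin m) ℂ) :
    DifferentiableOn ℂ (fun s => eval (fun a => z a s) G) Ω := by
  have h1 : (fun s : ℂ => eval (fun a => z a s) G) =
      fun s => ∑ k ∈ G.support, G.coeff k * ∏ a, z a s ^ k a := by
    funext s
    rw [MvPolynomial.eval_eq']
  rw [h1]
  refine DifferentiableOn.fun_sum fun k _ => DifferentiableOn.const_mul ?_ _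
  exact DifferentiableOn.fun_finsetProd fun a _ => (hF.an a).pow _

theorem Fam.facs (hF : Fam Ω Cn z ρ) (d : ℕ) : ∃ (p : ℕ) (C' : ℝ) (C : ℕ), 1 ≤ C' ∧ 0 < C ∧
    ∀ w ∈ Cn, ∀ G : MvPolynomial (Fin m) ℂ, G ≠ 0 → G.totalDegree ≤ d → ∃ c : ℝ, 0 < c ∧
      PW.nrm G * ρ w ^ C ≤ C * (1 + ‖w‖) ^ C * c ∧
      ∃ U Z, PW.Fac C' p w (fun s => eval (fun a => z a s) G) c U Z := by
  obtain ⟨C, hC, h⟩ := hF.dbl d
  obtain ⟨p, C', hC', hz⟩   := PW.zeros (C : ℝ)
  refine ⟨p, C', C, hC', hC, fun w hw G hG hd => ?_⟩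
  obtain ⟨c, hc, h1, h2, h3⟩ := h w hw G hG hd
  exact ⟨c, hc, h1, hz w _ c hc ((hF.diff G).mono (hF.ball w hw)) h2 h3⟩

theorem Fam.zeros_card (hF : Fam Ω Cn z ρ) (d : ℕ) : ∃ p : ℕ, ∀ w ∈ Cn,
    ∀ G : MvPolynomial (Fin m) ℂ, G ≠ 0 → G.totalDegree ≤ d → ∀ S : Finset ℂ,
      (∀ s ∈ S, s ∈ closedBall w 1 ∧ eval (fun a => z a s) G = 0) → S.card ≤ p := by
  obtain ⟨p, C', C, -, -, h⟩ := hF.facs d
  refine ⟨p, fun w hw G hG hd S hS => ?_⟩
  obtain ⟨c, hc, -, U, Z, hf⟩ := h w hw G hG hd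
  exact hf.card hc S hS

theorem Fam.lip (hF : Fam Ω Cn z ρ) : ∃ C : ℕ, 0 < C ∧ ∀ a, ∀ w ∈ Cn, ∀ s ∈ closedBall w 1,
    ∀ t ∈ closedBall w 1, ‖z a s - z a t‖ ≤ C * (1 + ‖w‖) * ‖s - t‖ := by
  obtain ⟨C₀, hC₀⟩ := hF.size
  obtain ⟨n, hn⟩ := exists_nat_ge (4 * |C₀|)
  refine ⟨n + 1, Nat.succ_pos n, fun a w hw s hs t ht => ?_⟩
  have hsub : closedBall w 1 ⊆ Ω :=
    (closedBall_subset_ball (by norm_num)).trans (hF.ball w hw)
  have hder : ∀ x ∈ closedBall w 1, ‖deriv (z a) x‖ ≤ ((n + 1 : ℕ) : ℝ) * (1 + ‖w‖) := by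
    intro x hx
    rw [mem_closedBall, dist_eq_norm] at hx
    have hx3 : closedBall x 1 ⊆ Metric.ball w 3 := by
      intro y hy
      rw [mem_closedBall, dist_eq_norm] at hy
      rw [mem_ball, dist_eq_norm]
      have h1 : y - w = (y - x) + (x - w) := by ring
      have h2 := norm_add_le (y - x) (x - w)
      rw [← h1] at h2
      linarith
    have h1 := Complex.norm_deriv_le_of_forall_mem_sphere_norm_le (c := x) (R := 1)
      (C := ((n + 1 : ℕ) : ℝ) * (1 + ‖w‖)) (f := z a) (by norm_num)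
      (((hF.an a).mono (hF.ball w hw)).diffContOnCl_ball hx3) (by
        intro y hy
        have hy3 := hx3 (sphere_subset_closedBall hy)
        have h2 := hC₀ a y (hF.ball w hw hy3)
        rw [mem_ball, dist_eq_norm] at hy3
        have h3 : ‖y‖ ≤ ‖w‖ + 3 := by
          have h4 := norm_sub_norm_le y w
          linarith
        have h5 : C₀ * (1 + ‖y‖) ≤ |C₀| * (1 + ‖y‖) :=
          mul_le_mul_of_nonneg_right (le_abs_self _) (by positivity)
        have h6 : |C₀| * (1 + ‖y‖) ≤ |C₀| * (4 * (1 + ‖w‖)) :=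
          mul_le_mul_of_nonneg_left (by linarith [norm_nonneg w]) (abs_nonneg _)
        refine h2.trans (h5.trans (h6.trans ?_))
        push_cast
        nlinarith [norm_nonneg w, abs_nonneg C₀])
    rwa [div_one] at h1
  refine (convex_closedBall w 1).norm_image_sub_le_of_norm_deriv_le ?_ hder ht hs
  intro x hx
  exact (hF.an a).differentiableAt (hF.isOpen.mem_nhds (hsub hx))

end Pool.Agent.LGO.PWG
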