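import Mathlib
import Pool.Agent.LGO.PWG.Size
import Pool.Agent.LGO.PWG.Cover

/-!
# LGO/PWG: the counting theorem, abstract form

`Q H x` is an arithmetic condition of complexity `H` on the point `x` (for instance: `x 0`, `x 1` are the
invariants of curves with an isogeny of degree at most `H`, and so on).

* `DC Cn Pt`: a unit disc with centre in `Cn` contains at most `H ^ δ` parameters with `Pt H`.
* `Tr Ω z Q Pt`: the parameter of a point with `Q H` satisfies `Pt (H ^ C)`.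
* `Cble Q`: both hold in every compact chart and in every cusp chart without common poles (`Solo`), and in
  the cusp charts the parameters with `Pt H` are covered by `O(log H)` unit discs (`Cov`).
* `count`: a set with an atlas contains at most `C H ^ δ` points with `Q H`, `|x a| ≤ exp H`.

Every point `x ∈ S` outside the finite exceptional set is assigned to a chart `k` and a
parameter.  Compact chart: the parameters `s ∈ closedBall 0 1` are distinct for distinct `x`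
(`Lift.unique`).  Cusp chart: `Cusp.size_of`; with `H' = H ^ C` all `w ∈ CD` satisfy `‖w‖ ≤ H'`, `Pt H' w`;
`Cov` gives `C (1 + log H')` discs of radius `1` with centres in `CD`, `‖w₀‖ ≤ H'`; `DC` in each of them.
-/

namespace Pool.Agent.LGO.PWG

open MvPolynomial Metric Pool.Agent.LGO.PW

variable {mm : ℕ}

/-- a unit disc with centre in `Cn` contains at most `H ^ d` points with `Pt H` -/
def DC (Cn : Set ℂ) (Pt : ℝ → ℂ → Prop) : Prop :=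
  ∀ d : ℝ, 0 < d → ∃ H₀ : ℝ, ∀ H : ℝ, H₀ ≤ H → ∀ w ∈ Cn, ‖w‖ ≤ H → ∀ S : Finset ℂ,
    (∀ s ∈ S, s ∈ closedBall w 1 ∧ Pt H s) → (S.card : ℝ) ≤ H ^ d

/-- the parameter of a point with `Q H` satisfies `Pt (H ^ C)` -/
def Tr (Ω : Set ℂ) (z : Fin mm → ℂ → ℂ) (Q : ℝ → (Fin mm → ℂ) → Prop) (Pt : ℝ → ℂ → Prop) : Prop :=
  ∃ C : ℕ, 0 < C ∧ ∀ H : ℝ, 2 ≤ H → ∀ s ∈ Ω, ‖s‖ ≤ H → ∀ x, Lift z s x → Q H x → Pt (H ^ C) s

/-- the condition `Q` can be counted in charts -/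
structure Cble (Q : ℝ → (Fin mm → ℂ) → Prop) : Prop where
  mono : ∀ (H H' : ℝ), H ≤ H' → ∀ x, Q H x → Q H' x
  comp : ∀ z, Comp z → ∃ Pt : ℝ → ℂ → Prop, DC (closedBall 0 1) Pt ∧ Tr (ball 0 4) z Q Pt
  cusp : ∀ e ψ, Cusp e ψ → Solo e → ∃ Pt : ℝ → ℂ → Prop, DC CD Pt ∧ Cov Pt ∧ Tr LH (cz e ψ) Q Pt

/-- the set `W` is covered by finitely many charts, up to finitely many points; no common poles -/
def Atl (W : Set (Fin mm → ℂ)) : Prop :=
  ∃ (F : Set (Fin mm → ℂ)) (n k : ℕ) (z : Fin n → Fin mm → ℂ → ℂ) (e : Fin k → Fin mm → ℕ)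
    (ψ : Fin k → Fin mm → ℂ → ℂ), F.Finite ∧ (∀ k, Comp (z k)) ∧ (∀ k, Cusp (e k) (ψ k)) ∧
    (∀ k, Solo (e k)) ∧
    ∀ x ∈ W, x ∈ F ∨ (∃ k, ∃ s ∈ closedBall (0 : ℂ) 1, Lift (z k) s x) ∨
      ∃ k, ∃ w ∈ CD, Lift (cz (e k) (ψ k)) w x

private theorem Count_pow {H : ℝ} (hH : 2 ≤ H) {C : ℕ} (hC : 0 < C) : H ≤ H ^ C :=
  le_self_pow₀ (by linarith) hC.ne'

private theorem Count_rpow {H : ℝ} (hH : 2 ≤ H) {C : ℕ} (hC : 0 < C) (δ : ℝ) :
    (H ^ C) ^ (δ / C) = H ^ δ := by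
  have hC' : (C : ℝ) ≠ 0 := Nat.cast_ne_zero.2 hC.ne'
  rw [← Real.rpow_natCast, ← Real.rpow_mul (by linarith)]
  congr 1
  field_simp

theorem count_comp {Q : ℝ → (Fin mm → ℂ) → Prop} {z : Fin mm → ℂ → ℂ}
    {Pt : ℝ → ℂ → Prop} (hD : DC (closedBall 0 1) Pt) (hT : Tr (ball 0 4) z Q Pt) (δ : ℝ) (hδ : 0 < δ) :
    ∃ H₀ : ℝ, 2 ≤ H₀ ∧ ∀ H : ℝ, H₀ ≤ H → ∀ S : Finset (Fin mm → ℂ),
      (∀ x ∈ S, (∃ s ∈ closedBall (0 : ℂ) 1, Lift z s x) ∧ Q H x) → (S.card : ℝ) ≤ H ^ δ := by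
  classical
  obtain ⟨C, hC, hpt⟩ := hT
  obtain ⟨H₁, hcount⟩ := hD (δ / C) (by positivity)
  refine ⟨max 2 H₁, le_max_left _ _, ?_⟩
  intro H hH S hS
  have hH2 : 2 ≤ H := (le_max_left _ _).trans hH
  have hH1 : H₁ ≤ H := (le_max_right _ _).trans hH
  have hpow := Count_pow hH2 hC
  have hex : ∀ x ∈ S, ∃ s, s ∈ closedBall (0 : ℂ) 1 ∧ Lift z s x := fun x hx => by
    obtain ⟨s, hs, hl⟩ := (hS x hx).1
    exact ⟨s, hs, hl⟩
  choose! f hf1 hf2 using hex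
  have hinj : Set.InjOn f (S : Set (Fin mm → ℂ)) := by
    intro x hx y hy hxy
    have h1 := hf2 x hx
    have h2 := hf2 y hy
    rw [← hxy] at h2
    exact h1.unique h2
  have hcard : (S.image f).card = S.card := Finset.card_image_of_injOn hinj
  have key := hcount (H ^ C) (hH1.trans hpow) 0 (mem_closedBall_self zero_le_one)
    (by rw [norm_zero]; positivity) (S.image f) (by
      intro s hs
      obtain ⟨x, hx, rfl⟩ := Finset.mem_image.1 hs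
      refine ⟨hf1 x hx, hpt H hH2 (f x) ?_ ?_ x (hf2 x hx) (hS x hx).2⟩
      · have := mem_closedBall.1 (hf1 x hx)
        rw [mem_ball]
        linarith
      · have := mem_closedBall_zero_iff.1 (hf1 x hx)
        linarith)
  rw [hcard, Count_rpow hH2 hC] at key
  exact key

private theorem Count_big (δ K : ℝ) (hδ : 0 < δ) : ∃ H₀ : ℝ, ∀ H : ℝ, H₀ ≤ H → K ≤ H ^ δ :=
  Filter.eventually_atTop.1 ((tendsto_rpow_atTop hδ).eventually_ge_atTop K)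

theorem count_cusp {Q : ℝ → (Fin mm → ℂ) → Prop} (hQ : ∀ (H H' : ℝ), H ≤ H' → ∀ x, Q H x → Q H' x)
    {e : Fin mm → ℕ} {ψ : Fin mm → ℂ → ℂ} (h : Cusp e ψ)
    {Pt : ℝ → ℂ → Prop} (hD : DC CD Pt) (hCov : Cov Pt) (hT : Tr LH (cz e ψ) Q Pt)
    (δ : ℝ) (hδ : 0 < δ) :
    ∃ H₀ : ℝ, 2 ≤ H₀ ∧ ∀ H : ℝ, H₀ ≤ H → ∀ S : Finset (Fin mm → ℂ),
      (∀ x ∈ S, (∃ w ∈ CD, Lift (cz e ψ) w x) ∧ (∀ a, ‖x a‖ ≤ Real.exp H) ∧ Q H x) →
        (S.card : ℝ) ≤ H ^ δ := by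
  classical
  obtain ⟨C₁, hC₁, hpt⟩ := hT
  obtain ⟨C₂, hC₂, hsize⟩ := h.size_of
  obtain ⟨C₃, hcov⟩ := hCov
  have hE : 0 < C₂ * C₁ := Nat.mul_pos hC₂ hC₁
  obtain ⟨H₁, hcount⟩ := hD (δ / 2 / ((C₂ * C₁ : ℕ) : ℝ)) (by positivity)
  set K : ℝ := C₃ * (1 + (C₂ * C₁ : ℕ) * (4 / δ)) with hK
  obtain ⟨H₂, hbig⟩ := Count_big (δ / 4) K (by positivity)
  refine ⟨max 2 (max H₁ H₂), le_max_left _ _, ?_⟩
  intro H hH S hS
  have hH2 : 2 ≤ H := (le_max_left _ _).trans hH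
  have hH1 : H₁ ≤ H := ((le_max_left _ _).trans (le_max_right _ _)).trans hH
  have hH3 : H₂ ≤ H := ((le_max_right _ _).trans (le_max_right _ _)).trans hH
  have hp1 := Count_pow hH2 hC₂
  have hp2 : H ^ C₂ ≤ H ^ (C₂ * C₁) := by
    rw [pow_mul]
    exact Count_pow (hH2.trans hp1) hC₁
  have hp3 : H ≤ H ^ (C₂ * C₁) := hp1.trans hp2
  have hex : ∀ x ∈ S, ∃ w, w ∈ CD ∧ Lift (cz e ψ) w x := fun x hx => by
    obtain ⟨s, hs, hl⟩ := (hS x hx).1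
    exact ⟨s, hs, hl⟩
  choose! f hf1 hf2 using hex
  have hinj : Set.InjOn f (S : Set (Fin mm → ℂ)) := by
    intro x hx y hy hxy
    have h1 := hf2 x hx
    have h2 := hf2 y hy
    rw [← hxy] at h2
    exact h1.unique h2
  have hsz : ∀ x ∈ S, ‖f x‖ ≤ H ^ C₂ := fun x hx =>
    hsize H hH2 (f x) (hf1 x hx) x (hf2 x hx) (hS x hx).2.1
  have hPt : ∀ x ∈ S, Pt (H ^ (C₂ * C₁)) (f x) := by
    intro x hx
    rw [pow_mul]
    refine hpt (H ^ C₂) (hH2.trans hp1) (f x) ?_ (hsz x hx) x (hf2 x hx) ?_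
    · change (f x).re < 0
      have := (hf1 x hx).1
      linarith
    · exact hQ H _ hp1 x (hS x hx).2.2
  obtain ⟨T, hT1, hT2, hT3⟩ := hcov (H ^ (C₂ * C₁)) (hH2.trans hp3)
  have hsub : S.image f ⊆ T.biUnion fun w₀ => (S.image f).filter fun w => ‖w - w₀‖ ≤ 1 := by
    intro w hw
    obtain ⟨x, hx, rfl⟩ := Finset.mem_image.1 hw
    obtain ⟨w₀, hw₀, hle⟩ := hT3 (f x) (hf1 x hx) ((hsz x hx).trans hp2) (hPt x hx)
    exact Finset.mem_biUnion.2 ⟨w₀, hw₀, Finset.mem_filter.2 ⟨hw, hle⟩⟩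
  have hone : ∀ w₀ ∈ T, (((S.image f).filter fun w => ‖w - w₀‖ ≤ 1).card : ℝ) ≤ H ^ (δ / 2) := by
    intro w₀ hw₀
    have key := hcount (H ^ (C₂ * C₁)) (hH1.trans hp3) w₀ (hT1 w₀ hw₀).1 (hT1 w₀ hw₀).2
      ((S.image f).filter fun w => ‖w - w₀‖ ≤ 1) (by
        intro s hs
        obtain ⟨hs1, hs2⟩ := Finset.mem_filter.1 hs
        obtain ⟨x, hx, rfl⟩ := Finset.mem_image.1 hs1
        refine ⟨?_, hPt x hx⟩
        rw [mem_closedBall, dist_eq_norm]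
        exact hs2)
    rw [Count_rpow hH2 hE] at key
    exact key
  have hH0 : 0 < H := by linarith
  have hlog : Real.log (H ^ (C₂ * C₁)) = (C₂ * C₁ : ℕ) * Real.log H := Real.log_pow _ _
  have hlog2 : Real.log H ≤ H ^ (δ / 4) / (δ / 4) := Real.log_le_rpow_div hH0.le (by positivity)
  have hq0 : 0 < H ^ (δ / 2) := Real.rpow_pos_of_pos hH0 _
  have hq1 : 1 ≤ H ^ (δ / 4) := Real.one_le_rpow (by linarith) (by positivity)
  have hTc : (T.card : ℝ) ≤ K * H ^ (δ / 4) := by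
    refine hT2.trans ?_
    rw [hlog, hK, mul_assoc]
    refine mul_le_mul_of_nonneg_left ?_ (Nat.cast_nonneg _)
    have h4 : ((C₂ * C₁ : ℕ) : ℝ) * Real.log H ≤ ((C₂ * C₁ : ℕ) : ℝ) * (H ^ (δ / 4) / (δ / 4)) :=
      mul_le_mul_of_nonneg_left hlog2 (Nat.cast_nonneg _)
    calc 1 + ((C₂ * C₁ : ℕ) : ℝ) * Real.log H
        ≤ H ^ (δ / 4) + ((C₂ * C₁ : ℕ) : ℝ) * (H ^ (δ / 4) / (δ / 4)) := add_le_add hq1 h4
      _ = (1 + (C₂ * C₁ : ℕ) * (4 / δ)) * H ^ (δ / 4) := by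
          field_simp
  calc (S.card : ℝ) = ((S.image f).card : ℝ) := by rw [Finset.card_image_of_injOn hinj]
    _ ≤ ((T.biUnion fun w₀ => (S.image f).filter fun w => ‖w - w₀‖ ≤ 1).card : ℝ) := by
        exact_mod_cast Finset.card_le_card hsub
    _ ≤ ∑ w₀ ∈ T, (((S.image f).filter fun w => ‖w - w₀‖ ≤ 1).card : ℝ) := by
        exact_mod_cast Finset.card_biUnion_le
    _ ≤ T.card • H ^ (δ / 2) := Finset.sum_le_card_nsmul _ _ _ hone
    _ = T.card * H ^ (δ / 2) := by rw [nsmul_eq_mul]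
    _ ≤ K * H ^ (δ / 4) * H ^ (δ / 2) := mul_le_mul_of_nonneg_right hTc hq0.le
    _ ≤ H ^ (δ / 4) * H ^ (δ / 4) * H ^ (δ / 2) := by
        refine mul_le_mul_of_nonneg_right ?_ hq0.le
        exact mul_le_mul_of_nonneg_right (hbig H hH3) (by linarith)
    _ = H ^ δ := by
        rw [← Real.rpow_add hH0, ← Real.rpow_add hH0]
        congr 1
        ring

theorem count {Q : ℝ → (Fin mm → ℂ) → Prop} (hQ : Cble Q) {W : Set (Fin mm → ℂ)} (hW : Atl W)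
    (δ : ℝ) (hδ : 0 < δ) :
    ∃ C : ℝ, 0 < C ∧ ∀ H : ℝ, 2 ≤ H → ∀ S : Finset (Fin mm → ℂ),
      (∀ x ∈ S, x ∈ W ∧ (∀ a, ‖x a‖ ≤ Real.exp H) ∧ Q H x) → (S.card : ℝ) ≤ C * H ^ δ := by
  classical
  obtain ⟨F, n, m, z, e, ψ, hF, hz, he, hso, hcov⟩ := hW
  have hz' : ∀ k, ∃ H₀ : ℝ, 2 ≤ H₀ ∧ ∀ H : ℝ, H₀ ≤ H → ∀ S : Finset (Fin mm → ℂ),
      (∀ x ∈ S, (∃ s ∈ closedBall (0 : ℂ) 1, Lift (z k) s x) ∧ Q H x) → (S.card : ℝ) ≤ H ^ δ := by
    intro k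
    obtain ⟨Pt, h1, h2⟩ := hQ.comp _ (hz k)
    exact count_comp h1 h2 δ hδ
  have he' : ∀ k, ∃ H₀ : ℝ, 2 ≤ H₀ ∧ ∀ H : ℝ, H₀ ≤ H → ∀ S : Finset (Fin mm → ℂ),
      (∀ x ∈ S, (∃ w ∈ CD, Lift (cz (e k) (ψ k)) w x) ∧ (∀ a, ‖x a‖ ≤ Real.exp H) ∧ Q H x) →
        (S.card : ℝ) ≤ H ^ δ := by
    intro k
    obtain ⟨Pt, h1, h2, h3⟩ := hQ.cusp _ _ (he k) (hso k)
    exact count_cusp hQ.mono (he k) h1 h2 h3 δ hδ
  choose A hA2 hA using hz'
  choose B hB2 hB using he'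
  obtain ⟨M, hM2, hMA, hMB⟩ : ∃ M : ℝ, 2 ≤ M ∧ (∀ k, A k ≤ M) ∧ ∀ k, B k ≤ M := by
    refine ⟨2 + ∑ k, |A k| + ∑ k, |B k|, ?_, ?_, ?_⟩
    · have h1 : 0 ≤ ∑ k, |A k| := Finset.sum_nonneg fun _ _ => abs_nonneg _
      have h2 : 0 ≤ ∑ k, |B k| := Finset.sum_nonneg fun _ _ => abs_nonneg _
      linarith
    · intro k
      have h1 : |A k| ≤ ∑ k, |A k| :=
        Finset.single_le_sum (f := fun k => |A k|) (fun _ _ => abs_nonneg _) (Finset.mem_univ k)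
      have h2 : 0 ≤ ∑ k, |B k| := Finset.sum_nonneg fun _ _ => abs_nonneg _
      have := le_abs_self (A k)
      linarith
    · intro k
      have h1 : |B k| ≤ ∑ k, |B k| :=
        Finset.single_le_sum (f := fun k => |B k|) (fun _ _ => abs_nonneg _) (Finset.mem_univ k)
      have h2 : 0 ≤ ∑ k, |A k| := Finset.sum_nonneg fun _ _ => abs_nonneg _
      have := le_abs_self (B k)
      linarith
  have hMpos : 0 < M ^ δ := Real.rpow_pos_of_pos (by linarith) _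
  refine ⟨(hF.toFinset.card : ℝ) + (n + m) * M ^ δ + 1, by positivity, ?_⟩
  intro H hH S hS
  have hH0 : 0 < H := by linarith
  have hq1 : 1 ≤ H ^ δ := Real.one_le_rpow (by linarith) hδ.le
  set H' : ℝ := max H M with hH'
  have hHH' : H ≤ H' := le_max_left _ _
  have hMH' : M ≤ H' := le_max_right _ _
  have hH'le : H' ≤ H * M := by
    refine max_le ?_ ?_
    · nlinarith
    · nlinarith
  have hH'q : H' ^ δ ≤ H ^ δ * M ^ δ := by
    rw [← Real.mul_rpow hH0.le (by linarith)]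
    exact Real.rpow_le_rpow (by linarith) hH'le hδ.le
  have hiso : ∀ x ∈ S, Q H' x := fun x hx => hQ.mono H H' hHH' x (hS x hx).2.2
  have hnorm : ∀ x ∈ S, ∀ a, ‖x a‖ ≤ Real.exp H' := fun x hx a =>
    ((hS x hx).2.1 a).trans (Real.exp_le_exp.2 hHH')
  set S₁ : Fin n → Finset (Fin mm → ℂ) := fun k =>
    S.filter fun x => ∃ s ∈ closedBall (0 : ℂ) 1, Lift (z k) s x with hS₁
  set S₂ : Fin m → Finset (Fin mm → ℂ) := fun k =>
    S.filter fun x => ∃ w ∈ CD, Lift (cz (e k) (ψ k)) w x with hS₂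
  have hsub : S ⊆ hF.toFinset ∪ (Finset.univ.biUnion S₁ ∪ Finset.univ.biUnion S₂) := by
    intro x hx
    rcases hcov x (hS x hx).1 with hxF | ⟨k, hk⟩ | ⟨k, hk⟩
    · exact Finset.mem_union_left _ (hF.mem_toFinset.2 hxF)
    · refine Finset.mem_union_right _ (Finset.mem_union_left _ (Finset.mem_biUnion.2
        ⟨k, Finset.mem_univ _, Finset.mem_filter.2 ⟨hx, hk⟩⟩))
    · refine Finset.mem_union_right _ (Finset.mem_union_right _ (Finset.mem_biUnion.2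
        ⟨k, Finset.mem_univ _, Finset.mem_filter.2 ⟨hx, hk⟩⟩))
  have h1 : ∀ k, ((S₁ k).card : ℝ) ≤ H' ^ δ := fun k =>
    hA k H' ((hMA k).trans hMH') (S₁ k) fun x hx =>
      ⟨(Finset.mem_filter.1 hx).2, hiso x (Finset.mem_filter.1 hx).1⟩
  have h2 : ∀ k, ((S₂ k).card : ℝ) ≤ H' ^ δ := fun k =>
    hB k H' ((hMB k).trans hMH') (S₂ k) fun x hx =>
      ⟨(Finset.mem_filter.1 hx).2, hnorm x (Finset.mem_filter.1 hx).1,
        hiso x (Finset.mem_filter.1 hx).1⟩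
  have h3 : ((Finset.univ.biUnion S₁).card : ℝ) ≤ n * H' ^ δ := by
    calc ((Finset.univ.biUnion S₁).card : ℝ) ≤ ∑ k, ((S₁ k).card : ℝ) := by
          exact_mod_cast Finset.card_biUnion_le
      _ ≤ ∑ _k : Fin n, H' ^ δ := Finset.sum_le_sum fun k _ => h1 k
      _ = n * H' ^ δ := by simp
  have h4 : ((Finset.univ.biUnion S₂).card : ℝ) ≤ m * H' ^ δ := by
    calc ((Finset.univ.biUnion S₂).card : ℝ) ≤ ∑ k, ((S₂ k).card : ℝ) := by
          exact_mod_cast Finset.card_biUnion_le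
      _ ≤ ∑ _k : Fin m, H' ^ δ := Finset.sum_le_sum fun k _ => h2 k
      _ = m * H' ^ δ := by simp
  have h5 : (S.card : ℝ) ≤ hF.toFinset.card +
      ((Finset.univ.biUnion S₁).card + (Finset.univ.biUnion S₂).card) := by
    exact_mod_cast (Finset.card_le_card hsub).trans
      ((Finset.card_union_le _ _).trans (Nat.add_le_add_left (Finset.card_union_le _ _) _))
  have h6 : (n : ℝ) * H' ^ δ ≤ n * (H ^ δ * M ^ δ) := mul_le_mul_of_nonneg_left hH'q (Nat.cast_nonneg _)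
  have h7 : (m : ℝ) * H' ^ δ ≤ m * (H ^ δ * M ^ δ) := mul_le_mul_of_nonneg_left hH'q (Nat.cast_nonneg _)
  have h8 : (hF.toFinset.card : ℝ) ≤ hF.toFinset.card * H ^ δ :=
    le_mul_of_one_le_right (Nat.cast_nonneg _) hq1
  calc (S.card : ℝ) ≤ hF.toFinset.card * H ^ δ + (n * (H ^ δ * M ^ δ) + m * (H ^ δ * M ^ δ)) := by
        linarith
    _ ≤ ((hF.toFinset.card : ℝ) + (n + m) * M ^ δ + 1) * H ^ δ := by
        have : 0 ≤ H ^ δ := by linarith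
        nlinarith

end Pool.Agent.LGO.PWG
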