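import Mathlib
import Pool.Agent.LGO.PWG.Cover

/-!
# LGO/PWG: the points of a cusp chart lie in `O(log H)` unit discs, common poles allowed

Elimination.  Let the coordinate `o` be infinite at the cusp (`0 < e o`), `Z = z o`, and
`Y a = e a ψ o - e o ψ a`, a function of `q = e ^ w`, holomorphic and bounded on the unit disc, so
`e o z a = e a Z - Y a`.  The functions `Y a`, `a ≠ o`, are algebraically independent (`Cusp.ind_Y`).
The two relations of a point of type 1, 2, 3 or 4 are polynomials in `Z` of degree at most `2` with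
coefficients in `ℤ[Y]`; the resultant (`elim`) is an integral polynomial in the `Y a`, different from
`0` (explicitly, for every type), of bounded degree, with coefficients at most `H ^ K`.  The annuli lemma
`ann` for the monomials in the `Y a` (`cover_poly`) then gives `Cov`.
-/

namespace Pool.Agent.LGO.PWG

open MvPolynomial Metric Pool.Agent.LGO.PW

variable {mm : ℕ}

/-- points in few rectangles are close to few of them -/
private theorem CoverG_net (T : Set ℂ) (A : Finset ℝ) {R : ℝ} (hR : 0 ≤ R)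
    (hT : ∀ w ∈ T, |w.im| ≤ Real.pi ∧ ∃ r ∈ A, r - R ≤ w.re ∧ w.re ≤ r + R) :
    ∃ S : Finset ℂ, (∀ w ∈ S, w ∈ T) ∧ (S.card : ℝ) ≤ A.card * (17 * (4 * R + 2)) ∧
      ∀ w ∈ T, ∃ w₀ ∈ S, ‖w - w₀‖ ≤ 1 := by
  set cell : ℂ → ℤ × ℤ := fun w => (⌊2 * w.re⌋, ⌊2 * w.im⌋) with hcell
  set K : Finset (ℤ × ℤ) :=
    A.biUnion (fun r => Finset.Icc ⌊2 * (r - R)⌋ ⌊2 * (r + R)⌋ ×ˢ Finset.Icc (-8 : ℤ) 8) with hK
  have hmaps : ∀ w ∈ T, cell w ∈ K := by
    intro w hw
    obtain ⟨him, r, hr, h1, h2⟩ := hT w hw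
    have hpi : Real.pi < 4 := by linarith [Real.pi_lt_d2]
    rw [abs_le] at him
    rw [hK, Finset.mem_biUnion]
    refine ⟨r, hr, ?_⟩
    rw [Finset.mem_product, Finset.mem_Icc, Finset.mem_Icc]
    refine ⟨⟨?_, ?_⟩, ?_, ?_⟩
    · exact Int.floor_le_floor (by linarith)
    · exact Int.floor_le_floor (by linarith)
    · change (-8 : ℤ) ≤ ⌊2 * w.im⌋
      rw [Int.le_floor]
      push_cast
      linarith
    · change ⌊2 * w.im⌋ ≤ (8 : ℤ)
      have : (⌊2 * w.im⌋ : ℝ) ≤ 8 := (Int.floor_le _).trans (by linarith)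
      exact_mod_cast this
  have hKcard : (K.card : ℝ) ≤ A.card * (17 * (4 * R + 2)) := by
    have h1 : (K.card : ℝ) ≤ ∑ r ∈ A,
        (((Finset.Icc ⌊2 * (r - R)⌋ ⌊2 * (r + R)⌋ ×ˢ Finset.Icc (-8 : ℤ) 8).card : ℕ) : ℝ) := by
      exact_mod_cast Finset.card_biUnion_le
    refine h1.trans ?_
    rw [← nsmul_eq_mul]
    apply Finset.sum_le_card_nsmul
    intro r _
    rw [Finset.card_product, Int.card_Icc, Int.card_Icc]
    have h2 : (((⌊2 * (r + R)⌋ + 1 - ⌊2 * (r - R)⌋).toNat : ℕ) : ℝ) ≤ 4 * R + 2 := by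
      have h3 : (0 : ℤ) ≤ ⌊2 * (r + R)⌋ + 1 - ⌊2 * (r - R)⌋ := by
        have : ⌊2 * (r - R)⌋ ≤ ⌊2 * (r + R)⌋ := Int.floor_le_floor (by linarith)
        omega
      have h4 : (((⌊2 * (r + R)⌋ + 1 - ⌊2 * (r - R)⌋).toNat : ℕ) : ℝ) =
          ((⌊2 * (r + R)⌋ + 1 - ⌊2 * (r - R)⌋ : ℤ) : ℝ) := by
        rw [← Int.cast_natCast, Int.toNat_of_nonneg h3]
      rw [h4]
      push_cast
      have h5 := Int.floor_le (2 * (r + R))
      have h6 := Int.lt_floor_add_one (2 * (r - R))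
      linarith
    have h7 : ((8 + 1 - (-8 : ℤ)).toNat : ℕ) = 17 := by decide
    rw [h7]
    push_cast
    linarith
  obtain ⟨T', hT'T, hbij⟩ := Set.exists_subset_bijOn T cell
  have hmT' : Set.MapsTo cell T' (K : Set (ℤ × ℤ)) := fun w hw => hmaps w (hT'T hw)
  have hfin : T'.Finite := Set.Finite.of_injOn hmT' hbij.injOn K.finite_toSet
  refine ⟨hfin.toFinset, ?_, ?_, ?_⟩
  · intro w hw
    exact hT'T (hfin.mem_toFinset.1 hw)
  · refine le_trans ?_ hKcard
    have : hfin.toFinset.card ≤ K.card := by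
      apply Finset.card_le_card_of_injOn cell
      · intro w hw
        exact hmT' (by simpa using hw)
      · intro x hx y hy hxy
        exact hbij.injOn (by simpa using hx) (by simpa using hy) hxy
    exact_mod_cast this
  · intro w hw
    obtain ⟨w₀, hw₀, heq⟩ := hbij.surjOn (Set.mem_image_of_mem cell hw)
    refine ⟨w₀, hfin.mem_toFinset.2 hw₀, ?_⟩
    have h1 : ⌊2 * w₀.re⌋ = ⌊2 * w.re⌋ := congrArg Prod.fst heq
    have h2 : ⌊2 * w₀.im⌋ = ⌊2 * w.im⌋ := congrArg Prod.snd heq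
    have h3 := Int.abs_sub_lt_one_of_floor_eq_floor h1
    have h4 := Int.abs_sub_lt_one_of_floor_eq_floor h2
    rw [abs_lt] at h3 h4
    have h5 : |(w - w₀).re| ≤ 1 / 2 := by
      rw [Complex.sub_re, abs_le]
      constructor <;> linarith
    have h6 : |(w - w₀).im| ≤ 1 / 2 := by
      rw [Complex.sub_im, abs_le]
      constructor <;> linarith
    have h7 := Complex.norm_le_abs_re_add_abs_im (w - w₀)
    linarith

/-- as `cover_gen`, coefficients at most `H ^ K` -/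
theorem cover_genK {N : ℕ} {f : ℂ → Fin N → ℂ}
    (hf : ∀ i, DifferentiableOn ℂ (fun q => f q i) (ball 0 1))
    {B : ℝ} (hB : ∀ i, ∀ q ∈ ball (0 : ℂ) 1, ‖f q i‖ ≤ B)
    (hind : ∀ c : Fin N → ℂ, c ≠ 0 → ∃ q ∈ ball (0 : ℂ) 1, ∑ i, c i * f q i ≠ 0)
    {Pt : ℝ → ℂ → Prop} (K : ℕ) (hPt : ∀ H : ℝ, 2 ≤ H → ∀ w ∈ CD, Pt H w → ∃ Φ : Fin N → ℤ, Φ ≠ 0 ∧
      (∀ i, |(Φ i : ℝ)| ≤ H ^ K) ∧ ∑ i, (Φ i : ℂ) * f (Complex.exp w) i = 0) : Cov Pt := by
  obtain ⟨C, P, hA⟩ := ann hf hB hind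
  refine ⟨⌈(P : ℝ) * (17 * (4 * (C * (K + 1 : ℕ)) + 2))⌉₊, ?_⟩
  intro H hH
  have hlogH : 0 ≤ Real.log H := Real.log_nonneg (by linarith)
  have hH0 : 0 < H := by linarith
  have hH2 : 2 ≤ H ^ (K + 1) := hH.trans (le_self_pow₀ (by linarith) (Nat.succ_ne_zero K))
  obtain ⟨A, hAc, hApos, hAq⟩ := hA (H ^ (K + 1)) hH2
  set T : Set ℂ := {w | w ∈ CD ∧ ‖w‖ ≤ H ∧ Pt H w} with hT
  set R : ℝ := C * ((K + 1 : ℕ) * Real.log H) with hR
  have hR0 : 0 ≤ R := by positivity
  obtain ⟨S, hS1, hS2, hS3⟩ := CoverG_net T (A.image Real.log) hR0 (by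
    rintro w ⟨hw, hwH, hPtw⟩
    refine ⟨hw.2, ?_⟩
    have hnorm : ‖Complex.exp w‖ = Real.exp w.re := Complex.norm_exp w
    obtain ⟨Φ, hΦ0, hΦ1, hΦ2⟩ := hPt H hH w hw hPtw
    obtain ⟨η, hη, h1, h2⟩ := hAq (Complex.exp w) (Complex.exp_ne_zero w)
      (by rw [hnorm]; exact Real.exp_le_exp.2 hw.1)
      ⟨Φ, hΦ0, fun i => (hΦ1 i).trans (pow_le_pow_right₀ (by linarith) (Nat.le_succ K)), hΦ2⟩
    have hη0 := hApos η hη
    have hpow : 0 < (H ^ (K + 1)) ^ C := pow_pos (pow_pos hH0 _) C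
    refine ⟨Real.log η, Finset.mem_image_of_mem _ hη, ?_, ?_⟩
    · have h3 := Real.log_le_log (by positivity) h1
      rw [hnorm, Real.log_exp, Real.log_div hη0.ne' hpow.ne', Real.log_pow, Real.log_pow] at h3
      exact h3
    · have h3 := Real.log_le_log (norm_pos_iff.2 (Complex.exp_ne_zero w)) h2
      rw [hnorm, Real.log_exp, Real.log_mul hη0.ne' hpow.ne', Real.log_pow, Real.log_pow] at h3
      exact h3)
  refine ⟨S, fun w hw => ⟨(hS1 w hw).1, (hS1 w hw).2.1⟩, ?_, ?_⟩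
  · refine hS2.trans ?_
    have h1 : ((A.image Real.log).card : ℝ) ≤ P := by
      exact_mod_cast Finset.card_image_le.trans hAc
    have hC : (0 : ℝ) ≤ C * (K + 1 : ℕ) := by positivity
    have h2 : 17 * (4 * R + 2) ≤ 17 * (4 * (C * (K + 1 : ℕ)) + 2) * (1 + Real.log H) := by
      rw [hR]
      nlinarith [mul_nonneg hC hlogH]
    have h5 : 0 ≤ 17 * (4 * R + 2) := by positivity
    have h6 : (P : ℝ) * (17 * (4 * (C * (K + 1 : ℕ)) + 2)) ≤
        ((⌈(P : ℝ) * (17 * (4 * (C * (K + 1 : ℕ)) + 2))⌉₊ : ℕ) : ℝ) := Nat.le_ceil _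
    have hP : (0 : ℝ) ≤ P := Nat.cast_nonneg _
    calc ((A.image Real.log).card : ℝ) * (17 * (4 * R + 2)) ≤ P * (17 * (4 * R + 2)) :=
          mul_le_mul_of_nonneg_right h1 h5
      _ ≤ P * (17 * (4 * (C * (K + 1 : ℕ)) + 2) * (1 + Real.log H)) := mul_le_mul_of_nonneg_left h2 hP
      _ = P * (17 * (4 * (C * (K + 1 : ℕ)) + 2)) * (1 + Real.log H) := by ring
      _ ≤ _ := mul_le_mul_of_nonneg_right h6 (by linarith)
  · intro w hw hwH hPtw
    exact hS3 w ⟨hw, hwH, hPtw⟩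

/-! ### heights of integral polynomials -/

variable {n : ℕ}

/-- the sum of the absolute values of the coefficients -/
noncomputable def hgt (G : MvPolynomial (Fin n) ℤ) : ℝ := ∑ k ∈ G.support, |((G.coeff k : ℤ) : ℝ)|

private theorem CoverG_hgt_eq (G : MvPolynomial (Fin n) ℤ) {S : Finset (Fin n →₀ ℕ)}
    (hS : G.support ⊆ S) : hgt G = ∑ k ∈ S, |((G.coeff k : ℤ) : ℝ)| := by
  refine Finset.sum_subset hS fun k _ hk => ?_
  rw [notMem_support_iff.1 hk, Int.cast_zero, abs_zero]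

private theorem CoverG_hgt_nonneg (G : MvPolynomial (Fin n) ℤ) : 0 ≤ hgt G :=
  Finset.sum_nonneg fun _ _ => abs_nonneg _

private theorem CoverG_hgt_add (G H : MvPolynomial (Fin n) ℤ) : hgt (G + H) ≤ hgt G + hgt H := by
  classical
  rw [CoverG_hgt_eq (G + H) support_add, CoverG_hgt_eq G (Finset.subset_union_left (s₂ := H.support)),
    CoverG_hgt_eq H (Finset.subset_union_right (s₁ := G.support)), ← Finset.sum_add_distrib]
  refine Finset.sum_le_sum fun k _ => ?_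
  rw [coeff_add, Int.cast_add]
  exact abs_add_le _ _

private theorem CoverG_hgt_zero : hgt (0 : MvPolynomial (Fin n) ℤ) = 0 := by
  simp [hgt]

private theorem CoverG_hgt_sum {ι : Type*} (s : Finset ι) (f : ι → MvPolynomial (Fin n) ℤ) :
    hgt (∑ i ∈ s, f i) ≤ ∑ i ∈ s, hgt (f i) := by
  classical
  induction s using Finset.induction_on with
  | empty => simp [CoverG_hgt_zero]
  | insert i s hi ih =>
    rw [Finset.sum_insert hi, Finset.sum_insert hi]
    exact (CoverG_hgt_add _ _).trans (by linarith)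

private theorem CoverG_hgt_monomial (k : Fin n →₀ ℕ) (a : ℤ) : hgt (monomial k a) = |(a : ℝ)| := by
  classical
  rw [CoverG_hgt_eq (monomial k a) support_monomial_subset, Finset.sum_singleton, coeff_monomial,
    if_pos rfl]

private theorem CoverG_hgt_mul (G H : MvPolynomial (Fin n) ℤ) : hgt (G * H) ≤ hgt G * hgt H := by
  rw [MvPolynomial.mul_def, Finsupp.sum]
  refine (CoverG_hgt_sum _ _).trans ?_
  rw [hgt, Finset.sum_mul]
  refine Finset.sum_le_sum fun k _ => ?_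
  rw [Finsupp.sum]
  refine (CoverG_hgt_sum _ _).trans ?_
  rw [hgt, Finset.mul_sum]
  refine Finset.sum_le_sum fun l _ => ?_
  rw [CoverG_hgt_monomial, Int.cast_mul, abs_mul]
  rfl

private theorem CoverG_hgt_neg (G : MvPolynomial (Fin n) ℤ) : hgt (-G) = hgt G := by
  rw [hgt, hgt, support_neg]
  refine Finset.sum_congr rfl fun k _ => ?_
  rw [coeff_neg, Int.cast_neg, abs_neg]

theorem coeff_le_hgt (G : MvPolynomial (Fin n) ℤ) (k : Fin n →₀ ℕ) : |((G.coeff k : ℤ) : ℝ)| ≤ hgt G := by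
  classical
  by_cases hk : k ∈ G.support
  · exact Finset.single_le_sum (f := fun k => |((G.coeff k : ℤ) : ℝ)|) (fun _ _ => abs_nonneg _) hk
  · rw [notMem_support_iff.1 hk, Int.cast_zero, abs_zero]
    exact CoverG_hgt_nonneg G

/-- a family of integral polynomials of bounded degree, with coefficients bounded by a power of `M` -/
def UB {ι : Type*} (M : ι → ℝ) (G : ι → MvPolynomial (Fin n) ℤ) : Prop :=
  ∃ K D : ℕ, ∀ i, hgt (G i) ≤ M i ^ K ∧ (G i).totalDegree ≤ D

section UB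

variable {ι : Type*} {M : ι → ℝ} {G G' : ι → MvPolynomial (Fin n) ℤ}

theorem UB.add (hM : ∀ i, 2 ≤ M i) (h : UB M G) (h' : UB M G') : UB M (fun i => G i + G' i) := by
  obtain ⟨K, D, h⟩ := h
  obtain ⟨K', D', h'⟩ := h'
  refine ⟨K + K' + 1, D + D', fun i => ⟨?_, ?_⟩⟩
  · have hM1 : 1 ≤ M i := by linarith [hM i]
    have h1 : M i ^ K ≤ M i ^ (K + K') := pow_le_pow_right₀ hM1 (Nat.le_add_right _ _)
    have h2 : M i ^ K' ≤ M i ^ (K + K') := pow_le_pow_right₀ hM1 (Nat.le_add_left _ _)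
    have h3 : 0 ≤ M i ^ (K + K') := by positivity
    rw [pow_succ]
    refine (CoverG_hgt_add _ _).trans ?_
    have := (h i).1
    have := (h' i).1
    nlinarith [hM i]
  · refine (totalDegree_add _ _).trans (max_le ?_ ?_)
    · exact (h i).2.trans (Nat.le_add_right _ _)
    · exact (h' i).2.trans (Nat.le_add_left _ _)

theorem UB.neg (h : UB M G) : UB M (fun i => -G i) := by
  obtain ⟨K, D, h⟩ := h
  refine ⟨K, D, fun i => ⟨?_, ?_⟩⟩
  · rw [CoverG_hgt_neg]
    exact (h i).1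
  · rw [totalDegree_neg]
    exact (h i).2

theorem UB.sub (hM : ∀ i, 2 ≤ M i) (h : UB M G) (h' : UB M G') : UB M (fun i => G i - G' i) := by
  have := h.add hM h'.neg
  simpa only [← sub_eq_add_neg] using this

theorem UB.mul (h : UB M G) (h' : UB M G') : UB M (fun i => G i * G' i) := by
  obtain ⟨K, D, h⟩ := h
  obtain ⟨K', D', h'⟩ := h'
  refine ⟨K + K', D + D', fun i => ⟨?_, ?_⟩⟩
  · rw [pow_add]
    refine (CoverG_hgt_mul _ _).trans ?_
    exact mul_le_mul (h i).1 (h' i).1 (CoverG_hgt_nonneg _) ((CoverG_hgt_nonneg _).trans (h i).1)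
  · exact (totalDegree_mul _ _).trans (Nat.add_le_add (h i).2 (h' i).2)

theorem UB.sqr (h : UB M G) : UB M (fun i => G i ^ 2) := by
  have e : (fun i => G i ^ 2) = fun i => G i * G i := funext fun i => pow_two (G i)
  rw [e]
  exact h.mul h

theorem UB.int {c : ι → ℤ} (hc : ∀ i, |(c i : ℝ)| ≤ M i) : UB M (fun i => (C (c i) : MvPolynomial (Fin n) ℤ)) :=
  ⟨1, 0, fun i => ⟨by
    rw [pow_one]
    exact (CoverG_hgt_monomial 0 (c i)).le.trans (hc i), by rw [totalDegree_C]⟩⟩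

theorem UB.var (j : Fin n) : UB M (fun _ => (X j : MvPolynomial (Fin n) ℤ)) :=
  ⟨0, 1, fun i => ⟨by
    rw [pow_zero]
    refine (CoverG_hgt_monomial (Finsupp.single j 1) 1).le.trans ?_
    simp, by rw [totalDegree_X]⟩⟩

theorem UB.ite {p : ι → Prop} [DecidablePred p] (hM : ∀ i, 2 ≤ M i) (h : UB M G) (h' : UB M G') :
    UB M (fun i => if p i then G i else G' i) := by
  obtain ⟨K, D, h⟩ := h
  obtain ⟨K', D', h'⟩ := h'
  refine ⟨K + K', D + D', fun i => ?_⟩
  have hM1 : 1 ≤ M i := by linarith [hM i]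
  have h1 : M i ^ K ≤ M i ^ (K + K') := pow_le_pow_right₀ hM1 (Nat.le_add_right _ _)
  have h2 : M i ^ K' ≤ M i ^ (K + K') := pow_le_pow_right₀ hM1 (Nat.le_add_left _ _)
  show hgt (if p i then G i else G' i) ≤ _ ∧ (if p i then G i else G' i).totalDegree ≤ _
  split_ifs
  · exact ⟨(h i).1.trans h1, (h i).2.trans (Nat.le_add_right _ _)⟩
  · exact ⟨(h' i).1.trans h2, (h' i).2.trans (Nat.le_add_left _ _)⟩

end UB

/-! ### elimination of `Z` from two polynomials of degree at most `2` -/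

open Classical in
/-- the eliminant -/
noncomputable def elim (a b : Fin 3 → MvPolynomial (Fin n) ℤ) : MvPolynomial (Fin n) ℤ :=
  if a 2 ≠ 0 then (a 2 * b 0 - a 0 * b 2) ^ 2 - (a 2 * b 1 - a 1 * b 2) * (a 1 * b 0 - a 0 * b 1)
  else if a 1 ≠ 0 then a 1 ^ 2 * b 0 - a 0 * a 1 * b 1 + a 0 ^ 2 * b 2 else a 0

theorem elim_UB {ι : Type*} {M : ι → ℝ} (hM : ∀ i, 2 ≤ M i) {a b : Fin 3 → ι → MvPolynomial (Fin n) ℤ}
    (ha : ∀ k, UB M (a k)) (hb : ∀ k, UB M (b k)) :
    UB M (fun i => elim (fun k => a k i) (fun k => b k i)) := by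
  classical
  refine UB.ite hM ?_ (UB.ite hM ?_ (ha 0))
  · exact ((((ha 2).mul (hb 0)).sub hM ((ha 0).mul (hb 2))).sqr).sub hM
      ((((ha 2).mul (hb 1)).sub hM ((ha 1).mul (hb 2))).mul
        (((ha 1).mul (hb 0)).sub hM ((ha 0).mul (hb 1))))
  · exact ((((ha 1).sqr).mul (hb 0)).sub hM (((ha 0).mul (ha 1)).mul (hb 1))).add hM
      (((ha 0).sqr).mul (hb 2))

theorem elim_zero {a b : Fin 3 → MvPolynomial (Fin n) ℤ} {y : Fin n → ℂ} {Z : ℂ}
    (ha : aeval y (a 2) * Z ^ 2 + aeval y (a 1) * Z + aeval y (a 0) = 0)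
    (hb : aeval y (b 2) * Z ^ 2 + aeval y (b 1) * Z + aeval y (b 0) = 0) : aeval y (elim a b) = 0 := by
  classical
  unfold elim
  split_ifs with h1 h2
  · simp only [map_sub, map_mul, map_pow]
    set a2 := aeval y (a 2)
    set a1 := aeval y (a 1)
    set a0 := aeval y (a 0)
    set b2 := aeval y (b 2)
    set b1 := aeval y (b 1)
    set b0 := aeval y (b 0)
    linear_combination ((a2 * b1 - a1 * b2) * (b2 * Z + b1) - (a2 * b0 - a0 * b2) * b2) * ha +
      ((a2 * b0 - a0 * b2) * a2 - (a2 * b1 - a1 * b2) * (a2 * Z + a1)) * hb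
  · rw [not_not] at h1
    rw [h1, map_zero] at ha
    simp only [map_sub, map_add, map_mul, map_pow]
    set a1 := aeval y (a 1)
    set a0 := aeval y (a 0)
    set b2 := aeval y (b 2)
    set b1 := aeval y (b 1)
    set b0 := aeval y (b 0)
    linear_combination a1 ^ 2 * hb - (a1 * b1 + b2 * (a1 * Z - a0)) * ha
  · rw [not_not] at h1 h2
    rw [h1, h2, map_zero] at ha
    linear_combination ha

/-! ### the annuli lemma for polynomials in independent functions of `q` -/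

theorem cover_poly {F : Fin n → ℂ → ℂ} (hF : ∀ j, DifferentiableOn ℂ (F j) (ball 0 1)) {B : ℝ}
    (hB : ∀ j, ∀ q ∈ ball (0 : ℂ) 1, ‖F j q‖ ≤ B)
    (hind : ∀ G : MvPolynomial (Fin n) ℂ, G ≠ 0 → ∃ q ∈ ball (0 : ℂ) 1, eval (fun j => F j q) G ≠ 0)
    {Pt : ℝ → ℂ → Prop} (K D : ℕ) (hPt : ∀ H : ℝ, 2 ≤ H → ∀ w ∈ CD, Pt H w →
      ∃ G : MvPolynomial (Fin n) ℤ, G ≠ 0 ∧ hgt G ≤ H ^ K ∧ G.totalDegree ≤ D ∧
        aeval (fun j => F j (Complex.exp w)) G = 0) : Cov Pt := by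
  classical
  set S : Finset (Fin n →₀ ℕ) := (Finsupp.finite_of_degree_le (σ := Fin n) D).toFinset with hSdef
  have hS : ∀ k : Fin n →₀ ℕ, k ∈ S ↔ k.degree ≤ D := by
    intro k
    rw [hSdef, Set.Finite.mem_toFinset, Set.mem_ofPred_eq]
  let E := S.equivFin
  set kk : Fin S.card → (Fin n →₀ ℕ) := fun i => (E.symm i : Fin n →₀ ℕ) with hkk
  have hkinj : Function.Injective kk := fun i j h => E.symm.injective (Subtype.ext h)
  set f : ℂ → Fin S.card → ℂ := fun q i => ∏ j, F j q ^ (kk i j) with hfdef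
  have hB1 : (1 : ℝ) ≤ max B 1 := le_max_right _ _
  have hfi : ∀ i, DifferentiableOn ℂ (fun q => f q i) (ball 0 1) := by
    intro i
    simp only [hfdef]
    exact DifferentiableOn.fun_finsetProd fun j _ => (hF j).pow _
  have hfB : ∀ i, ∀ q ∈ ball (0 : ℂ) 1, ‖f q i‖ ≤ max B 1 ^ D := by
    intro i q hq
    simp only [hfdef]
    rw [norm_prod]
    have h1 : ∏ j, ‖F j q ^ (kk i j)‖ ≤ ∏ j, max B 1 ^ (kk i j) := by
      refine Finset.prod_le_prod (fun _ _ => norm_nonneg _) fun j _ => ?_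
      rw [norm_pow]
      exact pow_le_pow_left₀ (norm_nonneg _) ((hB j q hq).trans (le_max_left _ _)) _
    refine h1.trans ?_
    rw [Finset.prod_pow_eq_pow_sum]
    refine pow_le_pow_right₀ hB1 ?_
    have h2 := (hS (kk i)).1 (E.symm i).2
    rw [Finsupp.degree_eq_sum] at h2
    exact h2
  refine cover_genK hfi hfB ?_ K ?_
  · intro c hc
    set G : MvPolynomial (Fin n) ℂ := ∑ i, monomial (kk i) (c i) with hG
    have hcoef : ∀ i, G.coeff (kk i) = c i := by
      intro i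
      rw [hG, coeff_sum, Finset.sum_eq_single i]
      · rw [coeff_monomial, if_pos rfl]
      · intro j _ hj
        rw [coeff_monomial, if_neg]
        exact fun h => hj (hkinj h)
      · intro hi
        exact absurd (Finset.mem_univ i) hi
    have hG0 : G ≠ 0 := by
      intro h0
      apply hc
      funext i
      rw [← hcoef i, h0, coeff_zero]
      rfl
    obtain ⟨q, hq, hne⟩ := hind G hG0
    refine ⟨q, hq, ?_⟩
    have h3 : eval (fun j => F j q) G = ∑ i, c i * f q i := by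
      rw [hG, map_sum]
      refine Finset.sum_congr rfl fun i _ => ?_
      rw [eval_monomial, Finsupp.prod_fintype _ _ (fun _ => pow_zero _)]
    rw [← h3]
    exact hne
  · intro H hH w hw hPtw
    obtain ⟨G, hG0, hGh, hGd, hGz⟩ := hPt H hH w hw hPtw
    have hsub : G.support ⊆ S := by
      intro k hk
      rw [hS, Finsupp.degree_eq_sum]
      have := le_totalDegree hk
      rw [Finsupp.sum_fintype _ _ (fun _ => rfl)] at this
      exact this.trans hGd
    refine ⟨fun i => G.coeff (kk i), ?_, fun i => (coeff_le_hgt G _).trans hGh, ?_⟩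
    · intro h0
      apply hG0
      ext k
      rw [coeff_zero]
      by_cases hk : k ∈ S
      · have h4 := congrFun h0 (E ⟨k, hk⟩)
        simpa [hkk] using h4
      · exact notMem_support_iff.1 fun h => hk (hsub h)
    · rw [aeval_def, eval₂_eq'] at hGz
      have h5 : ∑ k ∈ G.support, (algebraMap ℤ ℂ) (G.coeff k) * ∏ j, F j (Complex.exp w) ^ (k j) =
          ∑ k ∈ S, (algebraMap ℤ ℂ) (G.coeff k) * ∏ j, F j (Complex.exp w) ^ (k j) := by
        refine Finset.sum_subset hsub fun k _ hk => ?_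
        rw [notMem_support_iff.1 hk, map_zero, zero_mul]
      rw [h5, ← Finset.sum_coe_sort S] at hGz
      rw [← hGz, ← Equiv.sum_comp E]
      refine Finset.sum_congr rfl fun k _ => ?_
      simp only [hkk, hfdef, Equiv.symm_apply_apply]
      simp

/-! ### the functions of `q` -/

/-- `e o z a = e a z o - Yf e ψ o a` -/
noncomputable def Yf (e : Fin mm → ℕ) (ψ : Fin mm → ℂ → ℂ) (o a : Fin mm) (q : ℂ) : ℂ :=
  (e a : ℂ) * ψ o q - (e o : ℂ) * ψ a q

theorem cz_Yf (e : Fin mm → ℕ) (ψ : Fin mm → ℂ → ℂ) (o a : Fin mm) (w : ℂ) :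
    (e o : ℂ) * cz e ψ a w = (e a : ℂ) * cz e ψ o w - Yf e ψ o a (Complex.exp w) := by
  simp only [cz, Yf]
  ring

theorem Cusp.Yf_diff {e : Fin mm → ℕ} {ψ : Fin mm → ℂ → ℂ} (h : Cusp e ψ) (o a : Fin mm) :
    DifferentiableOn ℂ (Yf e ψ o a) (ball 0 1) :=
  ((h.an o).const_mul _).sub ((h.an a).const_mul _)

theorem Cusp.Yf_bd {e : Fin mm → ℕ} {ψ : Fin mm → ℂ → ℂ} (h : Cusp e ψ) (o : Fin mm) :
    ∃ B : ℝ, ∀ a, ∀ q ∈ ball (0 : ℂ) 1, ‖Yf e ψ o a q‖ ≤ B := by
  obtain ⟨C, hC⟩ := h.bd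
  have hC0 : 0 ≤ C := (norm_nonneg _).trans (hC o 0 (mem_ball_self one_pos))
  refine ⟨(∑ a, (e a : ℝ)) * C + (e o : ℝ) * C, fun a q hq => ?_⟩
  have h2 : (e a : ℝ) ≤ ∑ a, (e a : ℝ) :=
    Finset.single_le_sum (f := fun a => (e a : ℝ)) (fun _ _ => Nat.cast_nonneg _) (Finset.mem_univ a)
  unfold Yf
  refine (norm_sub_le _ _).trans (add_le_add ?_ ?_)
  · rw [norm_mul, Complex.norm_natCast]
    exact mul_le_mul h2 (hC o q hq) (norm_nonneg _) ((Nat.cast_nonneg _).trans h2)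
  · rw [norm_mul, Complex.norm_natCast]
    exact mul_le_mul_of_nonneg_left (hC a q hq) (Nat.cast_nonneg _)

theorem Cusp.ind_Y {e : Fin mm → ℕ} {ψ : Fin mm → ℂ → ℂ} (h : Cusp e ψ) {o : Fin mm} (ho : 0 < e o)
    (i : Fin n → Fin mm) (hi : Function.Injective i) (hio : ∀ j, i j ≠ o)
    (G : MvPolynomial (Fin n) ℂ) (hG : G ≠ 0) :
    ∃ q ∈ ball (0 : ℂ) 1, eval (fun j => Yf e ψ o (i j) q) G ≠ 0 := by
  classical
  have heo : (e o : ℂ) ≠ 0 := by exact_mod_cast ho.ne'
  set G' : MvPolynomial (Fin mm) ℂ :=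
    aeval (fun j => C (e (i j) : ℂ) * X o - C (e o : ℂ) * X (i j)) G with hG'
  have hev : ∀ x : Fin mm → ℂ, eval x G' =
      eval (fun j => (e (i j) : ℂ) * x o - (e o : ℂ) * x (i j)) G := by
    intro x
    rw [hG']
    induction G using MvPolynomial.induction_on with
    | C c => simp
    | add p q hp hq =>
      by_cases hp0 : p = 0
      · by_cases hq0 : q = 0
        · simp [hp0, hq0]
        · simp only [map_add]
          rw [hq hq0 rfl]
          simp [hp0]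
      · by_cases hq0 : q = 0
        · simp only [map_add]
          rw [hp hp0 rfl]
          simp [hq0]
        · simp only [map_add]
          rw [hp hp0 rfl, hq hq0 rfl]
    | mul_X p j hp =>
      have hp0 : p ≠ 0 := by
        rintro rfl
        exact hG (zero_mul _)
      simp only [map_mul]
      rw [hp hp0 rfl]
      simp
  have hG'0 : G' ≠ 0 := by
    intro h0
    apply hG
    refine MvPolynomial.funext fun y => ?_
    rw [map_zero]
    have h1 := hev (Function.extend i (fun j => -y j / (e o : ℂ)) 0)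
    rw [h0, map_zero] at h1
    have h2 : Function.extend i (fun j => -y j / (e o : ℂ)) 0 o = 0 := by
      rw [Function.extend_apply']
      · rfl
      · rintro ⟨j, hj⟩
        exact hio j hj
    have h3 : (fun j => (e (i j) : ℂ) * Function.extend i (fun j => -y j / (e o : ℂ)) 0 o -
        (e o : ℂ) * Function.extend i (fun j => -y j / (e o : ℂ)) 0 (i j)) = y := by
      funext j
      rw [h2, hi.extend_apply]
      field_simp
      ring
    rw [h3] at h1
    exact h1.symm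
  obtain ⟨w, hw, hne⟩ := h.ind G' hG'0
  refine ⟨Complex.exp w, ?_, ?_⟩
  · rw [mem_ball_zero_iff, Complex.norm_exp, Real.exp_lt_one_iff]
    exact hw
  · rw [hev] at hne
    have h4 : (fun j => (e (i j) : ℂ) * cz e ψ o w - (e o : ℂ) * cz e ψ (i j) w) =
        fun j => Yf e ψ o (i j) (Complex.exp w) := by
      funext j
      simp only [cz, Yf]
      ring
    rw [h4] at hne
    exact hne

end Pool.Agent.LGO.PWG
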