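import Mathlib
import Pool.Agent.LGO.PWG.CoverG

/-!
# LGO/PWG: the four types of special points at a cusp with common poles

See `CoverG.lean`.  `pI`: the relation `z a = g (z o)`; `pI2`: the relation `z b = g (z a)`; `pQ0`: the
coordinate `o` is quadratic; `pQ`: the coordinate `a` is quadratic; all multiplied by powers of `e o` and written
as polynomials in `Z = z o` and the functions `Y`.  `nv1`, `nv2`, `nv3`, `nv4`: the eliminants are not `0`.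
-/

namespace Pool.Agent.LGO.PWG

open MvPolynomial Metric Pool.Agent.LGO.PW

variable {mm n : ℕ}

/-- the relation `z a = g (z o)` -/
noncomputable def pI (ea eo : ℤ) (g : Matrix (Fin 2) (Fin 2) ℤ) (j : Fin n) :
    Fin 3 → MvPolynomial (Fin n) ℤ :=
  ![-(C (g 1 1) * X j + C eo * C (g 0 1)),
    C ea * C (g 1 1) - C eo * C (g 0 0) - C (g 1 0) * X j,
    C ea * C (g 1 0)]

/-- the relation `z b = g (z a)` -/
noncomputable def pI2 (ea eb eo : ℤ) (g : Matrix (Fin 2) (Fin 2) ℤ) (j k : Fin n) :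
    Fin 3 → MvPolynomial (Fin n) ℤ :=
  ![C (g 1 0) * X j * X k - C eo * C (g 1 1) * X k + C eo * C (g 0 0) * X j - C eo * C eo * C (g 0 1),
    C eo * (C eb * C (g 1 1) - C ea * C (g 0 0)) - C (g 1 0) * (C eb * X j + C ea * X k),
    C (g 1 0) * C ea * C eb]

/-- the coordinate `o` is quadratic -/
noncomputable def pQ0 (q : Fin 3 → ℤ) : Fin 3 → MvPolynomial (Fin n) ℤ := ![C (q 2), C (q 1), C (q 0)]

/-- the coordinate `a` is quadratic -/
noncomputable def pQ (ea eo : ℤ) (q : Fin 3 → ℤ) (j : Fin n) : Fin 3 → MvPolynomial (Fin n) ℤ :=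
  ![C (q 0) * X j ^ 2 - C eo * C (q 1) * X j + C eo * C eo * C (q 2),
    C eo * C ea * C (q 1) - (C (q 0) * C ea * X j + C (q 0) * C ea * X j),
    C (q 0) * C ea * C ea]

section UB

variable {ι : Type*} {M : ι → ℝ}

theorem pI_UB (hM : ∀ x, 2 ≤ M x) {ea eo : ℤ} (ha : ∀ x, |(ea : ℝ)| ≤ M x) (ho : ∀ x, |(eo : ℝ)| ≤ M x)
    {g : ι → Matrix (Fin 2) (Fin 2) ℤ} (hg : ∀ x i j, |(g x i j : ℝ)| ≤ M x) (j : Fin n) (k : Fin 3) :
    UB M (fun x => pI ea eo (g x) j k) := by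
  have h (i l) : UB M (fun x => (C (g x i l) : MvPolynomial (Fin n) ℤ)) := UB.int fun x => hg x i l
  have h1 : UB M (fun _ => (C ea : MvPolynomial (Fin n) ℤ)) := UB.int ha
  have h2 : UB M (fun _ => (C eo : MvPolynomial (Fin n) ℤ)) := UB.int ho
  fin_cases k
  · exact (((h 1 1).mul (UB.var j)).add hM (h2.mul (h 0 1))).neg
  · exact ((h1.mul (h 1 1)).sub hM (h2.mul (h 0 0))).sub hM ((h 1 0).mul (UB.var j))
  · exact h1.mul (h 1 0)

theorem pI2_UB (hM : ∀ x, 2 ≤ M x) {ea eb eo : ℤ} (ha : ∀ x, |(ea : ℝ)| ≤ M x)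
    (hb : ∀ x, |(eb : ℝ)| ≤ M x) (ho : ∀ x, |(eo : ℝ)| ≤ M x)
    {g : ι → Matrix (Fin 2) (Fin 2) ℤ} (hg : ∀ x i j, |(g x i j : ℝ)| ≤ M x) (j l : Fin n) (k : Fin 3) :
    UB M (fun x => pI2 ea eb eo (g x) j l k) := by
  have h (i l) : UB M (fun x => (C (g x i l) : MvPolynomial (Fin n) ℤ)) := UB.int fun x => hg x i l
  have h1 : UB M (fun _ => (C ea : MvPolynomial (Fin n) ℤ)) := UB.int ha
  have h3 : UB M (fun _ => (C eb : MvPolynomial (Fin n) ℤ)) := UB.int hb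
  have h2 : UB M (fun _ => (C eo : MvPolynomial (Fin n) ℤ)) := UB.int ho
  fin_cases k
  · exact (((((h 1 0).mul (UB.var j)).mul (UB.var l)).sub hM ((h2.mul (h 1 1)).mul (UB.var l))).add hM
      ((h2.mul (h 0 0)).mul (UB.var j))).sub hM ((h2.mul h2).mul (h 0 1))
  · exact (h2.mul ((h3.mul (h 1 1)).sub hM (h1.mul (h 0 0)))).sub hM
      ((h 1 0).mul ((h3.mul (UB.var j)).add hM (h1.mul (UB.var l))))
  · exact ((h 1 0).mul h1).mul h3

theorem pQ0_UB {q : ι → Fin 3 → ℤ} (hq : ∀ x i, |(q x i : ℝ)| ≤ M x) (k : Fin 3) :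
    UB M (fun x => (pQ0 (q x) k : MvPolynomial (Fin n) ℤ)) := by
  have h (i) : UB M (fun x => (C (q x i) : MvPolynomial (Fin n) ℤ)) := UB.int fun x => hq x i
  fin_cases k
  · exact h 2
  · exact h 1
  · exact h 0

theorem pQ_UB (hM : ∀ x, 2 ≤ M x) {ea eo : ℤ} (ha : ∀ x, |(ea : ℝ)| ≤ M x) (ho : ∀ x, |(eo : ℝ)| ≤ M x)
    {q : ι → Fin 3 → ℤ} (hq : ∀ x i, |(q x i : ℝ)| ≤ M x) (j : Fin n) (k : Fin 3) :
    UB M (fun x => pQ ea eo (q x) j k) := by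
  have h (i) : UB M (fun x => (C (q x i) : MvPolynomial (Fin n) ℤ)) := UB.int fun x => hq x i
  have h1 : UB M (fun _ => (C ea : MvPolynomial (Fin n) ℤ)) := UB.int ha
  have h2 : UB M (fun _ => (C eo : MvPolynomial (Fin n) ℤ)) := UB.int ho
  fin_cases k
  · exact (((h 0).mul (UB.var j).sqr).sub hM ((h2.mul (h 1)).mul (UB.var j))).add hM
      ((h2.mul h2).mul (h 2))
  · exact ((h2.mul h1).mul (h 1)).sub hM
      ((((h 0).mul h1).mul (UB.var j)).add hM (((h 0).mul h1).mul (UB.var j)))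
  · exact ((h 0).mul h1).mul h1

end UB

private theorem CoverH_ne {a : MvPolynomial (Fin n) ℤ} (h : a ≠ 0) : ∃ y, eval y a ≠ 0 := by
  by_contra hc
  push Not at hc
  exact h (MvPolynomial.funext fun y => by rw [hc y, map_zero])

/-- two linear polynomials in `u` -/
private theorem CoverH_lin {k c m r : ℤ} (h : ∀ u : ℤ, (k - c * u) * (m + r * u) = 0)
    (hkc : ¬ (k = 0 ∧ c = 0)) : m = 0 ∧ r = 0 := by
  have h0 := h 0
  have h1 := h 1
  have h2 := h (-1)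
  have e0 : k * m = 0 := by linear_combination h0
  have e1 : c * r = 0 := by
    have : 2 * (c * r) = 0 := by linear_combination 2 * h0 - h1 - h2
    simpa using this
  have e2 : k * r = c * m := by
    have : 2 * (k * r - c * m) = 0 := by linear_combination h1 - h2
    have := (mul_eq_zero.1 this).resolve_left (by norm_num)
    linarith
  by_cases hk : k = 0
  · have hc : c ≠ 0 := fun hc => hkc ⟨hk, hc⟩
    have hr : r = 0 := (mul_eq_zero.1 e1).resolve_left hc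
    refine ⟨?_, hr⟩
    rw [hk, zero_mul] at e2
    exact (mul_eq_zero.1 e2.symm).resolve_left hc
  · have hm : m = 0 := (mul_eq_zero.1 e0).resolve_left hk
    refine ⟨hm, ?_⟩
    rw [hm, mul_zero] at e2
    exact (mul_eq_zero.1 e2).resolve_left hk

/-- the first relation: the case `a 2 = a 1 = 0` -/
private theorem CoverH_pI0 {ea eo : ℤ} {g : Matrix (Fin 2) (Fin 2) ℤ} (hg : g.det ≠ 0)
    {j : Fin n} (h1 : (pI ea eo g j 1 : MvPolynomial (Fin n) ℤ) = 0) : pI ea eo g j 0 ≠ 0 := by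
  intro h0
  rw [Matrix.det_fin_two] at hg
  have e1 : ∀ u : ℤ, ea * g 1 1 - eo * g 0 0 - g 1 0 * u = 0 := by
    intro u
    have := congrArg (eval (fun _ => u)) h1
    simpa [pI] using this
  have e0 : ∀ u : ℤ, g 1 1 * u + eo * g 0 1 = 0 := by
    intro u
    have := congrArg (eval (fun _ => u)) h0
    have h3 : -(g 1 1 * u + eo * g 0 1) = 0 := by simpa [pI] using this
    linarith
  have hC : g 1 0 = 0 := by linear_combination e1 0 - e1 1
  have hD : g 1 1 = 0 := by linear_combination e0 1 - e0 0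
  exact hg (by rw [hC, hD]; ring)

private theorem CoverH_pI1 {ea eo : ℤ} {g : Matrix (Fin 2) (Fin 2) ℤ}
    {j : Fin n} (h1 : (pI ea eo g j 1 : MvPolynomial (Fin n) ℤ) ≠ 0) :
    ¬ (ea * g 1 1 - eo * g 0 0 = 0 ∧ g 1 0 = 0) := by
  rintro ⟨h2, h3⟩
  apply h1
  have h4 : (C ea * C (g 1 1) - C eo * C (g 0 0) : MvPolynomial (Fin n) ℤ) = 0 := by
    rw [← C_mul, ← C_mul, ← C_sub, h2, C_0]
  show C ea * C (g 1 1) - C eo * C (g 0 0) - C (g 1 0) * X j = 0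
  rw [h4, h3, C_0]
  ring

/-- type 1 -/
theorem nv1 {ea eb eo : ℤ} (heo : eo ≠ 0) {g g' : Matrix (Fin 2) (Fin 2) ℤ} (hg : g.det ≠ 0)
    (hg' : g'.det ≠ 0) :
    elim (pI ea eo g 0) (pI eb eo g' 1 : Fin 3 → MvPolynomial (Fin 2) ℤ) ≠ 0 := by
  classical
  intro hz
  unfold elim at hz
  split_ifs at hz with h1 h2
  · have ha : ea * g 1 0 ≠ 0 := by
      intro h0
      apply h1
      show (C ea * C (g 1 0) : MvPolynomial (Fin 2) ℤ) = 0
      rw [← C_mul, h0, C_0]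
    have hea : ea ≠ 0 := fun h => ha (by rw [h, zero_mul])
    have hC : g 1 0 ≠ 0 := fun h => ha (by rw [h, mul_zero])
    rw [Matrix.det_fin_two] at hg hg'
    have hf : ∀ u v : ℤ,
        (ea * g 1 0 * -(g' 1 1 * v + eo * g' 0 1) - -(g 1 1 * u + eo * g 0 1) * (eb * g' 1 0)) ^ 2 -
        (ea * g 1 0 * (eb * g' 1 1 - eo * g' 0 0 - g' 1 0 * v) -
          (ea * g 1 1 - eo * g 0 0 - g 1 0 * u) * (eb * g' 1 0)) *
        ((ea * g 1 1 - eo * g 0 0 - g 1 0 * u) * -(g' 1 1 * v + eo * g' 0 1) -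
          -(g 1 1 * u + eo * g 0 1) * (eb * g' 1 1 - eo * g' 0 0 - g' 1 0 * v)) = 0 := by
      intro u v
      have := congrArg (eval ![u, v]) hz
      simpa [pI] using this
    have hc : ∀ u : ℤ, ea * g 1 0 * (g' 1 1) ^ 2 -
        (ea * g 1 1 - eo * g 0 0 - g 1 0 * u) * (g' 1 0 * g' 1 1) -
        (g 1 1 * u + eo * g 0 1) * (g' 1 0) ^ 2 = 0 := by
      intro u
      have h3 : 2 * (ea * g 1 0) * (ea * g 1 0 * (g' 1 1) ^ 2 -
        (ea * g 1 1 - eo * g 0 0 - g 1 0 * u) * (g' 1 0 * g' 1 1) -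
        (g 1 1 * u + eo * g 0 1) * (g' 1 0) ^ 2) = 0 := by
        linear_combination hf u 1 + hf u (-1) - 2 * hf u 0
      exact (mul_eq_zero.1 h3).resolve_left (mul_ne_zero (by norm_num) ha)
    have e1 : g' 1 0 * (g 1 0 * g' 1 1 - g 1 1 * g' 1 0) = 0 := by
      linear_combination hc 1 - hc 0
    have e0 := hc 0
    by_cases hC' : g' 1 0 = 0
    · have hD' : g' 1 1 ≠ 0 := by
        intro h
        exact hg' (by rw [hC', h]; ring)
      rw [hC'] at e0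
      have : ea * g 1 0 * (g' 1 1) ^ 2 = 0 := by linear_combination e0
      exact mul_ne_zero ha (pow_ne_zero 2 hD') this
    · have e2 := (mul_eq_zero.1 e1).resolve_left hC'
      have : (g' 1 0) ^ 2 * g 1 0 * eo * (g 0 0 * g 1 1 - g 0 1 * g 1 0) = 0 := by
        linear_combination (g 1 0) ^ 2 * e0 -
          (ea * g 1 0 * (g 1 0 * g' 1 1 + g 1 1 * g' 1 0) - (ea * g 1 1 - eo * g 0 0) * g 1 0 * g' 1 0) * e2
      exact mul_ne_zero (mul_ne_zero (mul_ne_zero (pow_ne_zero 2 hC') hC) heo) hg this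
  · rw [not_not] at h1
    have ha : ea * g 1 0 = 0 := by
      have := congrArg (eval 0) h1
      simpa [pI] using this
    have hk := CoverH_pI1 h2
    rw [Matrix.det_fin_two] at hg hg'
    have hf : ∀ u v : ℤ,
        (ea * g 1 1 - eo * g 0 0 - g 1 0 * u) ^ 2 * -(g' 1 1 * v + eo * g' 0 1) -
        -(g 1 1 * u + eo * g 0 1) * (ea * g 1 1 - eo * g 0 0 - g 1 0 * u) *
          (eb * g' 1 1 - eo * g' 0 0 - g' 1 0 * v) +
        (-(g 1 1 * u + eo * g 0 1)) ^ 2 * (eb * g' 1 0) = 0 := by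
      intro u v
      have := congrArg (eval ![u, v]) hz
      simpa [pI] using this
    obtain ⟨hm, hr⟩ := CoverH_lin (k := ea * g 1 1 - eo * g 0 0) (c := g 1 0)
      (m := (ea * g 1 1 - eo * g 0 0) * g' 1 1 + eo * g 0 1 * g' 1 0)
      (r := g 1 1 * g' 1 0 - g 1 0 * g' 1 1) (by
        intro u
        linear_combination hf u 0 - hf u 1) hk
    by_cases hC : g 1 0 = 0
    · have hD : g 1 1 ≠ 0 := by
        intro h
        exact hg (by rw [hC, h]; ring)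
      have hC' : g' 1 0 = 0 := by
        rw [hC] at hr
        have : g 1 1 * g' 1 0 = 0 := by linear_combination hr
        exact (mul_eq_zero.1 this).resolve_left hD
      have hD' : g' 1 1 ≠ 0 := by
        intro h
        exact hg' (by rw [hC', h]; ring)
      rw [hC'] at hm
      have : (ea * g 1 1 - eo * g 0 0) * g' 1 1 = 0 := by linear_combination hm
      exact hk ⟨(mul_eq_zero.1 this).resolve_right hD', hC⟩
    · have hea : ea = 0 := (mul_eq_zero.1 ha).resolve_right hC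
      rw [hea] at hm
      have : g' 1 0 * (eo * (g 0 0 * g 1 1 - g 0 1 * g 1 0)) = 0 := by
        linear_combination -(g 1 0) * hm + (-(eo * g 0 0)) * hr * (-1)
      have hC' : g' 1 0 = 0 := (mul_eq_zero.1 this).resolve_right (mul_ne_zero heo hg)
      rw [hC'] at hr
      have h5 : g 1 0 * g' 1 1 = 0 := by linear_combination -hr
      have hD' := (mul_eq_zero.1 h5).resolve_left hC
      exact hg' (by rw [hC', hD']; ring)
  · rw [not_not] at h2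
    exact CoverH_pI0 hg h2 hz

/-- type 2 -/
theorem nv2 {e1 e2 e3 eo : ℤ} (heo : eo ≠ 0) {g g' : Matrix (Fin 2) (Fin 2) ℤ} (hg : g.det ≠ 0)
    (hg' : g'.det ≠ 0) :
    elim (pI e1 eo g 0) (pI2 e2 e3 eo g' 1 2 : Fin 3 → MvPolynomial (Fin 3) ℤ) ≠ 0 := by
  classical
  intro hz
  unfold elim at hz
  split_ifs at hz with h1 h2
  · have ha : e1 * g 1 0 ≠ 0 := by
      intro h0
      apply h1
      show (C e1 * C (g 1 0) : MvPolynomial (Fin 3) ℤ) = 0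
      rw [← C_mul, h0, C_0]
    rw [Matrix.det_fin_two] at hg hg'
    have hf : ∀ v s : ℤ,
        (e1 * g 1 0 * (g' 1 0 * v * s - eo * g' 1 1 * s + eo * g' 0 0 * v - eo * eo * g' 0 1) +
          eo * g 0 1 * (g' 1 0 * e2 * e3)) ^ 2 -
        (e1 * g 1 0 * (eo * (e3 * g' 1 1 - e2 * g' 0 0) - g' 1 0 * (e3 * v + e2 * s)) -
          (e1 * g 1 1 - eo * g 0 0) * (g' 1 0 * e2 * e3)) *
        ((e1 * g 1 1 - eo * g 0 0) *
            (g' 1 0 * v * s - eo * g' 1 1 * s + eo * g' 0 0 * v - eo * eo * g' 0 1) +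
          eo * g 0 1 * (eo * (e3 * g' 1 1 - e2 * g' 0 0) - g' 1 0 * (e3 * v + e2 * s))) = 0 := by
      intro v s
      have := congrArg (eval ![0, v, s]) hz
      simp [pI, pI2] at this
      linear_combination this
    by_cases hC' : g' 1 0 = 0
    · have hA' : g' 0 0 ≠ 0 := by
        intro h
        exact hg' (by rw [hC', h]; ring)
      rw [hC'] at hf
      have : 2 * (e1 * g 1 0 * (eo * g' 0 0)) ^ 2 = 0 := by
        linear_combination hf 1 0 + hf (-1) 0 - 2 * hf 0 0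
      exact pow_ne_zero 2 (mul_ne_zero ha (mul_ne_zero heo hA'))
        ((mul_eq_zero.1 this).resolve_left (by norm_num))
    · have : 4 * (e1 * g 1 0 * g' 1 0) ^ 2 = 0 := by
        linear_combination (hf 1 1 + hf (-1) 1 - 2 * hf 0 1) + (hf 1 (-1) + hf (-1) (-1) - 2 * hf 0 (-1)) -
          2 * (hf 1 0 + hf (-1) 0 - 2 * hf 0 0)
      exact pow_ne_zero 2 (mul_ne_zero ha hC') ((mul_eq_zero.1 this).resolve_left (by norm_num))
  · rw [not_not] at h1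
    obtain ⟨y, hy⟩ := CoverH_ne h2
    have hy' : e1 * g 1 1 - eo * g 0 0 - g 1 0 * y 0 ≠ 0 := by simpa [pI] using hy
    rw [Matrix.det_fin_two] at hg hg'
    have hf : ∀ v s : ℤ,
        (e1 * g 1 1 - eo * g 0 0 - g 1 0 * y 0) ^ 2 *
          (g' 1 0 * v * s - eo * g' 1 1 * s + eo * g' 0 0 * v - eo * eo * g' 0 1) +
        (g 1 1 * y 0 + eo * g 0 1) * (e1 * g 1 1 - eo * g 0 0 - g 1 0 * y 0) *
          (eo * (e3 * g' 1 1 - e2 * g' 0 0) - g' 1 0 * (e3 * v + e2 * s)) +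
        (g 1 1 * y 0 + eo * g 0 1) ^ 2 * (g' 1 0 * e2 * e3) = 0 := by
      intro v s
      have := congrArg (eval ![y 0, v, s]) hz
      simp [pI, pI2] at this
      linear_combination this
    by_cases hC' : g' 1 0 = 0
    · have hA' : g' 0 0 ≠ 0 := by
        intro h
        exact hg' (by rw [hC', h]; ring)
      rw [hC'] at hf
      have : (e1 * g 1 1 - eo * g 0 0 - g 1 0 * y 0) ^ 2 * (eo * g' 0 0) = 0 := by
        linear_combination hf 1 0 - hf 0 0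
      exact mul_ne_zero (pow_ne_zero 2 hy') (mul_ne_zero heo hA') this
    · have : (e1 * g 1 1 - eo * g 0 0 - g 1 0 * y 0) ^ 2 * g' 1 0 = 0 := by
        linear_combination hf 1 1 - hf 1 0 - hf 0 1 + hf 0 0
      exact mul_ne_zero (pow_ne_zero 2 hy') hC' this
  · rw [not_not] at h2
    exact CoverH_pI0 hg h2 hz

private theorem CoverH_q0 {q : Fin 3 → ℤ} (hq : q 0 ≠ 0) : (pQ0 q 2 : MvPolynomial (Fin n) ℤ) ≠ 0 := by
  show (C (q 0) : MvPolynomial (Fin n) ℤ) ≠ 0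
  exact C_ne_zero.2 hq

/-- type 3 -/
theorem nv3 {e0 e1 eo : ℤ} (heo : eo ≠ 0) {g : Matrix (Fin 2) (Fin 2) ℤ} (hg : g.det ≠ 0)
    {q : Fin 3 → ℤ} (hq : q 0 ≠ 0) :
    elim (pQ0 q) (pI2 e0 e1 eo g 0 1 : Fin 3 → MvPolynomial (Fin 2) ℤ) ≠ 0 := by
  classical
  intro hz
  unfold elim at hz
  rw [if_pos (CoverH_q0 hq)] at hz
  rw [Matrix.det_fin_two] at hg
  have hf : ∀ v s : ℤ,
      (q 0 * (g 1 0 * v * s - eo * g 1 1 * s + eo * g 0 0 * v - eo * eo * g 0 1) -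
        q 2 * (g 1 0 * e0 * e1)) ^ 2 -
      (q 0 * (eo * (e1 * g 1 1 - e0 * g 0 0) - g 1 0 * (e1 * v + e0 * s)) -
        q 1 * (g 1 0 * e0 * e1)) *
      (q 1 * (g 1 0 * v * s - eo * g 1 1 * s + eo * g 0 0 * v - eo * eo * g 0 1) -
        q 2 * (eo * (e1 * g 1 1 - e0 * g 0 0) - g 1 0 * (e1 * v + e0 * s))) = 0 := by
    intro v s
    have := congrArg (eval ![v, s]) hz
    simp [pQ0, pI2] at this
    linear_combination this
  by_cases hC' : g 1 0 = 0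
  · have hA' : g 0 0 ≠ 0 := by
      intro h
      exact hg (by rw [hC', h]; ring)
    rw [hC'] at hf
    have : 2 * (q 0 * (eo * g 0 0)) ^ 2 = 0 := by
      linear_combination hf 1 0 + hf (-1) 0 - 2 * hf 0 0
    exact pow_ne_zero 2 (mul_ne_zero hq (mul_ne_zero heo hA'))
      ((mul_eq_zero.1 this).resolve_left (by norm_num))
  · have : 4 * (q 0 * g 1 0) ^ 2 = 0 := by
      linear_combination (hf 1 1 + hf (-1) 1 - 2 * hf 0 1) + (hf 1 (-1) + hf (-1) (-1) - 2 * hf 0 (-1)) -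
        2 * (hf 1 0 + hf (-1) 0 - 2 * hf 0 0)
    exact pow_ne_zero 2 (mul_ne_zero hq hC') ((mul_eq_zero.1 this).resolve_left (by norm_num))

/-- type 4 -/
theorem nv4 {e1 eo : ℤ} {q p : Fin 3 → ℤ} (hq : q 0 ≠ 0) (hp : p 0 ≠ 0) :
    elim (pQ0 q) (pQ e1 eo p 0 : Fin 3 → MvPolynomial (Fin 1) ℤ) ≠ 0 := by
  classical
  intro hz
  unfold elim at hz
  rw [if_pos (CoverH_q0 hq)] at hz
  have hf : ∀ v : ℤ,
      (q 0 * (p 0 * v ^ 2 - eo * p 1 * v + eo * eo * p 2) - q 2 * (p 0 * e1 * e1)) ^ 2 -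
      (q 0 * (eo * e1 * p 1 - (p 0 * e1 * v + p 0 * e1 * v)) - q 1 * (p 0 * e1 * e1)) *
      (q 1 * (p 0 * v ^ 2 - eo * p 1 * v + eo * eo * p 2) -
        q 2 * (eo * e1 * p 1 - (p 0 * e1 * v + p 0 * e1 * v))) = 0 := by
    intro v
    have := congrArg (eval ![v]) hz
    simp [pQ0, pQ] at this
    linear_combination this
  have : 24 * (q 0 * p 0) ^ 2 = 0 := by
    linear_combination hf 2 - 4 * hf 1 + 6 * hf 0 - 4 * hf (-1) + hf (-2)
  exact pow_ne_zero 2 (mul_ne_zero hq hp) ((mul_eq_zero.1 this).resolve_left (by norm_num))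

/-- two relations, elimination of the infinite coordinate `o` -/
theorem Cusp.cov_fam {e : Fin mm → ℕ} {ψ : Fin mm → ℂ → ℂ} (h : Cusp e ψ) {o : Fin mm} (ho : 0 < e o)
    (i : Fin n → Fin mm) (hi : Function.Injective i) (hio : ∀ j, i j ≠ o) {ι : Type*} (Hf : ι → ℝ)
    (hH : ∀ x, 2 ≤ Hf x) (E : ℕ) (a b : Fin 3 → ι → MvPolynomial (Fin n) ℤ)
    (ha : ∀ k, UB (fun x => ((E + 1 : ℕ) : ℝ) * Hf x) (a k))
    (hb : ∀ k, UB (fun x => ((E + 1 : ℕ) : ℝ) * Hf x) (b k))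
    (hne : ∀ x, elim (fun k => a k x) (fun k => b k x) ≠ 0) {Pt : ℝ → ℂ → Prop}
    (hPt : ∀ H : ℝ, 2 ≤ H → ∀ w ∈ CD, Pt H w → ∃ x : ι, Hf x = H ∧
      aeval (fun j => Yf e ψ o (i j) (Complex.exp w)) (a 2 x) * cz e ψ o w ^ 2 +
        aeval (fun j => Yf e ψ o (i j) (Complex.exp w)) (a 1 x) * cz e ψ o w +
        aeval (fun j => Yf e ψ o (i j) (Complex.exp w)) (a 0 x) = 0 ∧
      aeval (fun j => Yf e ψ o (i j) (Complex.exp w)) (b 2 x) * cz e ψ o w ^ 2 +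
        aeval (fun j => Yf e ψ o (i j) (Complex.exp w)) (b 1 x) * cz e ψ o w +
        aeval (fun j => Yf e ψ o (i j) (Complex.exp w)) (b 0 x) = 0) : Cov Pt := by
  have hM : ∀ x, (2 : ℝ) ≤ ((E + 1 : ℕ) : ℝ) * Hf x := by
    intro x
    have h1 : (1 : ℝ) ≤ ((E + 1 : ℕ) : ℝ) := by exact_mod_cast Nat.le_add_left 1 E
    have := hH x
    nlinarith
  obtain ⟨K, D, hKD⟩ := elim_UB hM ha hb
  obtain ⟨B, hB⟩ := h.Yf_bd o
  refine cover_poly (F := fun j => Yf e ψ o (i j)) (fun j => h.Yf_diff o (i j)) (fun j => hB (i j))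
    (h.ind_Y ho i hi hio) ((E + 2) * K) D ?_
  intro H hH2 w hw hP
  obtain ⟨x, hx, h1, h2⟩ := hPt H hH2 w hw hP
  refine ⟨elim (fun k => a k x) (fun k => b k x), hne x, ?_, (hKD x).2, elim_zero h1 h2⟩
  refine (hKD x).1.trans ?_
  show (((E + 1 : ℕ) : ℝ) * Hf x) ^ K ≤ H ^ ((E + 2) * K)
  rw [hx, pow_mul]
  have hH0 : 0 ≤ H := by linarith
  refine pow_le_pow_left₀ (by positivity) ?_ K
  have h3 : ((E + 1 : ℕ) : ℝ) ≤ 2 ^ (E + 1) := by exact_mod_cast Nat.lt_two_pow_self.le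
  have h4 : (2 : ℝ) ^ (E + 1) ≤ H ^ (E + 1) := pow_le_pow_left₀ (by norm_num) hH2 _
  calc ((E + 1 : ℕ) : ℝ) * H ≤ H ^ (E + 1) * H := mul_le_mul_of_nonneg_right (h3.trans h4) hH0
    _ = H ^ (E + 2) := by rw [← pow_succ]

private theorem CoverH_e {e : Fin mm → ℕ} (a : Fin mm) {H : ℝ} (hH : 2 ≤ H) :
    |(((e a : ℕ) : ℤ) : ℝ)| ≤ ((∑ b, e b + 1 : ℕ) : ℝ) * H := by
  have h1 : e a ≤ ∑ b, e b + 1 :=
    (Finset.single_le_sum (f := fun b => e b) (fun _ _ => Nat.zero_le _) (Finset.mem_univ a)).trans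
      (Nat.le_succ _)
  have h2 : (e a : ℝ) ≤ ((∑ b, e b + 1 : ℕ) : ℝ) := by exact_mod_cast h1
  rw [Int.cast_natCast, Nat.abs_cast]
  have h3 : (0 : ℝ) ≤ ((∑ b, e b + 1 : ℕ) : ℝ) := Nat.cast_nonneg _
  nlinarith

private theorem CoverH_H (E : ℕ) {H : ℝ} (hH : 2 ≤ H) : H ≤ ((E + 1 : ℕ) : ℝ) * H := by
  have h1 : (1 : ℝ) ≤ ((E + 1 : ℕ) : ℝ) := by exact_mod_cast Nat.le_add_left 1 E
  nlinarith

/-- `pI` at a point -/
theorem pI_eval {e : Fin mm → ℕ} {ψ : Fin mm → ℂ → ℂ} {o a : Fin mm} {g : Matrix (Fin 2) (Fin 2) ℤ} {w : ℂ}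
    (hm : Maps g (cz e ψ o w) (cz e ψ a w)) {y : Fin n → ℂ} {j : Fin n}
    (hy : y j = Yf e ψ o a (Complex.exp w)) :
    aeval y (pI (e a) (e o) g j 2) * cz e ψ o w ^ 2 + aeval y (pI (e a) (e o) g j 1) * cz e ψ o w +
      aeval y (pI (e a) (e o) g j 0) = 0 := by
  unfold Maps at hm
  have h1 := cz_Yf e ψ o a w
  rw [← hy] at h1
  simp only [pI, Matrix.cons_val_zero, Matrix.cons_val_one, Matrix.cons_val, map_neg, map_add, map_sub,
    map_mul, aeval_C, aeval_X]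
  simp only [eq_intCast, Int.cast_natCast]
  linear_combination (e o : ℂ) * hm -
    ((g 1 0 : ℂ) * cz e ψ o w + (g 1 1 : ℂ)) * h1

/-- `pI2` at a point -/
theorem pI2_eval {e : Fin mm → ℕ} {ψ : Fin mm → ℂ → ℂ} {o a b : Fin mm} {g : Matrix (Fin 2) (Fin 2) ℤ}
    {w : ℂ} (hm : Maps g (cz e ψ a w) (cz e ψ b w)) {y : Fin n → ℂ} {j k : Fin n}
    (hy : y j = Yf e ψ o a (Complex.exp w)) (hy' : y k = Yf e ψ o b (Complex.exp w)) :
    aeval y (pI2 (e a) (e b) (e o) g j k 2) * cz e ψ o w ^ 2 +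
      aeval y (pI2 (e a) (e b) (e o) g j k 1) * cz e ψ o w +
      aeval y (pI2 (e a) (e b) (e o) g j k 0) = 0 := by
  unfold Maps at hm
  have h1 := cz_Yf e ψ o a w
  have h2 := cz_Yf e ψ o b w
  rw [← hy] at h1
  rw [← hy'] at h2
  simp only [pI2, Matrix.cons_val_zero, Matrix.cons_val_one, Matrix.cons_val, map_add, map_sub,
    map_mul, aeval_C, aeval_X]
  simp only [eq_intCast, Int.cast_natCast]
  linear_combination (e o : ℂ) * (e o : ℂ) * hm -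
    ((g 1 0 : ℂ) * ((e b : ℂ) * cz e ψ o w - y k) - (e o : ℂ) * (g 0 0 : ℂ)) * h1 -
    ((g 1 0 : ℂ) * ((e o : ℂ) * cz e ψ a w) + (e o : ℂ) * (g 1 1 : ℂ)) * h2

/-- `pQ0` at a point -/
theorem pQ0_eval {q : Fin 3 → ℤ} {x : ℂ} (hq : (q 0 : ℂ) * x ^ 2 + (q 1 : ℂ) * x + (q 2 : ℂ) = 0)
    {y : Fin n → ℂ} : aeval y (pQ0 q 2 : MvPolynomial (Fin n) ℤ) * x ^ 2 +
      aeval y (pQ0 q 1 : MvPolynomial (Fin n) ℤ) * x + aeval y (pQ0 q 0 : MvPolynomial (Fin n) ℤ) = 0 := by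
  simp only [pQ0, Matrix.cons_val_zero, Matrix.cons_val_one, Matrix.cons_val, aeval_C]
  simp only [eq_intCast]
  exact hq

/-- `pQ` at a point -/
theorem pQ_eval {e : Fin mm → ℕ} {ψ : Fin mm → ℂ → ℂ} {o a : Fin mm} {q : Fin 3 → ℤ} {w : ℂ}
    (hq : (q 0 : ℂ) * cz e ψ a w ^ 2 + (q 1 : ℂ) * cz e ψ a w + (q 2 : ℂ) = 0) {y : Fin n → ℂ} {j : Fin n}
    (hy : y j = Yf e ψ o a (Complex.exp w)) :
    aeval y (pQ (e a) (e o) q j 2) * cz e ψ o w ^ 2 + aeval y (pQ (e a) (e o) q j 1) * cz e ψ o w +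
      aeval y (pQ (e a) (e o) q j 0) = 0 := by
  have h1 := cz_Yf e ψ o a w
  rw [← hy] at h1
  simp only [pQ, Matrix.cons_val_zero, Matrix.cons_val_one, Matrix.cons_val, map_add, map_sub,
    map_mul, map_pow, aeval_C, aeval_X]
  simp only [eq_intCast, Int.cast_natCast]
  linear_combination (e o : ℂ) * (e o : ℂ) * hq -
    ((q 0 : ℂ) * ((e o : ℂ) * cz e ψ a w + ((e a : ℂ) * cz e ψ o w - y j)) + (e o : ℂ) * (q 1 : ℂ)) * h1

private theorem CoverH_quad {x : ℂ} (hx : 0 < x.im) {q : Fin 3 → ℤ} (hq : q ≠ 0)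
    (h : (q 0 : ℂ) * x ^ 2 + (q 1 : ℂ) * x + (q 2 : ℂ) = 0) : q 0 ≠ 0 := by
  intro h0
  apply hq
  rw [h0, Int.cast_zero, zero_mul, zero_add] at h
  have h1 : (q 1 : ℝ) * x.im = 0 := by
    have h2 := congrArg Complex.im h
    simpa using h2
  have h3 : (q 1 : ℝ) = 0 := by
    rcases mul_eq_zero.mp h1 with h4 | h4
    · exact h4
    · exact absurd h4 hx.ne'
  have h5 : q 1 = 0 := by exact_mod_cast h3
  have h6 : q 2 = 0 := by
    rw [h5, Int.cast_zero, zero_mul, zero_add] at h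
    exact_mod_cast h
  funext k
  fin_cases k
  · exact h0
  · exact h5
  · exact h6

/-- two integral matrices with entries at most `H` -/
private def CoverH_MM : Type :=
  {x : ℝ × Matrix (Fin 2) (Fin 2) ℤ × Matrix (Fin 2) (Fin 2) ℤ // 2 ≤ x.1 ∧ x.2.1.det ≠ 0 ∧
    x.2.2.det ≠ 0 ∧ (∀ i j, |(x.2.1 i j : ℝ)| ≤ x.1) ∧ (∀ i j, |(x.2.2 i j : ℝ)| ≤ x.1)}

/-- one integral matrix and one quadratic polynomial with entries at most `H` -/
private def CoverH_MQ : Type :=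
  {x : ℝ × Matrix (Fin 2) (Fin 2) ℤ × (Fin 3 → ℤ) // 2 ≤ x.1 ∧ x.2.1.det ≠ 0 ∧
    x.2.2 0 ≠ 0 ∧ (∀ i j, |(x.2.1 i j : ℝ)| ≤ x.1) ∧ (∀ i, |(x.2.2 i : ℝ)| ≤ x.1)}

/-- two quadratic polynomials with entries at most `H` -/
private def CoverH_QQ : Type :=
  {x : ℝ × (Fin 3 → ℤ) × (Fin 3 → ℤ) // 2 ≤ x.1 ∧ x.2.1 0 ≠ 0 ∧
    x.2.2 0 ≠ 0 ∧ (∀ i, |(x.2.1 i : ℝ)| ≤ x.1) ∧ (∀ i, |(x.2.2 i : ℝ)| ≤ x.1)}

/-- the relations between `o` and `a`, and between `o` and `b` -/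
theorem Cusp.cov_oab {e : Fin mm → ℕ} {ψ : Fin mm → ℂ → ℂ} (h : Cusp e ψ) {o a b : Fin mm} (ho : 0 < e o)
    (hao : a ≠ o) (hbo : b ≠ o) (hab : a ≠ b) :
    Cov (fun H w => IsoH H (cz e ψ o w) (cz e ψ a w) ∧ IsoH H (cz e ψ o w) (cz e ψ b w)) := by
  have hi : Function.Injective ![a, b] := by
    intro x y hxy
    fin_cases x <;> fin_cases y <;> simp_all [eq_comm]
  refine h.cov_fam ho ![a, b] hi ?_ (ι := CoverH_MM) (fun x => x.1.1) (fun x => x.2.1) (∑ b, e b)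
    (fun k x => pI (e a) (e o) x.1.2.1 0 k) (fun k x => pI (e b) (e o) x.1.2.2 1 k) ?_ ?_ ?_ ?_
  · intro j
    fin_cases j
    · exact hao
    · exact hbo
  · exact fun k => pI_UB (fun x => x.2.1.trans (CoverH_H _ x.2.1)) (fun x => CoverH_e a x.2.1)
      (fun x => CoverH_e o x.2.1) (fun x i j => (x.2.2.2.2.1 i j).trans (CoverH_H _ x.2.1)) 0 k
  · exact fun k => pI_UB (fun x => x.2.1.trans (CoverH_H _ x.2.1)) (fun x => CoverH_e b x.2.1)
      (fun x => CoverH_e o x.2.1) (fun x i j => (x.2.2.2.2.2 i j).trans (CoverH_H _ x.2.1)) 1 k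
  · exact fun x => nv1 (by exact_mod_cast ho.ne') x.2.2.1 x.2.2.2.1
  · rintro H hH w hw ⟨⟨g, hg, hgH, hm⟩, ⟨g', hg', hgH', hm'⟩⟩
    exact ⟨⟨(H, g, g'), hH, hg, hg', hgH, hgH'⟩, rfl, pI_eval hm rfl, pI_eval hm' rfl⟩

/-- the relations between `o` and `a`, and between `b` and `c` -/
theorem Cusp.cov_oa_bc {e : Fin mm → ℕ} {ψ : Fin mm → ℂ → ℂ} (h : Cusp e ψ) {o a b c : Fin mm}
    (ho : 0 < e o) (hao : a ≠ o) (hbo : b ≠ o) (hco : c ≠ o) (hab : a ≠ b) (hac : a ≠ c) (hbc : b ≠ c) :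
    Cov (fun H w => IsoH H (cz e ψ o w) (cz e ψ a w) ∧ IsoH H (cz e ψ b w) (cz e ψ c w)) := by
  have hi : Function.Injective ![a, b, c] := by
    intro x y hxy
    fin_cases x <;> fin_cases y <;> simp_all [eq_comm]
  refine h.cov_fam ho ![a, b, c] hi ?_ (ι := CoverH_MM) (fun x => x.1.1) (fun x => x.2.1) (∑ b, e b)
    (fun k x => pI (e a) (e o) x.1.2.1 0 k) (fun k x => pI2 (e b) (e c) (e o) x.1.2.2 1 2 k) ?_ ?_ ?_ ?_
  · intro j
    fin_cases j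
    · exact hao
    · exact hbo
    · exact hco
  · exact fun k => pI_UB (fun x => x.2.1.trans (CoverH_H _ x.2.1)) (fun x => CoverH_e a x.2.1)
      (fun x => CoverH_e o x.2.1) (fun x i j => (x.2.2.2.2.1 i j).trans (CoverH_H _ x.2.1)) 0 k
  · exact fun k => pI2_UB (fun x => x.2.1.trans (CoverH_H _ x.2.1)) (fun x => CoverH_e b x.2.1)
      (fun x => CoverH_e c x.2.1) (fun x => CoverH_e o x.2.1)
      (fun x i j => (x.2.2.2.2.2 i j).trans (CoverH_H _ x.2.1)) 1 2 k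
  · exact fun x => nv2 (by exact_mod_cast ho.ne') x.2.2.1 x.2.2.2.1
  · rintro H hH w hw ⟨⟨g, hg, hgH, hm⟩, ⟨g', hg', hgH', hm'⟩⟩
    exact ⟨⟨(H, g, g'), hH, hg, hg', hgH, hgH'⟩, rfl, pI_eval hm rfl, pI2_eval hm' rfl rfl⟩

/-- `o` is quadratic, and a relation between `a` and `b` -/
theorem Cusp.cov_q_ab {e : Fin mm → ℕ} {ψ : Fin mm → ℂ → ℂ} (h : Cusp e ψ) {o a b : Fin mm} (ho : 0 < e o)
    (hao : a ≠ o) (hbo : b ≠ o) (hab : a ≠ b) :
    Cov (fun H w => IsoH H (cz e ψ a w) (cz e ψ b w) ∧ QuadH H (cz e ψ o w)) := by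
  have hi : Function.Injective ![a, b] := by
    intro x y hxy
    fin_cases x <;> fin_cases y <;> simp_all [eq_comm]
  refine h.cov_fam ho ![a, b] hi ?_ (ι := CoverH_MQ) (fun x => x.1.1) (fun x => x.2.1) (∑ b, e b)
    (fun k x => pQ0 x.1.2.2 k) (fun k x => pI2 (e a) (e b) (e o) x.1.2.1 0 1 k) ?_ ?_ ?_ ?_
  · intro j
    fin_cases j
    · exact hao
    · exact hbo
  · exact fun k => pQ0_UB (fun x i => (x.2.2.2.2.2 i).trans (CoverH_H _ x.2.1)) k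
  · exact fun k => pI2_UB (fun x => x.2.1.trans (CoverH_H _ x.2.1)) (fun x => CoverH_e a x.2.1)
      (fun x => CoverH_e b x.2.1) (fun x => CoverH_e o x.2.1)
      (fun x i j => (x.2.2.2.2.1 i j).trans (CoverH_H _ x.2.1)) 0 1 k
  · exact fun x => nv3 (by exact_mod_cast ho.ne') x.2.2.1 x.2.2.2.1
  · rintro H hH w hw ⟨⟨g, hg, hgH, hm⟩, ⟨him, q, hq, hqH, hqr⟩⟩
    exact ⟨⟨(H, g, q), hH, hg, CoverH_quad him hq hqr, hgH, hqH⟩, rfl, pQ0_eval hqr,
      pI2_eval hm rfl rfl⟩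

/-- `o` and `a` are quadratic -/
theorem Cusp.cov_q_q {e : Fin mm → ℕ} {ψ : Fin mm → ℂ → ℂ} (h : Cusp e ψ) {o a : Fin mm} (ho : 0 < e o)
    (hao : a ≠ o) : Cov (fun H w => QuadH H (cz e ψ o w) ∧ QuadH H (cz e ψ a w)) := by
  refine h.cov_fam ho ![a] ?_ ?_ (ι := CoverH_QQ) (fun x => x.1.1) (fun x => x.2.1) (∑ b, e b)
    (fun k x => pQ0 x.1.2.1 k) (fun k x => pQ (e a) (e o) x.1.2.2 0 k) ?_ ?_ ?_ ?_
  · intro x y _
    exact Subsingleton.elim x y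
  · intro j
    fin_cases j
    exact hao
  · exact fun k => pQ0_UB (fun x i => (x.2.2.2.2.1 i).trans (CoverH_H _ x.2.1)) k
  · exact fun k => pQ_UB (fun x => x.2.1.trans (CoverH_H _ x.2.1)) (fun x => CoverH_e a x.2.1)
      (fun x => CoverH_e o x.2.1) (fun x i => (x.2.2.2.2.2 i).trans (CoverH_H _ x.2.1)) 0 k
  · exact fun x => nv4 x.2.2.1 x.2.2.2.1
  · rintro H hH w hw ⟨⟨him, q, hq, hqH, hqr⟩, ⟨him', p, hp, hpH, hpr⟩⟩
    exact ⟨⟨(H, q, p), hH, CoverH_quad him hq hqr, CoverH_quad him' hp hpr, hqH, hpH⟩, rfl,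
      pQ0_eval hqr, pQ_eval hpr rfl⟩

theorem IsoH.symm {H : ℝ} {x y : ℂ} (h : IsoH H x y) : IsoH H y x := by
  obtain ⟨g, hg, hgH, hm⟩ := h
  refine ⟨g.adjugate, ?_, ?_, ?_⟩
  · rw [Matrix.det_adjugate]
    simpa using hg
  · intro i j
    rw [Matrix.adjugate_fin_two]
    fin_cases i <;> fin_cases j
    · exact hgH 1 1
    · show |((-g 0 1 : ℤ) : ℝ)| ≤ H
      rw [Int.cast_neg, abs_neg]
      exact hgH 0 1
    · show |((-g 1 0 : ℤ) : ℝ)| ≤ H
      rw [Int.cast_neg, abs_neg]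
      exact hgH 1 0
    · exact hgH 0 0
  · unfold Maps at hm ⊢
    rw [Matrix.adjugate_fin_two]
    show x * (((-g 1 0 : ℤ) : ℂ) * y + ((g 0 0 : ℤ) : ℂ)) = ((g 1 1 : ℤ) : ℂ) * y + ((-g 0 1 : ℤ) : ℂ)
    push_cast
    linear_combination -hm

/-- isogenous triples -/
theorem Cusp.coverG1 {e : Fin 3 → ℕ} {ψ : Fin 3 → ℂ → ℂ} (h : Cusp e ψ) :
    Cov (fun H w => PW.Pt H (cz e ψ) w) := by
  obtain ⟨o, ho⟩ := h.inf
  have key : ∀ a b : Fin 3, a ≠ o → b ≠ o → a ≠ b → Cov (fun H w => PW.Pt H (cz e ψ) w) :=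
    fun a b hao hbo hab => (h.cov_oab ho hao hbo hab).mono fun H w hw => ⟨hw a o, hw b o⟩
  fin_cases o
  · exact key 1 2 (by decide) (by decide) (by decide)
  · exact key 0 2 (by decide) (by decide) (by decide)
  · exact key 0 1 (by decide) (by decide) (by decide)

/-- pair and pair -/
theorem Cusp.coverG2 {e : Fin 4 → ℕ} {ψ : Fin 4 → ℂ → ℂ} (h : Cusp e ψ) : Cov (Pt2 (cz e ψ)) := by
  by_cases h0 : e 0 = 0
  · by_cases h1 : e 1 = 0
    · exact (h.cover_iso (by decide) h0 h1).mono fun H w hw => hw.1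
    · exact (h.cov_oa_bc (o := 1) (a := 0) (b := 2) (c := 3) (Nat.pos_of_ne_zero h1) (by decide)
        (by decide) (by decide) (by decide) (by decide) (by decide)).mono
          fun H w hw => ⟨hw.1.symm, hw.2⟩
  · exact (h.cov_oa_bc (o := 0) (a := 1) (b := 2) (c := 3) (Nat.pos_of_ne_zero h0) (by decide)
      (by decide) (by decide) (by decide) (by decide) (by decide)).mono fun H w hw => hw

/-- pair and quadratic coordinate -/
theorem Cusp.coverG3 {e : Fin 3 → ℕ} {ψ : Fin 3 → ℂ → ℂ} (h : Cusp e ψ) : Cov (Pt3 (cz e ψ)) := by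
  by_cases h2 : e 2 = 0
  · exact (h.cover_quad h2).mono fun H w hw => hw.2
  · exact (h.cov_q_ab (o := 2) (a := 0) (b := 1) (Nat.pos_of_ne_zero h2) (by decide) (by decide)
      (by decide)).mono fun H w hw => hw

/-- two quadratic coordinates -/
theorem Cusp.coverG4 {e : Fin 2 → ℕ} {ψ : Fin 2 → ℂ → ℂ} (h : Cusp e ψ) : Cov (Pt4 (cz e ψ)) := by
  by_cases h0 : e 0 = 0
  · exact (h.cover_quad h0).mono fun H w hw => hw.1
  · exact (h.cov_q_q (o := 0) (a := 1) (Nat.pos_of_ne_zero h0) (by decide)).mono fun H w hw => hw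

end Pool.Agent.LGO.PWG
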