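import Mathlib
import Pool.Agent.LGO.PWG.Count
import Pool.Agent.LGO.Mul.Ht
import Pool.Agent.AHC.Ext

/-!
# LGO/PWG: large Galois orbits and an atlas imply finiteness (abstract form)

`fin_abs`: `W` has an atlas and is stable under the automorphisms of `ℂ` fixing a number field `k₀`; `Q` can
be counted in charts; the points of `T ⊆ W` are algebraic and all conjugates of a point `y ∈ T` of degree `D`
satisfy `Q ((C D) ^ C + 2)` and have coordinates at most `exp ((C D) ^ C + 2)`.  Then `T` is finite.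

Proof.  `conj_many`: a point `y ∈ T` has at least `D / [k₀ : ℚ]` conjugates in `W`.  `count` with the exponent
`1 / (2 (C + 1))`: `D ≤ c D ^ (1/2)`, so `D ≤ M`, and all points of `T` satisfy `Q H` and `|y a| ≤ exp H`
with `H = (C M) ^ C + 2` fixed: `count` again bounds the number of the points of `T`.
-/

namespace Pool.Agent.LGO.PWG

open MvPolynomial Metric Pool.Agent.LGO.PW

variable {mm : ℕ}

/-- many conjugates inside `W` -/
theorem conj_many {W : Set (Fin mm → ℂ)} (k₀ : IntermediateField ℚ ℂ) [FiniteDimensional ℚ k₀]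
    (hW : ∀ s : ℂ ≃+* ℂ, (∀ z ∈ k₀, s z = z) → ∀ y ∈ W, (fun a => s (y a)) ∈ W)
    {x : Fin mm → ℂ} (hx : x ∈ W) (hal : ∀ a, IsAlgebraic ℚ (x a)) :
    ∃ S : Finset (Fin mm → ℂ),
      Module.finrank ℚ (IntermediateField.adjoin ℚ (Set.range x)) ≤
        Module.finrank ℚ k₀ * S.card ∧
      ∀ y ∈ S, y ∈ W ∧ ∃ s : ℂ ≃+* ℂ, y = fun a => s (x a) := by
  classical
  set K : IntermediateField k₀ ℂ := IntermediateField.adjoin k₀ (Set.range x) with hK
  have hKfin : FiniteDimensional k₀ K := by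
    refine IntermediateField.finiteDimensional_adjoin ?_
    rintro _ ⟨a, rfl⟩
    exact (hal a).isIntegral.tower_top
  have hmemK : ∀ a, x a ∈ K := fun a => IntermediateField.subset_adjoin k₀ _ ⟨a, rfl⟩
  refine ⟨Finset.univ.image fun φ : K →ₐ[k₀] ℂ => fun a => φ ⟨x a, hmemK a⟩, ?_, ?_⟩
  · have hinj : Function.Injective fun φ : K →ₐ[k₀] ℂ => fun a => φ ⟨x a, hmemK a⟩ := by
      intro φ ψ h
      refine IntermediateField.algHom_ext_of_eq_adjoin k₀ hK ?_
      rintro _ ⟨a, rfl⟩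
      exact congrFun h a
    rw [Finset.card_image_of_injective _ hinj, Finset.card_univ, AlgHom.card k₀ K ℂ]
    rw [Module.finrank_mul_finrank ℚ k₀ K]
    have hKQ : FiniteDimensional ℚ K := FiniteDimensional.trans ℚ k₀ K
    have hle : IntermediateField.adjoin ℚ (Set.range x) ≤ K.restrictScalars ℚ := by
      rw [IntermediateField.adjoin_le_iff]
      rintro _ ⟨a, rfl⟩
      exact hmemK a
    have h1 : Module.finrank ℚ (IntermediateField.adjoin ℚ (Set.range x)) ≤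
        Module.finrank ℚ (K.restrictScalars ℚ) := by
      have : FiniteDimensional ℚ (K.restrictScalars ℚ) := hKQ
      exact LinearMap.finrank_le_finrank_of_injective
        (f := (IntermediateField.inclusion hle).toLinearMap) (IntermediateField.inclusion hle).injective
    exact h1
  · intro y hy
    obtain ⟨φ, -, rfl⟩ := Finset.mem_image.mp hy
    obtain ⟨s, hs⟩ := Pool.Agent.AHC.exists_aut (R := k₀) (S := K) (algebraMap k₀ K).injective
      (by
        have : Algebra.trdeg k₀ K = 0 := trdeg_eq_zero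
        rw [this]
        exact Cardinal.aleph0_pos)
      (algebraMap K ℂ) φ.toRingHom (algebraMap K ℂ).injective φ.toRingHom.injective (by
        ext z
        change algebraMap K ℂ (algebraMap k₀ K z) = φ (algebraMap k₀ K z)
        rw [AlgHom.commutes]
        rfl)
    have hfix : ∀ z ∈ k₀, s z = z := by
      intro z h1
      have h2 := hs (algebraMap k₀ K ⟨z, h1⟩)
      have h3 : φ.toRingHom (algebraMap k₀ K ⟨z, h1⟩) = z := φ.commutes ⟨z, h1⟩
      rw [h3] at h2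
      exact h2
    have he : (fun a => φ ⟨x a, hmemK a⟩) = fun a => s (x a) := by
      funext a
      exact (hs ⟨x a, hmemK a⟩).symm
    refine ⟨?_, s, he⟩
    simp only [he]
    exact hW s hfix x hx

private theorem Fin_bound {C m D c : ℕ} {C' : ℝ} (hC' : 0 < C') (hD : 1 ≤ D) (hDm : D ≤ m * c)
    (hc : (c : ℝ) ≤ C' * (((C : ℝ) * D) ^ C + 2) ^ (1 / (2 * ((C : ℝ) + 1)))) :
    (D : ℝ) ≤ ((m : ℝ) * C' * (3 : ℝ) ^ (1 / (2 * ((C : ℝ) + 1))) * ((C : ℝ) + 2) ^ (1 / 2 : ℝ)) ^ 2 := by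
  set δ : ℝ := 1 / (2 * ((C : ℝ) + 1)) with hδ
  have hC0 : (0 : ℝ) ≤ C := Nat.cast_nonneg _
  have hδ0 : 0 < δ := by positivity
  have hD1 : (1 : ℝ) ≤ D := by exact_mod_cast hD
  have hD0 : (0 : ℝ) < D := by linarith
  set E : ℝ := ((C : ℝ) + 2) * D with hE
  have hE1 : 1 ≤ E := by rw [hE]; nlinarith
  have hE0 : 0 < E := by linarith
  have hCD : (C : ℝ) * D ≤ E := by rw [hE]; nlinarith
  have h1 : ((C : ℝ) * D) ^ C ≤ E ^ (C + 1) :=
    (pow_le_pow_left₀ (by positivity) hCD C).trans (pow_le_pow_right₀ hE1 (Nat.le_succ C))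
  have h2 : 1 ≤ E ^ (C + 1) := one_le_pow₀ hE1
  have h3 : ((C : ℝ) * D) ^ C + 2 ≤ 3 * E ^ (C + 1) := by linarith
  have h4 : (((C : ℝ) * D) ^ C + 2) ^ δ ≤ (3 * E ^ (C + 1)) ^ δ :=
    Real.rpow_le_rpow (by positivity) h3 hδ0.le
  have h5 : (3 * E ^ (C + 1)) ^ δ = (3 : ℝ) ^ δ * E ^ (1 / 2 : ℝ) := by
    rw [Real.mul_rpow (by norm_num) (by positivity), ← Real.rpow_natCast E, ← Real.rpow_mul hE0.le]
    congr 2
    rw [hδ]
    push_cast
    field_simp
  have h6 : E ^ (1 / 2 : ℝ) = ((C : ℝ) + 2) ^ (1 / 2 : ℝ) * (D : ℝ) ^ (1 / 2 : ℝ) := by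
    rw [hE, Real.mul_rpow (by positivity) hD0.le]
  set q : ℝ := (D : ℝ) ^ (1 / 2 : ℝ) with hq
  have hq0 : 0 < q := Real.rpow_pos_of_pos hD0 _
  have hqq : q * q = D := by
    rw [hq, ← Real.rpow_add hD0]
    norm_num
  have h7 : (D : ℝ) ≤ m * c := by exact_mod_cast hDm
  have hm0 : (0 : ℝ) ≤ m := Nat.cast_nonneg _
  have h8 : (D : ℝ) ≤ ((m : ℝ) * C' * (3 : ℝ) ^ δ * ((C : ℝ) + 2) ^ (1 / 2 : ℝ)) * q := by
    calc (D : ℝ) ≤ m * c := h7
      _ ≤ m * (C' * (((C : ℝ) * D) ^ C + 2) ^ δ) := mul_le_mul_of_nonneg_left hc hm0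
      _ ≤ m * (C' * ((3 : ℝ) ^ δ * (((C : ℝ) + 2) ^ (1 / 2 : ℝ) * q))) := by
          rw [h5, h6] at h4
          exact mul_le_mul_of_nonneg_left (mul_le_mul_of_nonneg_left h4 hC'.le) hm0
      _ = _ := by ring
  set M : ℝ := (m : ℝ) * C' * (3 : ℝ) ^ δ * ((C : ℝ) + 2) ^ (1 / 2 : ℝ) with hM
  have h9 : q ≤ M := by
    rw [← hqq] at h8
    exact le_of_mul_le_mul_right h8 hq0
  rw [← hqq, sq]
  exact mul_le_mul h9 h9 hq0.le (hq0.le.trans h9)

/-- **Large Galois orbits and an atlas imply finiteness** -/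
theorem fin_abs {Q : ℝ → (Fin mm → ℂ) → Prop} (hQ : Cble Q) {W : Set (Fin mm → ℂ)} (hA : Atl W)
    (k₀ : IntermediateField ℚ ℂ) [FiniteDimensional ℚ k₀]
    (hW : ∀ s : ℂ ≃+* ℂ, (∀ z ∈ k₀, s z = z) → ∀ y ∈ W, (fun a => s (y a)) ∈ W)
    {T : Set (Fin mm → ℂ)} (hTW : T ⊆ W) (C : ℕ) (hal : ∀ y ∈ T, ∀ a, IsAlgebraic ℚ (y a))
    (hT : ∀ y ∈ T, ∀ s : ℂ ≃+* ℂ,
      Q (((C : ℝ) * Module.finrank ℚ (IntermediateField.adjoin ℚ (Set.range y))) ^ C + 2)
        (fun a => s (y a)) ∧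
      ∀ a, ‖s (y a)‖ ≤
        Real.exp (((C : ℝ) * Module.finrank ℚ (IntermediateField.adjoin ℚ (Set.range y))) ^ C + 2)) :
    T.Finite := by
  classical
  have hδ : 0 < 1 / (2 * ((C : ℝ) + 1)) := by positivity
  obtain ⟨C', hC', hcount⟩ := count hQ hA (1 / (2 * ((C : ℝ) + 1))) hδ
  set m : ℕ := Module.finrank ℚ k₀ with hm
  set M : ℝ := ((m : ℝ) * C' * (3 : ℝ) ^ (1 / (2 * ((C : ℝ) + 1))) * ((C : ℝ) + 2) ^ (1 / 2 : ℝ)) ^ 2
    with hM
  have hM0 : 0 ≤ M := by rw [hM]; positivity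
  -- the degree is bounded
  have hdeg : ∀ y ∈ T, (Module.finrank ℚ (IntermediateField.adjoin ℚ (Set.range y)) : ℝ) ≤ M := by
    intro y hy
    have hfd : FiniteDimensional ℚ (IntermediateField.adjoin ℚ (Set.range y)) := by
      refine IntermediateField.finiteDimensional_adjoin ?_
      rintro z ⟨a, rfl⟩
      exact (hal y hy a).isIntegral
    have hD : 1 ≤ Module.finrank ℚ (IntermediateField.adjoin ℚ (Set.range y)) := Module.finrank_pos
    obtain ⟨S, hS1, hS2⟩ := conj_many k₀ hW (hTW hy) (hal y hy)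
    refine Fin_bound hC' hD hS1 ?_
    refine hcount _ ?_ S fun x hx => ?_
    · have : (0 : ℝ) ≤ ((C : ℝ) * Module.finrank ℚ (IntermediateField.adjoin ℚ (Set.range y))) ^ C := by
        positivity
      linarith
    · obtain ⟨hxW, s, rfl⟩ := hS2 x hx
      exact ⟨hxW, (hT y hy s).2, (hT y hy s).1⟩
  -- all points satisfy the condition with a fixed height
  set H : ℝ := ((C : ℝ) * M) ^ C + 2 with hH
  have hH2 : 2 ≤ H := by
    have : (0 : ℝ) ≤ ((C : ℝ) * M) ^ C := by positivity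
    linarith
  by_contra hinf
  have hinf' : T.Infinite := hinf
  obtain ⟨S, hST, hScard⟩ := hinf'.exists_subset_card_eq (⌈C' * H ^ (1 / (2 * ((C : ℝ) + 1)))⌉₊ + 1)
  have h1 : (S.card : ℝ) ≤ C' * H ^ (1 / (2 * ((C : ℝ) + 1))) := by
    refine hcount H hH2 S fun y hy => ?_
    have hyT : y ∈ T := hST hy
    have hle : ((C : ℝ) * Module.finrank ℚ (IntermediateField.adjoin ℚ (Set.range y))) ^ C + 2 ≤ H := by
      have h3 : (C : ℝ) * Module.finrank ℚ (IntermediateField.adjoin ℚ (Set.range y)) ≤ C * M :=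
        mul_le_mul_of_nonneg_left (hdeg y hyT) (Nat.cast_nonneg _)
      have h4 := pow_le_pow_left₀ (by positivity) h3 C
      rw [hH]
      linarith
    obtain ⟨h5, h6⟩ := hT y hyT (RingEquiv.refl ℂ)
    refine ⟨hTW hyT, fun a => (h6 a).trans (Real.exp_le_exp.2 hle), hQ.mono _ _ hle _ h5⟩
  have h2 : C' * H ^ (1 / (2 * ((C : ℝ) + 1))) ≤ (⌈C' * H ^ (1 / (2 * ((C : ℝ) + 1)))⌉₊ : ℝ) :=
    Nat.le_ceil _
  rw [hScard] at h1
  push_cast at h1
  linarith

end Pool.Agent.LGO.PWG
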