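import Mathlib
import Pool.Agent.LGO.PWG.Relns

/-!
# LGO/PWG: growth of the ranks, general form

`y i` (`i : Fin p`) are functions (the remaining variables), `Om` a function without zeros on `S`.  Suppose that for all exponents
`γ_i ≤ b` the function `Om z ^ γ` is on `S` the value of a polynomial `F` in the `y i` and the `v k`, of degree at most `D i` in `y i` and at
most `b` in `v k`.  Then `ρ (b + 1) ^ m ≤ ∏ (D i + 1) rk v S (2 b)`.

PROOF.  Multiplication by `Om` (nowhere zero on `S`) is an injective linear map of `S → ℂ`, so the functions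
`Om z ^ γ mon v (t j)` are linearly independent (`LinearIndependent.map'`).  Write `F = ∑ coeff e * X ^ e`: for `e` in the support
`e (inl i) ≤ D i`, `e (inr k) ≤ b` (`MvPolynomial.monomial_le_degreeOf`), and `X ^ e` has the value `y ^ (e inl) v ^ (e inr)`; times
`mon v (t j)` this is `y ^ δ mon v β` with `β_k ≤ 2 b`.  So all the functions lie in the sum over `δ` (`δ_i ≤ D i`) of the images of
`L = span {mon v β : β_k ≤ 2 b}` under the multiplication by `y ^ δ`; each image has dimension at most `dim L = rk v S (2 b)`, and the number of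
`δ` is `∏ (D i + 1)` (for instance: the linear map `(δ → L) → (S → ℂ)`, `(l_δ) ↦ ∑ y ^ δ l_δ`, its range has dimension at most
`card δ * dim L`).  (The module `PWC/Grow` by helper20 is the case `m = 3`, `p = 1`.)
-/

namespace Pool.Agent.LGO.PWG

open MvPolynomial

open PWC (mon rk)

/-- multiplication by a function on `S` -/
private noncomputable def GrowA_mul {S : Finset ℂ} (h : S → ℂ) : (S → ℂ) →ₗ[ℂ] (S → ℂ) where
  toFun f := fun s => h s * f s
  map_add' f g := by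
    funext s
    simp only [Pi.add_apply]
    ring
  map_smul' c f := by
    funext s
    simp only [Pi.smul_apply, smul_eq_mul, RingHom.id_apply]
    ring

/-- the sum of the images -/
private noncomputable def GrowA_sum {S : Finset ℂ} {Δ : Type} [Fintype Δ] (L : Submodule ℂ (S → ℂ))
    (h : Δ → S → ℂ) : (Δ → L) →ₗ[ℂ] (S → ℂ) :=
  ∑ δ, GrowA_mul (h δ) ∘ₗ L.subtype ∘ₗ LinearMap.proj δ

private theorem GrowA_mem {S : Finset ℂ} {Δ : Type} [Fintype Δ] [DecidableEq Δ] (L : Submodule ℂ (S → ℂ))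
    (h : Δ → S → ℂ) (δ : Δ) {f : S → ℂ} (hf : f ∈ L) :
    (fun s => h δ s * f s) ∈ LinearMap.range (GrowA_sum L h) := by
  refine ⟨Pi.single δ ⟨f, hf⟩, ?_⟩
  unfold GrowA_sum
  rw [LinearMap.sum_apply, Finset.sum_eq_single δ]
  · simp only [LinearMap.comp_apply, LinearMap.proj_apply, Pi.single_eq_same, Submodule.subtype_apply]
    rfl
  · intro δ' _ hne
    simp only [LinearMap.comp_apply, LinearMap.proj_apply, Pi.single_eq_of_ne hne, map_zero]
  · intro h
    exact absurd (Finset.mem_univ δ) h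

private theorem GrowA_finrank {S : Finset ℂ} {Δ : Type} [Fintype Δ] (L : Submodule ℂ (S → ℂ))
    (h : Δ → S → ℂ) :
    Module.finrank ℂ (LinearMap.range (GrowA_sum L h)) ≤ Fintype.card Δ * Module.finrank ℂ L := by
  refine le_trans (LinearMap.finrank_range_le _) ?_
  rw [Module.finrank_pi_fintype, Finset.sum_const, Finset.card_univ, smul_eq_mul]

theorem grow_poly {m p : ℕ} {z : Fin m → ℂ → ℂ} {v : ℂ → Fin 8 → ℤ} {S : Finset ℂ} {b ρ : ℕ}
    (y : Fin p → ℂ → ℂ) (D : Fin p → ℕ) (Om : ℂ → ℂ) (hOm : ∀ s ∈ S, Om s ≠ 0)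
    (hF : ∀ γ : Fin m → Fin (b + 1), ∃ F : MvPolynomial (Fin p ⊕ Fin 8) ℂ,
      (∀ i, F.degreeOf (Sum.inl i) ≤ D i) ∧ (∀ k, F.degreeOf (Sum.inr k) ≤ b) ∧
      ∀ s ∈ S, Om s * ∏ i, z i s ^ (γ i : ℕ) =
        eval (Sum.elim (fun i => y i s) fun k => (v s k : ℂ)) F)
    (t : Fin ρ → Fin 8 → Fin (b + 1))
    (hli : LinearIndependent ℂ (fun (p : (Fin m → Fin (b + 1)) × Fin ρ) (s : S) =>
      (∏ i, z i (s : ℂ) ^ (p.1 i : ℕ)) * mon v (t p.2) (s : ℂ))) :
    ρ * (b + 1) ^ m ≤ (∏ i, (D i + 1)) * rk v S (2 * b) := by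
  classical
  obtain ⟨L, hL⟩ : ∃ L : Submodule ℂ (S → ℂ), L = Submodule.span ℂ
    (Set.range fun (α : Fin 8 → Fin (2 * b + 1)) (s : S) => mon v α (s : ℂ)) := ⟨_, rfl⟩
  obtain ⟨h, hh⟩ : ∃ h : (∀ i : Fin p, Fin (D i + 1)) → S → ℂ,
      h = fun (δ : ∀ i : Fin p, Fin (D i + 1)) (s : S) => ∏ i, y i (s : ℂ) ^ (δ i : ℕ) := ⟨_, rfl⟩
  have hM : LinearIndependent ℂ ((GrowA_mul fun s : S => Om (s : ℂ)) ∘
      (fun (p : (Fin m → Fin (b + 1)) × Fin ρ) (s : S) =>
        (∏ i, z i (s : ℂ) ^ (p.1 i : ℕ)) * mon v (t p.2) (s : ℂ))) := by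
    refine hli.map' _ ?_
    rw [LinearMap.ker_eq_bot']
    intro f hf
    funext s
    have h1 : Om (s : ℂ) * f s = 0 := congrFun hf s
    exact (mul_eq_zero.mp h1).resolve_left (hOm s s.2)
  have hmem : Submodule.span ℂ (Set.range ((GrowA_mul fun s : S => Om (s : ℂ)) ∘
      (fun (p : (Fin m → Fin (b + 1)) × Fin ρ) (s : S) =>
        (∏ i, z i (s : ℂ) ^ (p.1 i : ℕ)) * mon v (t p.2) (s : ℂ)))) ≤
      LinearMap.range (GrowA_sum L h) := by
    rw [Submodule.span_le]
    rintro _ ⟨⟨γ, j⟩, rfl⟩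
    obtain ⟨F, hD, hb, hF⟩ := hF γ
    have h1 : ((GrowA_mul fun s : S => Om (s : ℂ)) ∘
        (fun (p : (Fin m → Fin (b + 1)) × Fin ρ) (s : S) =>
          (∏ i, z i (s : ℂ) ^ (p.1 i : ℕ)) * mon v (t p.2) (s : ℂ))) (γ, j) =
        ∑ e ∈ F.support, F.coeff e • (fun s : S => (∏ i, y i (s : ℂ) ^ e (Sum.inl i)) *
          ∏ k, (v (s : ℂ) k : ℂ) ^ (e (Sum.inr k) + (t j k : ℕ))) := by
      funext s
      have h2 : ((GrowA_mul fun s : S => Om (s : ℂ)) ∘
        (fun (p : (Fin m → Fin (b + 1)) × Fin ρ) (s : S) =>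
          (∏ i, z i (s : ℂ) ^ (p.1 i : ℕ)) * mon v (t p.2) (s : ℂ))) (γ, j) s =
          Om (s : ℂ) * ((∏ i, z i (s : ℂ) ^ (γ i : ℕ)) * mon v (t j) (s : ℂ)) := rfl
      rw [h2, ← mul_assoc, hF s s.2, MvPolynomial.eval_eq', Finset.sum_mul, Finset.sum_apply]
      refine Finset.sum_congr rfl fun e _ => ?_
      rw [Fintype.prod_sum_type, Pi.smul_apply, smul_eq_mul]
      simp only [Sum.elim_inl, Sum.elim_inr, pow_add, Finset.prod_mul_distrib, mon]
      ring
    rw [SetLike.mem_coe, h1]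
    refine Submodule.sum_mem _ fun e he => Submodule.smul_mem _ _ ?_
    have he1 : ∀ i, e (Sum.inl i) < D i + 1 := fun i =>
      Nat.lt_succ_of_le ((monomial_le_degreeOf _ he).trans (hD i))
    have he2 : ∀ k, e (Sum.inr k) + (t j k : ℕ) < 2 * b + 1 := by
      intro k
      have h3 := (monomial_le_degreeOf (Sum.inr k) he).trans (hb k)
      have h4 := (t j k).2
      omega
    have h5 : (fun s : S => ∏ k, (v (s : ℂ) k : ℂ) ^ (e (Sum.inr k) + (t j k : ℕ))) ∈ L := by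
      rw [hL]
      exact Submodule.subset_span ⟨fun k => ⟨e (Sum.inr k) + (t j k : ℕ), he2 k⟩, rfl⟩
    have h6 := GrowA_mem L h (fun i => ⟨e (Sum.inl i), he1 i⟩) h5
    rw [hh] at h6 ⊢
    exact h6
  have hcard := finrank_span_eq_card hM
  have h7 := Submodule.finrank_mono hmem
  have h8 := GrowA_finrank L h
  rw [hcard, Fintype.card_prod, Fintype.card_fun, Fintype.card_fin, Fintype.card_fin, Fintype.card_fin] at h7
  have h9 : Fintype.card (∀ i : Fin p, Fin (D i + 1)) = ∏ i, (D i + 1) := by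
    rw [Fintype.card_pi]
    exact Finset.prod_congr rfl fun i _ => Fintype.card_fin _
  have h10 : Module.finrank ℂ L = rk v S (2 * b) := by
    rw [hL]
    rfl
  rw [h9, h10] at h8
  rw [mul_comm]
  exact h7.trans h8

end Pool.Agent.LGO.PWG
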