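import Mathlib

/-!
# LGO/PWG: powers of the root of a quadratic polynomial and of a fractional linear expression, as polynomials

PROOFS.  `quad_pow`: first, by induction on `k`, polynomials `A_k, B_k` in `a, b', c` (the variables `i₀, i₁, i₂`) with
`a ^ k x ^ k = A_k x + B_k` whenever `a x ^ 2 + b' x + c = 0`: `A_0 = 0, B_0 = 1`, `A_(k+1) = a B_k - b' A_k`,
`B_(k+1) = - c A_k` (multiply by `a x` and use `a x ^ 2 = - b' x - c`); the degree of `A_k, B_k` in each of the variables `i₀, i₁, i₂` is at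
most `k`, and `0` in all the others.  Then `F = a ^ (n - k) (A_k X_y + B_k)`.  (`degreeOf_mul_le`, `degreeOf_add_le`, `degreeOf_X_pow`,
`degreeOf_neg`.)
`mob_pow`: `F = (X_(i₀) X_y + X_(i₁)) ^ k (X_(i₂) X_y + X_(i₃)) ^ (n - k)`; the degree in `y` is at most `n` and in `i_l` at most `n`
(`degreeOf_pow_le`; `k + (n - k) = n`), in the other variables `0`.
-/

namespace Pool.Agent.LGO.PWG

open MvPolynomial

private lemma degX {σ : Type} [DecidableEq σ] (i j : σ) :
    (X j : MvPolynomial σ ℂ).degreeOf i = if i = j then 1 else 0 := by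
  classical
  rw [degreeOf_X]

private lemma deg_lin {σ : Type} [DecidableEq σ] (i : σ) (P Q R S : MvPolynomial σ ℂ) {m : ℕ}
    (h1 : P.degreeOf i + Q.degreeOf i ≤ m) (h2 : R.degreeOf i + S.degreeOf i ≤ m) :
    (P * Q + R * S).degreeOf i ≤ m := by
  refine (degreeOf_add_le i _ _).trans (max_le ?_ ?_)
  · exact (degreeOf_mul_le i _ _).trans h1
  · exact (degreeOf_mul_le i _ _).trans h2

private lemma deg_powmul {σ : Type} [DecidableEq σ] (i : σ) (P Q : MvPolynomial σ ℂ) (k : ℕ) {a b : ℕ}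
    (h1 : P.degreeOf i ≤ a) (h2 : Q.degreeOf i ≤ b) : (P ^ k * Q).degreeOf i ≤ k * a + b := by
  refine (degreeOf_mul_le i _ _).trans (Nat.add_le_add ?_ h2)
  exact (degreeOf_pow_le i _ _).trans (Nat.mul_le_mul_left k h1)

private lemma quad_AB {σ : Type} [DecidableEq σ] (y i₀ i₁ i₂ : σ) (k : ℕ) :
    ∃ A B : MvPolynomial σ ℂ, (∀ i, A.degreeOf i ≤ (if i = i₀ ∨ i = i₁ ∨ i = i₂ then 1 else 0) * k) ∧
      (∀ i, B.degreeOf i ≤ (if i = i₀ ∨ i = i₁ ∨ i = i₂ then 1 else 0) * k) ∧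
      ∀ x : σ → ℂ, x i₀ * x y ^ 2 + x i₁ * x y + x i₂ = 0 →
        x i₀ ^ k * x y ^ k = eval x A * x y + eval x B := by
  induction k with
  | zero =>
    refine ⟨0, 1, fun i => by simp, fun i => by simp, fun x _ => by simp⟩
  | succ k ih =>
    obtain ⟨A, B, hA, hB, he⟩ := ih
    refine ⟨X i₀ * B + X i₁ * (-A), X i₂ * (-A) + 0 * 0, fun i => ?_, fun i => ?_, fun x hx => ?_⟩
    · apply deg_lin
      · rw [degX, Nat.mul_succ, add_comm]
        refine Nat.add_le_add (hB i) ?_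
        split_ifs <;> simp_all
      · rw [degX, degreeOf_neg, Nat.mul_succ, add_comm]
        refine Nat.add_le_add (hA i) ?_
        split_ifs <;> simp_all
    · apply deg_lin
      · rw [degX, degreeOf_neg, Nat.mul_succ, add_comm]
        refine Nat.add_le_add (hA i) ?_
        split_ifs <;> simp_all
      · simp
    · have h := he x hx
      simp only [map_add, map_mul, map_neg, eval_X, map_zero]
      rw [pow_succ, pow_succ]
      linear_combination (x i₀ * x y) * h + (eval x A) * hx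

/-- `y` is the index of the variable for the number `x`, `i₀, i₁, i₂` are the indices of the coefficients -/
theorem quad_pow {σ : Type} [DecidableEq σ] {y i₀ i₁ i₂ : σ} (h0 : y ≠ i₀) (h1 : y ≠ i₁)
    (h2 : y ≠ i₂) (h01 : i₀ ≠ i₁) (h02 : i₀ ≠ i₂) (h12 : i₁ ≠ i₂) {n k : ℕ} (hk : k ≤ n) :
    ∃ F : MvPolynomial σ ℂ, F.degreeOf y ≤ 1 ∧ (∀ i, i ≠ y → F.degreeOf i ≤ n) ∧
      (∀ i, i ≠ y → i ≠ i₀ → i ≠ i₁ → i ≠ i₂ → F.degreeOf i = 0) ∧
      ∀ x : σ → ℂ, x i₀ * x y ^ 2 + x i₁ * x y + x i₂ = 0 → x i₀ ^ n * x y ^ k = eval x F := by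
  obtain ⟨A, B, hA, hB, he⟩ := quad_AB y i₀ i₁ i₂ k
  have hk' : n - k + k = n := Nat.sub_add_cancel hk
  have key : ∀ i, i ≠ y → (X i₀ ^ (n - k) * (A * X y + B * 1)).degreeOf i ≤
      (n - k) * (if i = i₀ ∨ i = i₁ ∨ i = i₂ then 1 else 0) +
        (if i = i₀ ∨ i = i₁ ∨ i = i₂ then 1 else 0) * k := by
    intro i hi
    apply deg_powmul
    · rw [degX]; split_ifs <;> simp_all
    · apply deg_lin
      · rw [degX, if_neg hi]; exact hA i
      · rw [degreeOf_one]; exact hB i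
  refine ⟨X i₀ ^ (n - k) * (A * X y + B * 1), ?_, fun i hi => ?_, fun i hi j0 j1 j2 => ?_,
    fun x hx => ?_⟩
  · have h := deg_powmul y (X i₀) (A * X y + B * 1) (n - k) (a := 0) (b := 1)
      (by rw [degX, if_neg h0])
      (by
        have hA' := hA y
        have hB' := hB y
        rw [if_neg (by tauto), zero_mul] at hA' hB'
        apply deg_lin
        · rw [degX, if_pos rfl]; omega
        · rw [degreeOf_one]; omega)
    simpa using h
  · refine (key i hi).trans ?_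
    split_ifs <;> omega
  · have h := key i hi
    rw [if_neg (by tauto)] at h
    simpa using h
  · have h := he x hx
    simp only [map_add, map_mul, map_pow, eval_X, map_one, mul_one]
    rw [← h]
    calc x i₀ ^ n * x y ^ k = x i₀ ^ (n - k + k) * x y ^ k := by rw [hk']
      _ = _ := by rw [pow_add]; ring

/-- the power of a fractional linear expression -/
theorem mob_pow {σ : Type} [DecidableEq σ] {y i₀ i₁ i₂ i₃ : σ} (h0 : y ≠ i₀) (h1 : y ≠ i₁)
    (h2 : y ≠ i₂) (h3 : y ≠ i₃) (h01 : i₀ ≠ i₁) (h02 : i₀ ≠ i₂) (h03 : i₀ ≠ i₃) (h12 : i₁ ≠ i₂)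
    (h13 : i₁ ≠ i₃) (h23 : i₂ ≠ i₃) {n k : ℕ} (hk : k ≤ n) :
    ∃ F : MvPolynomial σ ℂ, F.degreeOf y ≤ n ∧ (∀ i, i ≠ y → F.degreeOf i ≤ n) ∧
      (∀ i, i ≠ y → i ≠ i₀ → i ≠ i₁ → i ≠ i₂ → i ≠ i₃ → F.degreeOf i = 0) ∧
      ∀ (x : σ → ℂ) (w : ℂ), w * (x i₂ * x y + x i₃) = x i₀ * x y + x i₁ →
        (x i₂ * x y + x i₃) ^ n * w ^ k = eval x F := by
  have hk' : n - k + k = n := Nat.sub_add_cancel hk
  have key : ∀ i, i ≠ y → ((X i₂ * X y + X i₃ * 1) ^ (n - k) * (X i₀ * X y + X i₁ * 1) ^ k :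
      MvPolynomial σ ℂ).degreeOf i ≤
      (n - k) * (if i = i₀ ∨ i = i₁ ∨ i = i₂ ∨ i = i₃ then 1 else 0) +
        k * (if i = i₀ ∨ i = i₁ ∨ i = i₂ ∨ i = i₃ then 1 else 0) := by
    intro i hi
    apply deg_powmul
    · apply deg_lin
      · rw [degX, degX, if_neg hi]; split_ifs <;> simp_all
      · rw [degX, degreeOf_one]; split_ifs <;> simp_all
    · refine (degreeOf_pow_le i _ _).trans (Nat.mul_le_mul_left k ?_)
      apply deg_lin
      · rw [degX, degX, if_neg hi]; split_ifs <;> simp_all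
      · rw [degX, degreeOf_one]; split_ifs <;> simp_all
  refine ⟨(X i₂ * X y + X i₃ * 1) ^ (n - k) * (X i₀ * X y + X i₁ * 1) ^ k, ?_, fun i hi => ?_,
    fun i hi j0 j1 j2 j3 => ?_, fun x w hx => ?_⟩
  · have h := deg_powmul y (X i₂ * X y + X i₃ * 1) ((X i₀ * X y + X i₁ * 1) ^ k) (n - k) (a := 1) (b := k * 1)
      (by
        apply deg_lin
        · rw [degX, degX, if_neg h2, if_pos rfl]
        · rw [degX, degreeOf_one, if_neg h3]; omega)
      (by
        refine (degreeOf_pow_le y _ _).trans (Nat.mul_le_mul_left k ?_)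
        apply deg_lin
        · rw [degX, degX, if_neg h0, if_pos rfl]
        · rw [degX, degreeOf_one, if_neg h1]; omega)
    omega
  · refine (key i hi).trans ?_
    split_ifs <;> omega
  · have h := key i hi
    rw [if_neg (by tauto)] at h
    simpa using h
  · simp only [map_add, map_mul, map_pow, eval_X, map_one, mul_one]
    rw [← hx]
    calc (x i₂ * x y + x i₃) ^ n * w ^ k = (x i₂ * x y + x i₃) ^ (n - k + k) * w ^ k := by rw [hk']
      _ = _ := by rw [pow_add, mul_pow]; ring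

end Pool.Agent.LGO.PWG
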