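import Mathlib
import Pool.Agent.LGO.PWG.Typ
import Pool.Agent.LGO.PWG.GrowA
import Pool.Agent.LGO.PWG.GrowQ
import Pool.Agent.LGO.PWC.Grow

/-!
# LGO/PWG: growth of the ranks for the four types of special points

PROOFS.  `grw1`: `PWC.grow` (proved by helper20): `ρ (b + 1) ^ 3 ≤ (3 b + 1) rk ≤ 3 (b + 1) rk`; divide by `b + 1`.
The others by `grow_poly`:
* `grw2`: `y = (z 0, z 2)`, `D = (2 b, 2 b)`, `Om = (v₂ z₀ + v₃) ^ b (v₆ z₂ + v₇) ^ b`; the polynomial for `γ` is
  `X_(y 0) ^ γ₀ X_(y 1) ^ γ₂` times the two polynomials of `mob_pow` (`n = b`, `k = γ₁` resp. `γ₃`).  It gives `ρ (b + 1) ^ 4 ≤ (2 b + 1) ^ 2 rk ≤ 4 (b + 1) ^ 2 rk`.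
* `grw3`: `y = (z 0, z 2)`, `D = (2 b, 1)`, `Om = (v₂ z₀ + v₃) ^ b v₄ ^ b`: `ρ (b + 1) ^ 3 ≤ (2 b + 1) 2 rk ≤ 4 (b + 1) rk`; polynomial
  `X_(y 0) ^ γ₀` times `mob_pow` for `γ₁` times `quad_pow` for `γ₂` (`n = b`).
* `grw4`: `y = (z 0, z 1)`, `D = (1, 1)`, `Om = v₀ ^ b v₃ ^ b`: `ρ (b + 1) ^ 2 ≤ 4 rk`; the product of the two polynomials of `quad_pow`.
The sets of the coefficient variables of the two factors are disjoint, so the degrees in `v k` are at most `b` (one factor has degree `0`).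
-/

namespace Pool.Agent.LGO.PWG

open MvPolynomial

private theorem Grow_dX {p : ℕ} (i : Fin p) (n : ℕ) (j : Fin p ⊕ Fin 8) :
    (X (Sum.inl i) ^ n : MvPolynomial (Fin p ⊕ Fin 8) ℂ).degreeOf j ≤
      if j = Sum.inl i then n else 0 := by
  refine (degreeOf_pow_le _ _ _).trans ?_
  rw [degreeOf_X]
  split_ifs <;> simp

private theorem Grow_arith1 {R r b c N : ℕ} (h : R * (b + 1) ^ 3 ≤ c * r) (hc : c ≤ N * (b + 1)) :
    R * (b + 1) ^ 2 ≤ N * r := by
  have h1 : (b + 1) * (R * (b + 1) ^ 2) ≤ (b + 1) * (N * r) := by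
    calc (b + 1) * (R * (b + 1) ^ 2) = R * (b + 1) ^ 3 := by ring
      _ ≤ c * r := h
      _ ≤ N * (b + 1) * r := Nat.mul_le_mul_right _ hc
      _ = (b + 1) * (N * r) := by ring
  exact Nat.le_of_mul_le_mul_left h1 (Nat.succ_pos b)

theorem grw1 (z : Fin 3 → ℂ → ℂ) (v : ℂ → Fin 8 → ℤ) : Grw z v (PWC.Rel z v) := by
  intro S hS b ρ t hli
  have h := PWC.grow hS t hli
  exact (Grow_arith1 (N := 3) h (by omega)).trans (Nat.mul_le_mul_right _ (by norm_num))

theorem grw2 (z : Fin 4 → ℂ → ℂ) (v : ℂ → Fin 8 → ℤ) : Grw z v (Rel2 z v) := by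
  intro S hS b ρ t hli
  have h := grow_poly (y := ![z 0, z 2]) (D := ![2 * b, 2 * b])
    (Om := fun s => ((v s 2 : ℂ) * z 0 s + (v s 3 : ℂ)) ^ b * ((v s 6 : ℂ) * z 2 s + (v s 7 : ℂ)) ^ b)
    (fun s hs => mul_ne_zero (pow_ne_zero _ (hS s hs).d1) (pow_ne_zero _ (hS s hs).d2)) ?_ t hli
  · rw [Fin.prod_univ_two] at h
    simp only [Matrix.cons_val_zero, Matrix.cons_val_one] at h
    have h1 : ρ * (b + 1) ^ 2 * (b + 1) ^ 2 ≤ 4 * PWC.rk v S (2 * b) * (b + 1) ^ 2 := by
      calc ρ * (b + 1) ^ 2 * (b + 1) ^ 2 = ρ * (b + 1) ^ 4 := by ring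
        _ ≤ (2 * b + 1) * (2 * b + 1) * PWC.rk v S (2 * b) := h
        _ ≤ (2 * (b + 1)) * (2 * (b + 1)) * PWC.rk v S (2 * b) :=
          Nat.mul_le_mul_right _ (Nat.mul_le_mul (by omega) (by omega))
        _ = 4 * PWC.rk v S (2 * b) * (b + 1) ^ 2 := by ring
    exact Nat.le_of_mul_le_mul_right h1 (by positivity)
  · intro γ
    have hγ : ∀ i, (γ i : ℕ) ≤ b := fun i => Nat.lt_succ_iff.1 (γ i).isLt
    obtain ⟨F₁, a1, a2, a3, a4⟩ := mob_pow (σ := Fin 2 ⊕ Fin 8) (y := Sum.inl 0) (i₀ := Sum.inr 0)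
      (i₁ := Sum.inr 1) (i₂ := Sum.inr 2) (i₃ := Sum.inr 3) (by decide) (by decide) (by decide)
      (by decide) (by decide) (by decide) (by decide) (by decide) (by decide) (by decide)
      (n := b) (k := γ 1) (hγ 1)
    obtain ⟨F₂, b1, b2, b3, b4⟩ := mob_pow (σ := Fin 2 ⊕ Fin 8) (y := Sum.inl 1) (i₀ := Sum.inr 4)
      (i₁ := Sum.inr 5) (i₂ := Sum.inr 6) (i₃ := Sum.inr 7) (by decide) (by decide) (by decide)
      (by decide) (by decide) (by decide) (by decide) (by decide) (by decide) (by decide)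
      (n := b) (k := γ 3) (hγ 3)
    have hdeg : ∀ j, (X (Sum.inl 0) ^ (γ 0 : ℕ) * X (Sum.inl 1) ^ (γ 2 : ℕ) * F₁ * F₂ :
        MvPolynomial (Fin 2 ⊕ Fin 8) ℂ).degreeOf j ≤ (if j = Sum.inl 0 then (γ 0 : ℕ) else 0) +
        (if j = Sum.inl 1 then (γ 2 : ℕ) else 0) + F₁.degreeOf j + F₂.degreeOf j := by
      intro j
      refine (degreeOf_mul_le _ _ _).trans (Nat.add_le_add_right ?_ _)
      refine (degreeOf_mul_le _ _ _).trans (Nat.add_le_add_right ?_ _)
      refine (degreeOf_mul_le _ _ _).trans (add_le_add (Grow_dX _ _ _) (Grow_dX _ _ _))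
    refine ⟨X (Sum.inl 0) ^ (γ 0 : ℕ) * X (Sum.inl 1) ^ (γ 2 : ℕ) * F₁ * F₂, ?_, ?_, ?_⟩
    · intro i
      refine (hdeg _).trans ?_
      have e0 := hγ 0
      have e2 := hγ 2
      fin_cases i
      · have c1 := b3 (Sum.inl 0) (by decide) (by decide) (by decide) (by decide) (by decide)
        simp
        omega
      · have c1 := a3 (Sum.inl 1) (by decide) (by decide) (by decide) (by decide) (by decide)
        simp
        omega
    · intro k
      refine (hdeg _).trans ?_
      rw [if_neg (by simp), if_neg (by simp)]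
      have d1 := a2 (Sum.inr k) (by simp)
      have d2 := b2 (Sum.inr k) (by simp)
      fin_cases k
      · have c1 := b3 (Sum.inr 0) (by decide) (by decide) (by decide) (by decide) (by decide)
        simp at d1 d2 ⊢
        omega
      · have c1 := b3 (Sum.inr 1) (by decide) (by decide) (by decide) (by decide) (by decide)
        simp at d1 d2 ⊢
        omega
      · have c1 := b3 (Sum.inr 2) (by decide) (by decide) (by decide) (by decide) (by decide)
        simp at d1 d2 ⊢
        omega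
      · have c1 := b3 (Sum.inr 3) (by decide) (by decide) (by decide) (by decide) (by decide)
        simp at d1 d2 ⊢
        omega
      · have c1 := a3 (Sum.inr 4) (by decide) (by decide) (by decide) (by decide) (by decide)
        simp at d1 d2 ⊢
        omega
      · have c1 := a3 (Sum.inr 5) (by decide) (by decide) (by decide) (by decide) (by decide)
        simp at d1 d2 ⊢
        omega
      · have c1 := a3 (Sum.inr 6) (by decide) (by decide) (by decide) (by decide) (by decide)
        simp at d1 d2 ⊢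
        omega
      · have c1 := a3 (Sum.inr 7) (by decide) (by decide) (by decide) (by decide) (by decide)
        simp at d1 d2 ⊢
        omega
    · intro s hs
      have f1 := a4 (Sum.elim (fun i => (![z 0, z 2] : Fin 2 → ℂ → ℂ) i s) fun k => (v s k : ℂ)) (z 1 s)
        (hS s hs).r1
      have f2 := b4 (Sum.elim (fun i => (![z 0, z 2] : Fin 2 → ℂ → ℂ) i s) fun k => (v s k : ℂ)) (z 3 s)
        (hS s hs).r2
      rw [map_mul, map_mul, map_mul, map_pow, map_pow, eval_X, eval_X, ← f1, ← f2, Fin.prod_univ_four]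
      simp only [Sum.elim_inl, Sum.elim_inr, Matrix.cons_val_zero, Matrix.cons_val_one]
      ring

theorem grw3 (z : Fin 3 → ℂ → ℂ) (v : ℂ → Fin 8 → ℤ) : Grw z v (Rel3 z v) := by
  intro S hS b ρ t hli
  have h := grow_poly (y := ![z 0, z 2]) (D := ![2 * b, 1])
    (Om := fun s => ((v s 2 : ℂ) * z 0 s + (v s 3 : ℂ)) ^ b * (v s 4 : ℂ) ^ b)
    (fun s hs => mul_ne_zero (pow_ne_zero _ (hS s hs).d1) (pow_ne_zero _ (hS s hs).d2)) ?_ t hli
  · rw [Fin.prod_univ_two] at h
    simp only [Matrix.cons_val_zero, Matrix.cons_val_one] at h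
    exact Grow_arith1 h (by omega)
  · intro γ
    have hγ : ∀ i, (γ i : ℕ) ≤ b := fun i => Nat.lt_succ_iff.1 (γ i).isLt
    obtain ⟨F₁, a1, a2, a3, a4⟩ := mob_pow (σ := Fin 2 ⊕ Fin 8) (y := Sum.inl 0) (i₀ := Sum.inr 0)
      (i₁ := Sum.inr 1) (i₂ := Sum.inr 2) (i₃ := Sum.inr 3) (by decide) (by decide) (by decide)
      (by decide) (by decide) (by decide) (by decide) (by decide) (by decide) (by decide)
      (n := b) (k := γ 1) (hγ 1)
    obtain ⟨F₂, b1, b2, b3, b4⟩ := quad_pow (σ := Fin 2 ⊕ Fin 8) (y := Sum.inl 1) (i₀ := Sum.inr 4)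
      (i₁ := Sum.inr 5) (i₂ := Sum.inr 6) (by decide) (by decide) (by decide)
      (by decide) (by decide) (by decide) (n := b) (k := γ 2) (hγ 2)
    have hdeg : ∀ j, (X (Sum.inl 0) ^ (γ 0 : ℕ) * F₁ * F₂ :
        MvPolynomial (Fin 2 ⊕ Fin 8) ℂ).degreeOf j ≤ (if j = Sum.inl 0 then (γ 0 : ℕ) else 0) +
        F₁.degreeOf j + F₂.degreeOf j := by
      intro j
      refine (degreeOf_mul_le _ _ _).trans (Nat.add_le_add_right ?_ _)
      refine (degreeOf_mul_le _ _ _).trans (Nat.add_le_add_right (Grow_dX _ _ _) _)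
    refine ⟨X (Sum.inl 0) ^ (γ 0 : ℕ) * F₁ * F₂, ?_, ?_, ?_⟩
    · intro i
      refine (hdeg _).trans ?_
      have e0 := hγ 0
      fin_cases i
      · have c1 := b3 (Sum.inl 0) (by decide) (by decide) (by decide) (by decide)
        simp
        omega
      · have c1 := a3 (Sum.inl 1) (by decide) (by decide) (by decide) (by decide) (by decide)
        simp
        omega
    · intro k
      refine (hdeg _).trans ?_
      rw [if_neg (by simp)]
      have d1 := a2 (Sum.inr k) (by simp)
      have d2 := b2 (Sum.inr k) (by simp)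
      fin_cases k
      · have c1 := b3 (Sum.inr 0) (by decide) (by decide) (by decide) (by decide)
        simp at d1 d2 ⊢
        omega
      · have c1 := b3 (Sum.inr 1) (by decide) (by decide) (by decide) (by decide)
        simp at d1 d2 ⊢
        omega
      · have c1 := b3 (Sum.inr 2) (by decide) (by decide) (by decide) (by decide)
        simp at d1 d2 ⊢
        omega
      · have c1 := b3 (Sum.inr 3) (by decide) (by decide) (by decide) (by decide)
        simp at d1 d2 ⊢
        omega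
      · have c1 := a3 (Sum.inr 4) (by decide) (by decide) (by decide) (by decide) (by decide)
        simp at d1 d2 ⊢
        omega
      · have c1 := a3 (Sum.inr 5) (by decide) (by decide) (by decide) (by decide) (by decide)
        simp at d1 d2 ⊢
        omega
      · have c1 := a3 (Sum.inr 6) (by decide) (by decide) (by decide) (by decide) (by decide)
        simp at d1 d2 ⊢
        omega
      · have c1 := a3 (Sum.inr 7) (by decide) (by decide) (by decide) (by decide) (by decide)
        simp at d1 d2 ⊢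
        omega
    · intro s hs
      have f1 := a4 (Sum.elim (fun i => (![z 0, z 2] : Fin 2 → ℂ → ℂ) i s) fun k => (v s k : ℂ)) (z 1 s)
        (hS s hs).r1
      have f2 := b4 (Sum.elim (fun i => (![z 0, z 2] : Fin 2 → ℂ → ℂ) i s) fun k => (v s k : ℂ))
        (hS s hs).r2
      rw [map_mul, map_mul, map_pow, eval_X, ← f1, ← f2, Fin.prod_univ_three]
      simp only [Sum.elim_inl, Sum.elim_inr, Matrix.cons_val_zero, Matrix.cons_val_one]
      ring

theorem grw4 (z : Fin 2 → ℂ → ℂ) (v : ℂ → Fin 8 → ℤ) : Grw z v (Rel4 z v) := by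
  intro S hS b ρ t hli
  have h := grow_poly (y := ![z 0, z 1]) (D := ![1, 1])
    (Om := fun s => (v s 0 : ℂ) ^ b * (v s 3 : ℂ) ^ b)
    (fun s hs => mul_ne_zero (pow_ne_zero _ (hS s hs).d1) (pow_ne_zero _ (hS s hs).d2)) ?_ t hli
  · rw [Fin.prod_univ_two] at h
    simp only [Matrix.cons_val_zero, Matrix.cons_val_one] at h
    exact h
  · intro γ
    have hγ : ∀ i, (γ i : ℕ) ≤ b := fun i => Nat.lt_succ_iff.1 (γ i).isLt
    obtain ⟨F₁, a1, a2, a3, a4⟩ := quad_pow (σ := Fin 2 ⊕ Fin 8) (y := Sum.inl 0) (i₀ := Sum.inr 0)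
      (i₁ := Sum.inr 1) (i₂ := Sum.inr 2) (by decide) (by decide) (by decide)
      (by decide) (by decide) (by decide) (n := b) (k := γ 0) (hγ 0)
    obtain ⟨F₂, b1, b2, b3, b4⟩ := quad_pow (σ := Fin 2 ⊕ Fin 8) (y := Sum.inl 1) (i₀ := Sum.inr 3)
      (i₁ := Sum.inr 4) (i₂ := Sum.inr 5) (by decide) (by decide) (by decide)
      (by decide) (by decide) (by decide) (n := b) (k := γ 1) (hγ 1)
    refine ⟨F₁ * F₂, ?_, ?_, ?_⟩
    · intro i
      refine (degreeOf_mul_le _ _ _).trans ?_
      fin_cases i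
      · have c1 := b3 (Sum.inl 0) (by decide) (by decide) (by decide) (by decide)
        simp
        omega
      · have c1 := a3 (Sum.inl 1) (by decide) (by decide) (by decide) (by decide)
        simp
        omega
    · intro k
      refine (degreeOf_mul_le _ _ _).trans ?_
      have d1 := a2 (Sum.inr k) (by simp)
      have d2 := b2 (Sum.inr k) (by simp)
      fin_cases k
      · have c1 := b3 (Sum.inr 0) (by decide) (by decide) (by decide) (by decide)
        simp at d1 d2 ⊢
        omega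
      · have c1 := b3 (Sum.inr 1) (by decide) (by decide) (by decide) (by decide)
        simp at d1 d2 ⊢
        omega
      · have c1 := b3 (Sum.inr 2) (by decide) (by decide) (by decide) (by decide)
        simp at d1 d2 ⊢
        omega
      · have c1 := a3 (Sum.inr 3) (by decide) (by decide) (by decide) (by decide)
        simp at d1 d2 ⊢
        omega
      · have c1 := a3 (Sum.inr 4) (by decide) (by decide) (by decide) (by decide)
        simp at d1 d2 ⊢
        omega
      · have c1 := a3 (Sum.inr 5) (by decide) (by decide) (by decide) (by decide)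
        simp at d1 d2 ⊢
        omega
      · have c1 := a3 (Sum.inr 6) (by decide) (by decide) (by decide) (by decide)
        simp at d1 d2 ⊢
        omega
      · have c1 := a3 (Sum.inr 7) (by decide) (by decide) (by decide) (by decide)
        simp at d1 d2 ⊢
        omega
    · intro s hs
      have f1 := a4 (Sum.elim (fun i => (![z 0, z 1] : Fin 2 → ℂ → ℂ) i s) fun k => (v s k : ℂ))
        (hS s hs).r1
      have f2 := b4 (Sum.elim (fun i => (![z 0, z 1] : Fin 2 → ℂ → ℂ) i s) fun k => (v s k : ℂ))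
        (hS s hs).r2
      rw [map_mul, ← f1, ← f2, Fin.prod_univ_two]
      simp only [Sum.elim_inl, Sum.elim_inr, Matrix.cons_val_zero, Matrix.cons_val_one]
      ring

end Pool.Agent.LGO.PWG
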