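import Mathlib
import Pool.Agent.LGO.PWG.FamZ
import Pool.Agent.LGO.PWC.C3

/-!
# LGO/PWG (port of PWC/C3, `fam_fl`, to m functions)
-/

namespace Pool.Agent.LGO.PWG

open Metric MvPolynomial

open PWC (FL)

private theorem C3_prod_ge (Z : List ℂ) (v : ℂ) (g : ℂ → ℝ) (hg : ∀ ζ ∈ Z, 0 ≤ g ζ)
    (h : ∀ ζ ∈ Z, g ζ ≤ ‖v - ζ‖) : (Z.map g).prod ≤ ‖(Z.map fun ζ => v - ζ).prod‖ := by
  induction Z with
  | nil => simp
  | cons x Z ih =>
    simp only [List.map_cons, List.prod_cons, norm_mul]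
    have h1 := h x (by simp)
    refine mul_le_mul h1 (ih (fun ζ hζ => hg ζ (by simp [hζ])) fun ζ hζ => h ζ (by simp [hζ]))
      ?_ (norm_nonneg _)
    exact List.prod_nonneg (by
      intro a ha
      obtain ⟨ζ, hζ, rfl⟩ := List.mem_map.1 ha
      exact hg ζ (by simp [hζ]))

private theorem C3_sep (Z : Finset ℂ) (p : ℕ) (hZ : Z.card ≤ p) (w : ℂ) :
    ∃ s : ℂ, ‖s - w‖ ≤ 1 / 3 ∧ ∀ ζ ∈ Z, 1 / (6 * ((p : ℝ) + 1)) ≤ ‖s - ζ‖ := by
  by_contra hcon
  push Not at hcon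
  have hp : (0 : ℝ) < (p : ℝ) + 1 := by positivity
  have hk : ∀ k : Fin (p + 1), ∃ ζ ∈ Z, ‖(w + (((k : ℕ) : ℝ) / (3 * ((p : ℝ) + 1)) : ℝ)) - ζ‖ <
      1 / (6 * ((p : ℝ) + 1)) := by
    intro k
    refine hcon _ ?_
    rw [add_sub_cancel_left, Complex.norm_real, Real.norm_eq_abs, abs_of_nonneg (by positivity),
      div_le_div_iff₀ (by positivity) (by norm_num)]
    have h1 : ((k : ℕ) : ℝ) ≤ (p : ℝ) := by
      have := k.2
      exact_mod_cast (by omega : (k : ℕ) ≤ p)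
    nlinarith
  choose g hgZ hg using hk
  have hcard : Z.card < (Finset.univ : Finset (Fin (p + 1))).card := by
    rw [Finset.card_univ, Fintype.card_fin]
    omega
  obtain ⟨k, _, l, _, hkl, hgkl⟩ := Finset.exists_ne_map_eq_of_card_lt_of_maps_to hcard
    (fun k _ => hgZ k)
  have h1 := hg k
  have h2 := hg l
  rw [hgkl] at h1
  have e1 : ((w + (((k : ℕ) : ℝ) / (3 * ((p : ℝ) + 1)) : ℝ)) - g l) -
      ((w + (((l : ℕ) : ℝ) / (3 * ((p : ℝ) + 1)) : ℝ)) - g l) =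
      (((((k : ℕ) : ℝ) - ((l : ℕ) : ℝ)) / (3 * ((p : ℝ) + 1)) : ℝ) : ℂ) := by
    push_cast
    ring
  have h3 := norm_sub_le ((w + (((k : ℕ) : ℝ) / (3 * ((p : ℝ) + 1)) : ℝ)) - g l)
    ((w + (((l : ℕ) : ℝ) / (3 * ((p : ℝ) + 1)) : ℝ)) - g l)
  rw [e1, Complex.norm_real, Real.norm_eq_abs, abs_div, abs_of_pos (by positivity :
    (0 : ℝ) < 3 * ((p : ℝ) + 1))] at h3
  have h4 : (1 : ℝ) ≤ |((k : ℕ) : ℝ) - ((l : ℕ) : ℝ)| := by
    have h5 : ((k : ℕ) : ℤ) - ((l : ℕ) : ℤ) ≠ 0 := by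
      intro h
      apply hkl
      apply Fin.ext
      omega
    have h6 : (1 : ℤ) ≤ |((k : ℕ) : ℤ) - ((l : ℕ) : ℤ)| := Int.one_le_abs h5
    exact_mod_cast h6
  have h5 : 1 / (3 * ((p : ℝ) + 1)) ≤ |((k : ℕ) : ℝ) - ((l : ℕ) : ℝ)| / (3 * ((p : ℝ) + 1)) :=
    div_le_div_of_nonneg_right h4 (by positivity)
  have h6 : 1 / (3 * ((p : ℝ) + 1)) = 1 / (6 * ((p : ℝ) + 1)) + 1 / (6 * ((p : ℝ) + 1)) := by
    field_simp
    norm_num
  linarith

private theorem C3_fl (C : ℝ) : ∃ (n : ℕ) (D : ℝ), 1 ≤ D ∧ ∀ (w : ℂ) (f : ℂ → ℂ) (c : ℝ), 0 < c →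
    DifferentiableOn ℂ f (ball w 3) → (∀ s ∈ ball w 3, ‖f s‖ ≤ C * c) →
    (∃ s ∈ closedBall w 1, c ≤ C * ‖f s‖) → ∀ y ∈ closedBall w 1, FL n D (1 / 3) y f := by
  classical
  obtain ⟨p, C', hC', hz⟩ := PW.zeros C
  set δ : ℝ := 1 / (6 * ((p : ℝ) + 1)) with hδ
  have hp : (0 : ℝ) < (p : ℝ) + 1 := by positivity
  have hδ0 : 0 < δ := by positivity
  have hδ1 : δ ≤ 1 := by
    rw [hδ, div_le_one (by positivity)]
    have : (0 : ℝ) ≤ (p : ℝ) := by positivity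
    linarith
  set C3 : ℝ := max C (C' / δ ^ p) with hC3
  obtain ⟨n, D, hD, hz3⟩ := PW.zeros C3
  refine ⟨n, D ^ 2, one_le_pow₀ hD, ?_⟩
  intro w f c hc hf hle hex y hy
  obtain ⟨U, Z, hfac⟩ := hz w f c hc hf hle hex
  obtain ⟨s1, hs1, hs1Z⟩ := C3_sep Z.toFinset p ((List.toFinset_card_le Z).trans hfac.len) w
  have hs1w : s1 ∈ closedBall w 1 := by
    rw [mem_closedBall, dist_eq_norm]
    linarith
  have hs1b : s1 ∈ ball w 2 := closedBall_subset_ball (by norm_num) hs1w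
  have hlow : c ≤ (C' / δ ^ p) * ‖f s1‖ := by
    have h1 := hfac.lower s1 hs1w
    have h2 : δ ^ Z.length ≤ ‖(Z.map fun ζ => s1 - ζ).prod‖ := by
      have h3 := C3_prod_ge Z s1 (fun _ => δ) (fun _ _ => hδ0.le)
        (fun ζ hζ => hs1Z ζ (by simpa using hζ))
      simpa using h3
    have h3 : δ ^ p ≤ δ ^ Z.length := pow_le_pow_of_le_one hδ0.le hδ1 hfac.len
    rw [hfac.eq s1 hs1b, norm_mul, norm_mul, Complex.norm_real, Real.norm_eq_abs, abs_of_pos hc]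
    have h4 : 0 < δ ^ p := by positivity
    rw [div_mul_eq_mul_div, le_div_iff₀ h4]
    have h5 : 0 ≤ C' * ‖U s1‖ := by linarith
    calc c * δ ^ p ≤ c * ‖(Z.map fun ζ => s1 - ζ).prod‖ :=
          mul_le_mul_of_nonneg_left (h3.trans h2) hc.le
      _ = 1 * (c * ‖(Z.map fun ζ => s1 - ζ).prod‖) := by ring
      _ ≤ (C' * ‖U s1‖) * (c * ‖(Z.map fun ζ => s1 - ζ).prod‖) :=
          mul_le_mul_of_nonneg_right h1 (by positivity)
      _ = C' * (c * ‖U s1‖ * ‖(Z.map fun ζ => s1 - ζ).prod‖) := by ring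
  -- the second factorisation
  set w' : ℂ := (w + y) / 2 with hw'
  have hyw : ‖y - w‖ ≤ 1 := by rwa [mem_closedBall, dist_eq_norm] at hy
  have hw'w : ‖w' - w‖ ≤ 1 / 2 := by
    have e : w' - w = (y - w) / 2 := by rw [hw']; ring
    rw [e, norm_div]
    have : ‖(2 : ℂ)‖ = 2 := by norm_num
    rw [this]
    linarith
  have hw'y : ‖y - w'‖ ≤ 1 / 2 := by
    have e : y - w' = (y - w) / 2 := by rw [hw']; ring
    rw [e, norm_div]
    have : ‖(2 : ℂ)‖ = 2 := by norm_num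
    rw [this]
    linarith
  have h56 : ‖(5 / 6 : ℂ)‖ = 5 / 6 := by norm_num
  have hmap : ∀ t ∈ ball (0 : ℂ) 3, w' + 5 / 6 * t ∈ ball w 3 := by
    intro t ht
    rw [mem_ball_zero_iff] at ht
    rw [mem_ball, dist_eq_norm]
    have e : w' + 5 / 6 * t - w = (w' - w) + 5 / 6 * t := by ring
    rw [e]
    have h1 := norm_add_le (w' - w) (5 / 6 * t)
    rw [norm_mul, h56] at h1
    linarith
  set F : ℂ → ℂ := fun t => f (w' + 5 / 6 * t) with hF
  have hFd : DifferentiableOn ℂ F (ball 0 3) := by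
    refine hf.comp ?_ hmap
    exact ((differentiable_const _).add ((differentiable_const _).mul differentiable_id)).differentiableOn
  have hFle : ∀ t ∈ ball (0 : ℂ) 3, ‖F t‖ ≤ C3 * c := by
    intro t ht
    exact (hle _ (hmap t ht)).trans (mul_le_mul_of_nonneg_right (le_max_left _ _) hc.le)
  have hFex : ∃ t ∈ closedBall (0 : ℂ) 1, c ≤ C3 * ‖F t‖ := by
    refine ⟨6 / 5 * (s1 - w'), ?_, ?_⟩
    · rw [mem_closedBall_zero_iff, norm_mul]
      have e1 : ‖(6 / 5 : ℂ)‖ = 6 / 5 := by norm_num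
      have e2 : s1 - w' = (s1 - w) - (w' - w) := by ring
      have e3 := norm_sub_le (s1 - w) (w' - w)
      rw [← e2] at e3
      rw [e1]
      linarith
    · have e : F (6 / 5 * (s1 - w')) = f s1 := by
        rw [hF]
        simp only
        congr 1
        ring
      rw [e]
      exact hlow.trans (mul_le_mul_of_nonneg_right (le_max_right _ _) (norm_nonneg _))
  obtain ⟨V, Y, hfac2⟩ := hz3 0 F c hc hFd hFle hFex
  have hinv : ∀ s ∈ closedBall y (1 / 3), 6 / 5 * (s - w') ∈ closedBall (0 : ℂ) 1 := by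
    intro s hs
    rw [mem_closedBall, dist_eq_norm] at hs
    rw [mem_closedBall_zero_iff, norm_mul]
    have e1 : ‖(6 / 5 : ℂ)‖ = 6 / 5 := by norm_num
    have e2 : s - w' = (s - y) + (y - w') := by ring
    have e3 := norm_add_le (s - y) (y - w')
    rw [← e2] at e3
    rw [e1]
    linarith
  have hD0 : (0 : ℝ) < D := by linarith
  refine ⟨Y.map fun ζ => w' + 5 / 6 * ζ, fun s => c * V (6 / 5 * (s - w')) * (6 / 5) ^ Y.length,
    c / D * (6 / 5) ^ Y.length, ?_, by positivity, ?_, ?_, ?_⟩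
  · simpa using hfac2.len
  · intro s hs
    have h1 := hfac2.eq (6 / 5 * (s - w')) (closedBall_subset_ball (by norm_num) (hinv s hs))
    have e : F (6 / 5 * (s - w')) = f s := by
      rw [hF]
      simp only
      congr 1
      ring
    rw [e] at h1
    rw [h1, List.map_map]
    have e2 : ∀ L : List ℂ, (L.map (fun ζ => 6 / 5 * (s - w') - ζ)).prod =
        (6 / 5) ^ L.length * (L.map ((fun ζ => s - ζ) ∘ fun ζ => w' + 5 / 6 * ζ)).prod := by
      intro L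
      induction L with
      | nil => simp
      | cons x L ih =>
        simp only [List.map_cons, List.prod_cons, List.length_cons, ih, Function.comp]
        ring
    rw [e2 Y]
    ring
  · intro s hs
    have h1 := hfac2.upper (6 / 5 * (s - w')) (closedBall_subset_ball (by norm_num) (hinv s hs))
    rw [norm_mul, norm_mul, Complex.norm_real, Real.norm_eq_abs, abs_of_pos hc, norm_pow]
    have e1 : ‖(6 / 5 : ℂ)‖ = 6 / 5 := by norm_num
    rw [e1]
    have e2 : D ^ 2 * (c / D * (6 / 5) ^ Y.length) = c * D * (6 / 5) ^ Y.length := by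
      field_simp
    rw [e2]
    exact mul_le_mul_of_nonneg_right (mul_le_mul_of_nonneg_left h1 hc.le) (by positivity)
  · intro s hs
    have h1 := hfac2.lower (6 / 5 * (s - w')) (hinv s hs)
    rw [norm_mul, norm_mul, Complex.norm_real, Real.norm_eq_abs, abs_of_pos hc, norm_pow]
    have e1 : ‖(6 / 5 : ℂ)‖ = 6 / 5 := by norm_num
    rw [e1]
    refine mul_le_mul_of_nonneg_right ?_ (by positivity)
    rw [div_le_iff₀ hD0]
    nlinarith

theorem fam_fl {Ω Cn : Set ℂ} {m : ℕ} {z : Fin m → ℂ → ℂ} {ρ : ℂ → ℝ} (hF : Fam Ω Cn z ρ) (d : ℕ) :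
    ∃ (n : ℕ) (C : ℝ), 1 ≤ C ∧ ∀ w ∈ Cn, ∀ G : MvPolynomial (Fin m) ℂ, G ≠ 0 →
      G.totalDegree ≤ d → ∀ y ∈ closedBall w 1,
        FL n C (1 / 3) y (fun s => eval (fun a => z a s) G) := by
  obtain ⟨C, _, hdbl⟩ := hF.dbl d
  obtain ⟨n, D, hD, hfl⟩ := C3_fl (C : ℝ)
  refine ⟨n, D, hD, ?_⟩
  intro w hw G hG hd y hy
  obtain ⟨c, hc, _, hup, hlo⟩ := hdbl w hw G hG hd
  refine hfl w _ c hc ?_ hup hlo y hy
  have hsub := hF.ball w hw
  have he : (fun s => eval (fun a => z a s) G) =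
      fun s => ∑ d ∈ G.support, G.coeff d * ∏ i, z i s ^ d i := by
    funext s
    rw [eval_eq']
  rw [he]
  refine DifferentiableOn.fun_sum fun d _ => ?_
  refine DifferentiableOn.mul (differentiableOn_const _) ?_
  refine DifferentiableOn.fun_finsetProd fun i _ => ?_
  exact ((hF.an i).mono hsub).pow _

end Pool.Agent.LGO.PWG
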