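import Mathlib
import Pool.Agent.LGO.PWC.Defs
import Pool.Agent.LGO.PWG.Defs

/-!
# LGO/PWG (port to m functions): Pluecker coordinates and Cramer's rule

`pl ξ ι` is the determinant of the rows `ξ (ι i)`, `i : Fin ρ`.

PROOFS.  `pl_deg`: expansion of the determinant, `totalDegree` of a product of `ρ` entries (signs do not matter).
`pl_t`: the matrix is `P • 1`.  `pl_cramer`: let `M` be the complex matrix with rows `eval (ξ (ι i) ·)` and `c = eval (ξ α ·)`.
`Matrix.mulVec_cramer` for the transpose: `∑_i det(M with row i replaced by c) M_(i j) = det M c_j` for all `j`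
(`Matrix.cramer_transpose_apply`).  Multiply by `mon v (t j) s` and sum over `j`: by `h` the left side is
`∑_i det(..) eval P mon v (ι i) s` and the right side `det M eval P mon v α s`; divide by `eval P ≠ 0`.  `eval` of a determinant is
the determinant of the values (`RingHom.map_det`).
-/

namespace Pool.Agent.LGO.PWG

open Metric MvPolynomial

open PWC (mon)

variable {m : ℕ}

/-- the determinant of the rows `ξ (ι i)` -/
noncomputable def pl {b ρ : ℕ} (ξ : (Fin 8 → Fin (b + 1)) → Fin ρ → MvPolynomial (Fin m) ℂ)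
    (ι : Fin ρ → Fin 8 → Fin (b + 1)) : MvPolynomial (Fin m) ℂ :=
  Matrix.det (Matrix.of fun i j => ξ (ι i) j)

theorem pl_deg {b ρ d : ℕ} {ξ : (Fin 8 → Fin (b + 1)) → Fin ρ → MvPolynomial (Fin m) ℂ}
    (h : ∀ α j, (ξ α j).totalDegree ≤ d) (ι : Fin ρ → Fin 8 → Fin (b + 1)) :
    (pl ξ ι).totalDegree ≤ ρ * d := by
  rw [pl, Matrix.det_apply]
  refine (MvPolynomial.totalDegree_finsetSum _ _).trans (Finset.sup_le fun σ _ => ?_)
  have h1 : (∏ i, Matrix.of (fun i j => ξ (ι i) j) (σ i) i).totalDegree ≤ ρ * d := by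
    refine (MvPolynomial.totalDegree_finsetProd _ _).trans ?_
    refine (Finset.sum_le_card_nsmul _ _ d fun i _ => ?_).trans ?_
    · exact h _ _
    · simp
  rcases Int.units_eq_one_or (Equiv.Perm.sign σ) with hs | hs
  · rw [hs, one_smul]
    exact h1
  · rw [hs, Units.neg_smul, one_smul, MvPolynomial.totalDegree_neg]
    exact h1

theorem pl_t {b ρ : ℕ} {ξ : (Fin 8 → Fin (b + 1)) → Fin ρ → MvPolynomial (Fin m) ℂ}
    {t : Fin ρ → Fin 8 → Fin (b + 1)} {P : MvPolynomial (Fin m) ℂ}
    (h : ∀ i j, ξ (t i) j = if i = j then P else 0) : pl ξ t = P ^ ρ := by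
  have h1 : (Matrix.of fun i j => ξ (t i) j) = Matrix.diagonal fun _ : Fin ρ => P := by
    ext1 i j
    rw [Matrix.of_apply, h i j, Matrix.diagonal_apply]
  rw [pl, h1, Matrix.det_diagonal, Finset.prod_const, Finset.card_univ, Fintype.card_fin]

private theorem Cramer_eval {b ρ : ℕ} (ξ : (Fin 8 → Fin (b + 1)) → Fin ρ → MvPolynomial (Fin m) ℂ)
    (ι : Fin ρ → Fin 8 → Fin (b + 1)) (x : Fin m → ℂ) :
    eval x (pl ξ ι) = Matrix.det (Matrix.of fun i j => eval x (ξ (ι i) j)) := by
  rw [pl, RingHom.map_det]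
  rfl

theorem pl_cramer {b ρ : ℕ} {ξ : (Fin 8 → Fin (b + 1)) → Fin ρ → MvPolynomial (Fin m) ℂ}
    {t : Fin ρ → Fin 8 → Fin (b + 1)} {P : MvPolynomial (Fin m) ℂ} {v : ℂ → Fin 8 → ℤ}
    {x : Fin m → ℂ} {s : ℂ} (hP : eval x P ≠ 0)
    (h : ∀ α, eval x P * mon v α s = ∑ j, eval x (ξ α j) * mon v (t j) s)
    (ι : Fin ρ → Fin 8 → Fin (b + 1)) (α : Fin 8 → Fin (b + 1)) :
    eval x (pl ξ ι) * mon v α s =
      ∑ i, eval x (pl ξ (Function.update ι i α)) * mon v (ι i) s := by
  set M : Matrix (Fin ρ) (Fin ρ) ℂ := Matrix.of fun i j => eval x (ξ (ι i) j) with hM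
  set c : Fin ρ → ℂ := fun j => eval x (ξ α j) with hc
  have h1 : ∀ i, eval x (pl ξ (Function.update ι i α)) = (M.updateRow i c).det := by
    intro i
    rw [Cramer_eval]
    congr 1
    ext k j
    rw [Matrix.of_apply, Matrix.updateRow_apply]
    by_cases hk : k = i
    · subst hk
      rw [Function.update_self, if_pos rfl]
    · rw [Function.update_of_ne hk, if_neg hk, hM, Matrix.of_apply]
  have h2 : ∀ j, ∑ i, M i j * (M.updateRow i c).det = M.det * c j := by
    intro j
    have h3 := congrFun (Matrix.mulVec_cramer M.transpose c) j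
    rw [Matrix.det_transpose, Pi.smul_apply, smul_eq_mul, Matrix.mulVec, dotProduct] at h3
    rw [← h3]
    refine Finset.sum_congr rfl fun i _ => ?_
    rw [Matrix.cramer_transpose_apply, Matrix.transpose_apply]
  rw [Cramer_eval, ← hM]
  apply mul_left_cancel₀ hP
  calc eval x P * (M.det * mon v α s) = M.det * (eval x P * mon v α s) := by ring
    _ = ∑ j, (M.det * c j) * mon v (t j) s := by
        rw [h α, Finset.mul_sum]
        refine Finset.sum_congr rfl fun j _ => ?_
        rw [hc]; ring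
    _ = ∑ j, ∑ i, M i j * (M.updateRow i c).det * mon v (t j) s := by
        refine Finset.sum_congr rfl fun j _ => ?_
        rw [← h2 j, Finset.sum_mul]
    _ = ∑ i, ∑ j, M i j * (M.updateRow i c).det * mon v (t j) s := Finset.sum_comm
    _ = ∑ i, (M.updateRow i c).det * (eval x P * mon v (ι i) s) := by
        refine Finset.sum_congr rfl fun i _ => ?_
        rw [h (ι i), Finset.mul_sum]
        refine Finset.sum_congr rfl fun j _ => ?_
        rw [hM, Matrix.of_apply]; ring
    _ = eval x P * ∑ i, eval x (pl ξ (Function.update ι i α)) * mon v (ι i) s := by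
        rw [Finset.mul_sum]
        refine Finset.sum_congr rfl fun i _ => ?_
        rw [h1 i]; ring

end Pool.Agent.LGO.PWG
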