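import Mathlib
import Pool.Agent.LGO.PWG.C3
import Pool.Agent.LGO.PWG.Relns
import Pool.Agent.LGO.PWG.Cramer
import Pool.Agent.LGO.PWC.Interp
import Pool.Agent.LGO.PWC.Minor

/-!
# LGO/PWG: the rank drops in the good small discs (port of PWC/Good to m functions)

PROOF of `good`.  Let `d = 3 b (b + 1) ^ 16`.  `n₁, C₁` from `fam_fl hF d` (module C3, proved), `p` from
`Fam.zeros_card hF (3 b (b + 1) ^ 8)`, `n = max n₁ p`, `C = C₁ 8 ^ n` (`FL n₁ ..` implies `FL n ..`).  Given `w, v, S, H` take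
`ρ, t, P, ξ` from `relns` and `S₁ = {s ∈ S : P(z(s)) ≠ 0}`; at most `p` points are dropped (`S ⊆ closedBall w 1`).
If `ρ = 0` the relation for the exponent `0` is `P(z(s)) = 0` on `S`, so `S₁` is empty.
Let `x ∈ closedBall w 1`, `0 < r ≤ 1/8`.  The polynomials `pl ξ ι` (`ι : Fin ρ → Fin 8 → Fin (b + 1)`, a finite type) have degree
`≤ ρ 3 b (b + 1) ^ 8 ≤ d` (`pl_deg`), and `pl ξ t = P ^ ρ ≠ 0` (`pl_t`).  Apply `good_ratio n` (module C3, proved) to the functions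
`f ι s = eval (z s) (pl ξ ι)`, `y = x`, `R = 1/3`: if `pl ξ ι = 0` then `f ι = 0`, otherwise `FL` by `fam_fl`; `hne` for `ι = t`.
It gives `ι₀` and the finite set `Z`; use the list `Z.toList`.
Let `u ∈ closedBall x r`, `2 η r ≤ |u - ζ|` for `ζ ∈ Z`.  On `closedBall u (η r)`: `f ι₀ ≠ 0` and `|f ι| ≤ C₁ 8 ^ n (1 / η) ^ n |f ι₀|` for
all `ι`.  So the functions `c_(i α)(s) = f (update ι₀ i α) s / f ι₀ s` are holomorphic on `ball u (η r)` and bounded there
by `C (1 / η) ^ n`, and `mon v α s = ∑_i c_(i α)(s) mon v (ι₀ i) s` for all `α` at the points `s ∈ S₁` of this ball (`pl_cramer`).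
(Holomorphic: `hF.hol` on `Ω`, and `hF.sub` : `ball w 3 ⊆ Ω`; `ball u (η r) ⊆ ball w 3`.)
`rk_lt`, `det_zero`: for points `u_i ∈ S₁` with `|u_i - u| ≤ δ < η r` and exponents `α_j`, `i, j ∈ Fin (ρ K)`, the matrix
`(mon v (α_j) (u_i))` is `∑_q c_(q α_j)(u_i) y_(i q)`, `y_(i q) = mon v (ι₀ q) (u_i)`, `|y| ≤ H ^ (8 b)` (`mon_norm`); `interp` with `x₀ = u`,
`R = η r`, `r = δ`, `M = C (1 / η) ^ n`.  The numerical hypothesis says that the bound is `< 1`; it also implies `0 < ρ K`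
(otherwise the left side of the hypothesis is `1`).
-/

namespace Pool.Agent.LGO.PWG

open Metric MvPolynomial

open PWC (mon rk FL good_ratio interp rk_lt det_zero mon_norm)

variable {m : ℕ} {Ω Cn : Set ℂ} {z : Fin m → ℂ → ℂ} {ρ₀ : ℂ → ℝ}

private theorem Good_fl_mono {n k : ℕ} {C R : ℝ} {y : ℂ} {f : ℂ → ℂ} (h : n ≤ k)
    (hf : FL n C R y f) : FL k C R y f := by
  obtain ⟨Z, U, M, h1, h2⟩ := hf
  exact ⟨Z, U, M, h1.trans h, h2⟩

theorem good (hF : Fam Ω Cn z ρ₀) (b : ℕ) : ∃ (n : ℕ) (C : ℝ), 1 ≤ C ∧ ∀ w ∈ Cn,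
    ∀ (v : ℂ → Fin 8 → ℤ) (Q : ℂ → Prop), Grw z v Q → ∀ (S : Finset ℂ) (H : ℝ), 1 ≤ H →
    (∀ s ∈ S, s ∈ closedBall w 1 ∧ Q s ∧ ∀ k, |(v s k : ℝ)| ≤ H) →
    ∃ (ρ : ℕ) (S₁ : Finset ℂ), ρ * (b + 1) ^ 2 ≤ 4 * rk v S (2 * b) ∧ S₁ ⊆ S ∧
      S.card ≤ S₁.card + n ∧ (ρ = 0 → S₁ = ∅) ∧
      ∀ x ∈ closedBall w 1, ∀ r : ℝ, 0 < r → r ≤ 1 / 8 → ∃ Z : List ℂ, Z.length ≤ n ∧
        ∀ u ∈ closedBall x r, ∀ η δ : ℝ, 0 < η → η ≤ 1 → 0 < δ → δ < η * r →
        (∀ ζ ∈ Z, 2 * η * r ≤ ‖u - ζ‖) → ∀ K : ℕ,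
        ((ρ * K).factorial : ℝ) * (ρ * (C * (1 / η) ^ n) * H ^ (8 * b)) ^ (ρ * K) *
          (δ / (η * r)) ^ (ρ * K.choose 2) < 1 →
        rk v (S₁.filter fun s => ‖s - u‖ ≤ δ) b < ρ * K := by
  classical
  set d : ℕ := m * b * (b + 1) ^ 8 with hd
  obtain ⟨n₁, C₁, hC₁, hfl⟩ := fam_fl hF ((b + 1) ^ 8 * d)
  obtain ⟨p, hp⟩ := Fam.zeros_card hF d
  set n : ℕ := max n₁ p with hn
  refine ⟨n, C₁ * 8 ^ n, one_le_mul_of_one_le_of_one_le hC₁ (one_le_pow₀ (by norm_num)), ?_⟩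
  intro w hw v Q hg S H hH hS
  obtain ⟨ρ, t, P, ξ, hρ1, hρ2, hP0, hPdeg, hξdeg, hξt, hrel⟩ :=
    relns hg (fun s hs => (hS s hs).2.1) b
  have hmem : ∀ s, s ∈ S.filter (fun s => eval (fun a => z a s) P ≠ 0) ↔
      s ∈ S ∧ eval (fun a => z a s) P ≠ 0 := fun s => Finset.mem_filter
  refine ⟨ρ, S.filter (fun s => eval (fun a => z a s) P ≠ 0), hρ1, Finset.filter_subset _ _,
    ?_, ?_, ?_⟩
  · have h1 := Finset.card_filter_add_card_filter_not (s := S)
      (fun s => eval (fun a => z a s) P ≠ 0)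
    have h2 : (S.filter (fun s => ¬ eval (fun a => z a s) P ≠ 0)).card ≤ p := by
      refine hp w hw P hP0 hPdeg _ ?_
      intro s hs
      rw [Finset.mem_filter] at hs
      exact ⟨(hS s hs.1).1, not_not.1 hs.2⟩
    have h3 : p ≤ n := le_max_right _ _
    omega
  · intro h0
    subst h0
    rw [Finset.eq_empty_iff_forall_notMem]
    intro s hs
    rw [hmem] at hs
    have h1 := hrel s hs.1 (fun _ => 0)
    rw [Finset.univ_eq_empty, Finset.sum_empty] at h1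
    have h2 : mon v (fun _ => (0 : Fin (b + 1))) s = 1 := by
      simp [mon]
    rw [h2, mul_one] at h1
    exact hs.2 h1
  · intro x hx r hr hr8
    -- the functions `f ι`
    set f : (Fin ρ → Fin 8 → Fin (b + 1)) → ℂ → ℂ :=
      fun ι s => eval (fun a => z a s) (pl ξ ι) with hf
    have hdeg : ∀ ι, (pl ξ ι).totalDegree ≤ (b + 1) ^ 8 * d := fun ι =>
      (pl_deg hξdeg ι).trans (Nat.mul_le_mul_right _ hρ2)
    have hFL : ∀ ι, pl ξ ι ≠ 0 → FL n C₁ (1 / 3) x (f ι) := fun ι h =>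
      Good_fl_mono (le_max_left _ _) (hfl w hw _ h (hdeg ι) x hx)
    have h1 : ∀ ι, (∀ s ∈ closedBall x (1 / 3), f ι s = 0) ∨ FL n C₁ (1 / 3) x (f ι) := by
      intro ι
      by_cases h : pl ξ ι = 0
      · left
        intro s _
        simp [hf, h]
      · exact Or.inr (hFL ι h)
    have h2 : ∃ ι, FL n C₁ (1 / 3) x (f ι) := by
      refine ⟨t, hFL t ?_⟩
      rw [pl_t hξt]
      exact pow_ne_zero _ hP0
    obtain ⟨ι₀, Z, hZc, hZ⟩ := good_ratio n hC₁ f x h1 h2 hr (by linarith)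
    refine ⟨Z.toList, by rw [Finset.length_toList]; exact hZc, ?_⟩
    intro u hu η δ hη hη1 hδ hδr hdist K hnum
    have hηr : 0 < η * r := mul_pos hη hr
    have hgood := hZ η hη hη1 u hu (fun ζ hζ => hdist ζ (by rwa [Finset.mem_toList]))
    have hpos : 0 < ρ * K := by
      rcases Nat.eq_zero_or_pos (ρ * K) with h0 | h0
      · exfalso
        have h4 : ρ * K.choose 2 = 0 := by
          rcases Nat.mul_eq_zero.1 h0 with h5 | h5
          · rw [h5, zero_mul]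
          · rw [h5, Nat.choose_zero_succ, mul_zero]
        rw [h4, h0, pow_zero, pow_zero] at hnum
        norm_num at hnum
      · exact h0
    refine rk_lt ?_ hpos
    intro u' α
    refine det_zero _ α ?_
    have hu' : ∀ i, (u' i : ℂ) ∈ S ∧ eval (fun a => z a (u' i : ℂ)) P ≠ 0 ∧
        ‖(u' i : ℂ) - u‖ ≤ δ := by
      intro i
      have h4 := (u' i).2
      rw [Finset.mem_filter, hmem] at h4
      exact ⟨h4.1.1, h4.1.2, h4.2⟩
    have hball : ball u (η * r) ⊆ Ω := by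
      refine Set.Subset.trans ?_ (hF.ball w hw)
      intro s hs
      rw [mem_ball] at hs ⊢
      rw [mem_closedBall] at hu hx
      have h4 := dist_triangle s u w
      have h5 := dist_triangle u x w
      have h6 : η * r ≤ 1 * r := mul_le_mul_of_nonneg_right hη1 hr.le
      linarith
    have hdiff : ∀ ι, DifferentiableOn ℂ (f ι) (ball u (η * r)) := fun ι =>
      (hF.diff (pl ξ ι)).mono hball
    set c : Fin ρ → Fin (ρ * K) → ℂ → ℂ :=
      fun q j s => f (Function.update ι₀ q (α j)) s / f ι₀ s with hc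
    have hne0 : ∀ s ∈ closedBall u (η * r), f ι₀ s ≠ 0 := fun s hs => (hgood s hs).1
    have hI := interp (x₀ := u) (M := C₁ * 8 ^ n * (1 / η) ^ n) (Y := H ^ (8 * b)) hδ hδr
      (by positivity) (by positivity) c
      (fun q j => (hdiff _).div (hdiff _) (fun s hs => hne0 s (ball_subset_closedBall hs)))
      (by
        intro q j s hs
        have hs' := ball_subset_closedBall hs
        have h4 := (hgood s hs').2 (Function.update ι₀ q (α j))
        have h5 : 0 < ‖f ι₀ s‖ := norm_pos_iff.2 (hne0 s hs')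
        have h6 : 0 < η ^ n := pow_pos hη n
        rw [hc]
        simp only
        rw [norm_div, div_le_iff₀ h5, one_div, inv_pow]
        have h7 : C₁ * 8 ^ n * (η ^ n)⁻¹ * ‖f ι₀ s‖ = C₁ * 8 ^ n * ‖f ι₀ s‖ / η ^ n := by
          field_simp
        rw [h7, le_div_iff₀ h6]
        exact h4)
      (fun i => (u' i : ℂ)) (fun i => (hu' i).2.2)
      (fun i q => mon v (ι₀ q) (u' i : ℂ))
      (fun i q => mon_norm hH (hS _ (hu' i).1).2.2 _)
    have hmat : (Matrix.of fun i j => mon v (α j) (u' i : ℂ)) =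
        Matrix.of fun i j => ∑ q, c q j (u' i : ℂ) * mon v (ι₀ q) (u' i : ℂ) := by
      ext i j
      simp only [Matrix.of_apply]
      have h4 := pl_cramer (hu' i).2.1 (hrel _ (hu' i).1) ι₀ (α j)
      have h5 : (u' i : ℂ) ∈ closedBall u (η * r) := by
        rw [mem_closedBall, dist_eq_norm]
        exact (hu' i).2.2.trans hδr.le
      have h6 := hne0 _ h5
      have h7 : f ι₀ (u' i : ℂ) * mon v (α j) (u' i : ℂ) =
          ∑ q, f (Function.update ι₀ q (α j)) (u' i : ℂ) * mon v (ι₀ q) (u' i : ℂ) := h4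
      have h8 : ∑ q, c q j (u' i : ℂ) * mon v (ι₀ q) (u' i : ℂ) =
          (∑ q, f (Function.update ι₀ q (α j)) (u' i : ℂ) * mon v (ι₀ q) (u' i : ℂ)) /
            f ι₀ (u' i : ℂ) := by
        rw [Finset.sum_div]
        refine Finset.sum_congr rfl fun q _ => ?_
        rw [hc]
        ring
      rw [h8, ← h7, mul_div_cancel_left₀ _ h6]
    rw [hmat]
    exact lt_of_le_of_lt hI hnum

end Pool.Agent.LGO.PWG
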