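import Mathlib
import Pool.Agent.LGO.PWG.Good
import Pool.Agent.LGO.PWC.C5

/-!
# LGO/PWG: one step of the descent (port of PWC/Step to m functions)

PROOF of `step`.  `n, C` from `good hF b`, `T, P` from `PW.tiny hF`.  Put `e₁ = min (e₂ / 6) (1 / (n + 1))`,
`K = ⌈(16 b + 4) / e₂⌉ + 1`, `m = ⌈(T + 1) / e₁⌉`, `η = H ^ (-e₁)`, `η' = H ^ (-e₂)` (real powers), `H` large.
`good` gives `ρ, S₁`, `ρ (b + 1) ^ 3 ≤ (3 b + 1) rk v S (2 b)`, so `ρ (b + 1) ^ 2 ≤ 3 rk v S (2 b) ≤ 3 (2 b + 1) ^ 8` and `ρ ≤ ρ_max`, a constant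
depending only on `b`.  If `ρ = 0` then `card S ≤ n < H ^ e`: contradiction for large `H`.  So `1 ≤ ρ`.
NUMERICAL CONDITION with `δ = η η' r` (`δ < η r` for `H > 1`), `δ / (η r) = η'`:
`(ρ K)! (ρ C) ^ (ρ K) H ^ (ρ K (n e₁ + 8 b)) H ^ (- e₂ ρ K (K - 1) / 2)`, and `e₂ (K - 1) / 2 ≥ 8 b + 2`, `n e₁ ≤ 1`: it is at most
`(ρ K)! (ρ C) ^ (ρ K) H ^ (- ρ K) < 1` for large `H`, uniformly for `1 ≤ ρ ≤ ρ_max` (for instance `(ρ K)! ≤ (ρ K) ^ (ρ K)`, so `H > ρ_max K ρ_max C` is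
enough).  `K (K - 1) / 2 = K.choose 2` (`Nat.choose_two_right`).
`find_disc` (C5) for `S₁`, `r₀ = 1/8`, `e = (H ^ T)⁻¹`: `(4 η) ^ l = 4 ^ l H ^ (- e₁ m) ≤ 4 ^ l H ^ (- T - 1) ≤ (H ^ T)⁻¹` for `H ≥ 4 ^ l`; `η ≤ 1/4` for large `H`;
`htiny` from `PW.tiny` (`2 ≤ H`, centre `s₀ = y`).
It gives `card S' ≥ card S₁ (η η') ^ 2 / (64 * 49 * 98 (2 (n + 1)) ^ l) ≥ card S H ^ (-4 e₂)` for large `H`, since `2 e₁ + 2 e₂ ≤ 3 e₂` and
`card S₁ ≥ card S / 2`.  Finally `e₂ (b + 1) rk v S' b ≤ e₂ (b + 1) ρ K ≤ e₂ (b + 1) (3 rk v S (2 b) / (b + 1) ^ 2) (20 / e₂) (b + 1) = 60 rk v S (2 b)`,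
because `K ≤ (16 b + 4) / e₂ + 2 ≤ (20 / e₂) (b + 1)`.
-/

namespace Pool.Agent.LGO.PWG

open Metric MvPolynomial

open PWC (mon rk rk_le find_disc inb mem_inb)

variable {m : ℕ} {Ω Cn : Set ℂ} {z : Fin m → ℂ → ℂ} {ρ₀ : ℂ → ℝ}

private theorem Step_num {C H e₁ e₂ : ℝ} {ρ K b n : ℕ} (hρ : 1 ≤ ρ) (hK : 1 ≤ K) (hC : 1 ≤ C)
    (hH : 1 < H) (hB : (ρ : ℝ) * K * (ρ * C) < H) (hne : n * e₁ ≤ 1)
    (hK2 : 8 * (b : ℝ) + 2 ≤ e₂ * ((K : ℝ) - 1) / 2) :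
    ((ρ * K).factorial : ℝ) * (ρ * (C * (1 / H ^ (-e₁)) ^ n) * H ^ (8 * b)) ^ (ρ * K) *
      (H ^ (-e₂)) ^ (ρ * K.choose 2) < 1 := by
  have hH0 : 0 < H := by linarith
  have h1 : (1 / H ^ (-e₁)) ^ n = H ^ (n * e₁) := by
    rw [Real.rpow_neg hH0.le, one_div, inv_inv, ← Real.rpow_natCast, ← Real.rpow_mul hH0.le,
      mul_comm]
  have h2 : (H ^ (-e₂)) ^ (ρ * K.choose 2) = (H ^ (-(e₂ * ((K : ℝ) - 1) / 2))) ^ (ρ * K) := by
    rw [← Real.rpow_natCast, ← Real.rpow_mul hH0.le, ← Real.rpow_natCast, ← Real.rpow_mul hH0.le]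
    congr 1
    have h3 : ((K.choose 2 : ℕ) : ℝ) = K * (K - 1) / 2 := Nat.cast_choose_two ℝ K
    rw [Nat.cast_mul, Nat.cast_mul, h3]
    ring
  have h4 : ((ρ * K).factorial : ℝ) ≤ ((ρ : ℝ) * K) ^ (ρ * K) := by
    have := Nat.factorial_le_pow (ρ * K)
    exact_mod_cast this
  have hρ' : (1 : ℝ) ≤ (ρ : ℝ) := by exact_mod_cast hρ
  have hK' : (1 : ℝ) ≤ (K : ℝ) := by exact_mod_cast hK
  have h5 : 0 < H ^ ((n : ℝ) * e₁) := Real.rpow_pos_of_pos hH0 _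
  have h6 : 0 < H ^ (-(e₂ * ((K : ℝ) - 1) / 2)) := Real.rpow_pos_of_pos hH0 _
  have h7 : (H : ℝ) ^ ((n : ℝ) * e₁) * H ^ (8 * b) * H ^ (-(e₂ * ((K : ℝ) - 1) / 2)) ≤ H⁻¹ := by
    rw [← Real.rpow_natCast H (8 * b), ← Real.rpow_add hH0, ← Real.rpow_add hH0,
      ← Real.rpow_neg_one]
    refine Real.rpow_le_rpow_of_exponent_le hH.le ?_
    push_cast
    linarith
  rw [h1, h2]
  have h8 : (ρ : ℝ) * K * (ρ * (C * H ^ ((n : ℝ) * e₁)) * H ^ (8 * b)) *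
      H ^ (-(e₂ * ((K : ℝ) - 1) / 2)) < 1 := by
    have h9 : (ρ : ℝ) * K * (ρ * (C * H ^ ((n : ℝ) * e₁)) * H ^ (8 * b)) *
        H ^ (-(e₂ * ((K : ℝ) - 1) / 2)) = ((ρ : ℝ) * K * (ρ * C)) *
        ((H : ℝ) ^ ((n : ℝ) * e₁) * H ^ (8 * b) * H ^ (-(e₂ * ((K : ℝ) - 1) / 2))) := by ring
    rw [h9]
    calc ((ρ : ℝ) * K * (ρ * C)) *
        ((H : ℝ) ^ ((n : ℝ) * e₁) * H ^ (8 * b) * H ^ (-(e₂ * ((K : ℝ) - 1) / 2)))
        ≤ ((ρ : ℝ) * K * (ρ * C)) * H⁻¹ :=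
          mul_le_mul_of_nonneg_left h7 (by positivity)
      _ < H * H⁻¹ := by
          refine mul_lt_mul_of_pos_right hB (inv_pos.2 hH0)
      _ = 1 := mul_inv_cancel₀ hH0.ne'
  have hC0 : 0 < C := by linarith
  calc ((ρ * K).factorial : ℝ) * (ρ * (C * H ^ ((n : ℝ) * e₁)) * H ^ (8 * b)) ^ (ρ * K) *
      (H ^ (-(e₂ * ((K : ℝ) - 1) / 2))) ^ (ρ * K)
      ≤ ((ρ : ℝ) * K) ^ (ρ * K) * (ρ * (C * H ^ ((n : ℝ) * e₁)) * H ^ (8 * b)) ^ (ρ * K) *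
      (H ^ (-(e₂ * ((K : ℝ) - 1) / 2))) ^ (ρ * K) := by
        refine mul_le_mul_of_nonneg_right (mul_le_mul_of_nonneg_right h4 (by positivity))
          (by positivity)
    _ = ((ρ : ℝ) * K * (ρ * (C * H ^ ((n : ℝ) * e₁)) * H ^ (8 * b)) *
      H ^ (-(e₂ * ((K : ℝ) - 1) / 2))) ^ (ρ * K) := by
        rw [← mul_pow, ← mul_pow]
    _ < 1 := by
        refine pow_lt_one₀ (by positivity) h8 ?_
        exact Nat.mul_ne_zero (by omega) (by omega)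

/-- the points with `Pt H` in the discs of radius `H ^ (-T)` -/
def Tiny (Cn : Set ℂ) (Pt : ℝ → ℂ → Prop) : Prop :=
  ∃ T P : ℕ, ∀ H : ℝ, 2 ≤ H → ∀ w ∈ Cn, ‖w‖ ≤ H → ∀ s₀ ∈ closedBall w 1, ∀ S : Finset ℂ,
    (∀ s ∈ S, s ∈ closedBall w 1 ∧ Pt H s ∧ ‖s - s₀‖ ≤ (H ^ T)⁻¹) → S.card ≤ P

theorem step (hF : Fam Ω Cn z ρ₀) {Pt : ℝ → ℂ → Prop} (hT : Tiny Cn Pt) (b : ℕ) {e₂ e : ℝ}
    (h2 : 0 < e₂) (h2' : e₂ ≤ 1)
    (he : 0 < e) : ∃ H₀ : ℝ, ∀ H : ℝ, H₀ ≤ H → ∀ w ∈ Cn, ‖w‖ ≤ H → ∀ (v : ℂ → Fin 8 → ℤ),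
    Grw z v (Pt H) → ∀ (S : Finset ℂ), (∀ s ∈ S, s ∈ closedBall w 1 ∧ Pt H s ∧
      ∀ k, |(v s k : ℝ)| ≤ H) → H ^ e ≤ (S.card : ℝ) →
    ∃ S' ⊆ S, (S.card : ℝ) * H ^ (-(4 * e₂)) ≤ (S'.card : ℝ) ∧
      e₂ * (b + 1) * (rk v S' b : ℝ) ≤ 80 * (rk v S (2 * b) : ℝ) := by
  classical
  obtain ⟨n, C, hC, hgood⟩ := good hF b
  obtain ⟨T, P, htiny⟩ := hT
  obtain ⟨e₁, he₁, he₁2, he₁n⟩ : ∃ e₁ : ℝ, 0 < e₁ ∧ 6 * e₁ ≤ e₂ ∧ n * e₁ ≤ 1 := by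
    refine ⟨min (e₂ / 6) (1 / ((n : ℝ) + 1)), lt_min (by positivity) (by positivity), ?_, ?_⟩
    · have := min_le_left (e₂ / 6) (1 / ((n : ℝ) + 1))
      linarith
    · have h3 := min_le_right (e₂ / 6) (1 / ((n : ℝ) + 1))
      have h4 : (n : ℝ) * min (e₂ / 6) (1 / ((n : ℝ) + 1)) ≤ n * (1 / ((n : ℝ) + 1)) :=
        mul_le_mul_of_nonneg_left h3 (by positivity)
      refine h4.trans ?_
      rw [mul_one_div, div_le_one (by positivity)]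
      linarith
  obtain ⟨K, hK1, hKlo, hKhi⟩ : ∃ K : ℕ, 1 ≤ K ∧ 8 * (b : ℝ) + 2 ≤ e₂ * ((K : ℝ) - 1) / 2 ∧
      e₂ * K ≤ 20 * (b + 1) := by
    refine ⟨⌈(16 * (b : ℝ) + 4) / e₂⌉₊ + 1, by omega, ?_, ?_⟩
    · have h3 := Nat.le_ceil ((16 * (b : ℝ) + 4) / e₂)
      rw [div_le_iff₀ h2] at h3
      push_cast
      linarith
    · have h3 := Nat.ceil_lt_add_one (show 0 ≤ (16 * (b : ℝ) + 4) / e₂ by positivity)
      have h4 : e₂ * (⌈(16 * (b : ℝ) + 4) / e₂⌉₊ : ℝ) < e₂ * ((16 * (b : ℝ) + 4) / e₂ + 1) :=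
        mul_lt_mul_of_pos_left h3 h2
      have h5 : e₂ * ((16 * (b : ℝ) + 4) / e₂ + 1) = 16 * b + 4 + e₂ := by
        field_simp
      push_cast
      have : (0 : ℝ) ≤ b := by positivity
      linarith
  obtain ⟨l, hm⟩ : ∃ l : ℕ, (T : ℝ) + 1 ≤ e₁ * l := by
    refine ⟨⌈((T : ℝ) + 1) / e₁⌉₊, ?_⟩
    have h3 := Nat.le_ceil (((T : ℝ) + 1) / e₁)
    rw [div_le_iff₀ he₁] at h3
    linarith
  set R : ℝ := 4 * (2 * (b : ℝ) + 1) ^ 8 with hR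
  set D : ℝ := 2 * (64 * (49 * 98 * (2 * ((n : ℝ) + 1)) ^ l)) with hD
  have ev1 : ∀ᶠ H : ℝ in Filter.atTop, 2 ≤ H := Filter.eventually_ge_atTop 2
  have ev2 : ∀ᶠ H : ℝ in Filter.atTop, 4 ≤ H ^ e₁ :=
    (tendsto_rpow_atTop he₁).eventually_ge_atTop 4
  have ev3 : ∀ᶠ H : ℝ in Filter.atTop, (4 : ℝ) ^ l ≤ H := Filter.eventually_ge_atTop _
  have ev4 : ∀ᶠ H : ℝ in Filter.atTop,
      2 * (n : ℝ) + 64 * (49 * (2 * ((n : ℝ) + 1)) ^ l * P) + 1 ≤ H ^ e :=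
    (tendsto_rpow_atTop he).eventually_ge_atTop _
  have ev5 : ∀ᶠ H : ℝ in Filter.atTop, R * K * (R * C) < H := Filter.eventually_gt_atTop _
  have ev6 : ∀ᶠ H : ℝ in Filter.atTop, D ≤ H ^ e₂ :=
    (tendsto_rpow_atTop h2).eventually_ge_atTop _
  obtain ⟨H₀, hH₀⟩ := Filter.eventually_atTop.1
    (ev1.and (ev2.and (ev3.and (ev4.and (ev5.and ev6)))))
  refine ⟨H₀, ?_⟩
  intro H hH w hw hwH v hgr S hS hcard
  obtain ⟨c1, c2, c3, c4, c5, c6⟩ := hH₀ H hH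
  have hH0 : 0 < H := by linarith
  have hH1 : 1 < H := by linarith
  obtain ⟨ρ, S₁, hρ, hS₁, hS₁c, hρ0, hg⟩ := hgood w hw v (Pt H) hgr S H hH1.le hS
  have hS₁c' : (S.card : ℝ) ≤ S₁.card + n := by exact_mod_cast hS₁c
  have hlarge : 64 * (49 * (2 * ((n : ℝ) + 1)) ^ l * P) < (S₁.card : ℝ) := by
    have : (0 : ℝ) ≤ n := by positivity
    linarith
  have hhalf : (S.card : ℝ) ≤ 2 * S₁.card := by
    have : (0 : ℝ) ≤ 64 * (49 * (2 * ((n : ℝ) + 1)) ^ l * P) := by positivity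
    linarith
  have hρ1 : 1 ≤ ρ := by
    by_contra hcon
    have h3 : ρ = 0 := by omega
    rw [hρ0 h3] at hlarge
    have : (0 : ℝ) ≤ 64 * (49 * (2 * ((n : ℝ) + 1)) ^ l * P) := by positivity
    simp at hlarge
    linarith
  -- the bound for `ρ`
  have hρb : (ρ : ℝ) * (b + 1) ^ 2 ≤ 4 * rk v S (2 * b) := by exact_mod_cast hρ
  have hρR : (ρ : ℝ) ≤ R := by
    have h3 : (rk v S (2 * b) : ℝ) ≤ (2 * (b : ℝ) + 1) ^ 8 := by
      have := rk_le v S (2 * b)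
      exact_mod_cast this
    have h4 : (ρ : ℝ) * 1 ≤ ρ * (b + 1) ^ 2 := by
      refine mul_le_mul_of_nonneg_left ?_ (by positivity)
      have : (0 : ℝ) ≤ b := by positivity
      nlinarith
    rw [hR]
    linarith
  set η : ℝ := H ^ (-e₁) with hη
  set η' : ℝ := H ^ (-e₂) with hη'
  have hη0 : 0 < η := Real.rpow_pos_of_pos hH0 _
  have hη'0 : 0 < η' := Real.rpow_pos_of_pos hH0 _
  have hη4 : η ≤ 1 / 4 := by
    rw [hη, Real.rpow_neg hH0.le, one_div]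
    exact inv_anti₀ (by norm_num) c2
  have hη'1 : η' < 1 := Real.rpow_lt_one_of_one_lt_of_neg hH1 (by linarith)
  have hnum := Step_num (C := C) (H := H) (e₁ := e₁) (e₂ := e₂) (ρ := ρ) (K := K) (b := b) (n := n)
    hρ1 hK1 hC hH1 (by
      refine lt_of_le_of_lt ?_ c5
      have h3 : (0 : ℝ) ≤ ρ := by positivity
      have hR0 : 0 ≤ R := h3.trans hρR
      have hC0 : 0 ≤ C := by linarith
      exact mul_le_mul (mul_le_mul_of_nonneg_right hρR (by positivity))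
        (mul_le_mul_of_nonneg_right hρR hC0) (by positivity) (by positivity)) he₁n hKlo
  -- the exceptional sets
  have hZex : ∀ x : ℂ, ∀ r : ℝ, ∃ Z : Finset ℂ, Z.card ≤ n ∧ (x ∈ closedBall w 1 → 0 < r →
      r ≤ 1 / 8 → ∀ u ∈ closedBall x r, ∀ η δ : ℝ, 0 < η → η ≤ 1 → 0 < δ → δ < η * r →
        (∀ ζ ∈ Z, 2 * η * r ≤ ‖u - ζ‖) → ∀ K : ℕ,
        ((ρ * K).factorial : ℝ) * (ρ * (C * (1 / η) ^ n) * H ^ (8 * b)) ^ (ρ * K) *
          (δ / (η * r)) ^ (ρ * K.choose 2) < 1 →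
        rk v (S₁.filter fun s => ‖s - u‖ ≤ δ) b < ρ * K) := by
    intro x r
    by_cases hx : x ∈ closedBall w 1 ∧ 0 < r ∧ r ≤ 1 / 8
    · obtain ⟨Z, hZl, hZ⟩ := hg x hx.1 r hx.2.1 hx.2.2
      refine ⟨Z.toFinset, (List.toFinset_card_le Z).trans hZl, fun _ _ _ => ?_⟩
      intro u hu η δ hη hη1 hδ hδ1 hfar K hnum
      exact hZ u hu η δ hη hη1 hδ hδ1 (fun ζ hζ => hfar ζ (by simpa using hζ)) K hnum
    · refine ⟨∅, by simp, fun h1 h2 h3 => absurd ⟨h1, h2, h3⟩ hx⟩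
  choose Z hZc hZ using hZex
  have hS₁w : ∀ s ∈ S₁, s ∈ closedBall w 1 := fun s hs => (hS s (hS₁ hs)).1
  obtain ⟨y, hy, r, hr, hr8, u, hu, huy, hfar, hmany⟩ := find_disc S₁ hS₁w (n := n + 1) (m := l)
    (T := P) (by omega) (η := η) (η' := η') (r₀ := 1 / 8) (e := (H ^ T)⁻¹) hη0 hη4 hη'0 hη'1.le
    (by norm_num) (by norm_num) (by
      have h3 : (4 * η) ^ l = 4 ^ l * H ^ (-(e₁ * l)) := by
        rw [mul_pow, hη, ← Real.rpow_natCast (H ^ (-e₁)) l, ← Real.rpow_mul hH0.le]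
        congr 2
        ring
      have h4 : H ^ (-(e₁ * l)) ≤ H ^ (-((T : ℝ) + 1)) :=
        Real.rpow_le_rpow_of_exponent_le hH1.le (by linarith)
      have h5 : H ^ (-((T : ℝ) + 1)) = (H ^ T)⁻¹ * H⁻¹ := by
        rw [Real.rpow_neg hH0.le, Real.rpow_add hH0, Real.rpow_one, Real.rpow_natCast, mul_inv]
      have h6 : (4 : ℝ) ^ l * H⁻¹ ≤ 1 := by
        rw [← div_eq_mul_inv, div_le_one hH0]
        exact c3
      have h7 : 0 < (H ^ T)⁻¹ := by positivity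
      calc (4 * η) ^ l * (1 / 8) ≤ (4 * η) ^ l * 1 :=
            mul_le_mul_of_nonneg_left (by norm_num) (by positivity)
        _ = 4 ^ l * H ^ (-(e₁ * l)) := by rw [mul_one, h3]
        _ ≤ 4 ^ l * ((H ^ T)⁻¹ * H⁻¹) := by
            rw [← h5]
            exact mul_le_mul_of_nonneg_left h4 (by positivity)
        _ = (H ^ T)⁻¹ * (4 ^ l * H⁻¹) := by ring
        _ ≤ (H ^ T)⁻¹ * 1 := mul_le_mul_of_nonneg_left h6 h7.le
        _ = (H ^ T)⁻¹ := mul_one _)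
    (by
      intro y hy
      refine htiny H c1 w hw hwH y (hS₁w y hy) _ ?_
      intro s hs
      obtain ⟨h3, h4⟩ := mem_inb.1 hs
      refine ⟨hS₁w s h3, (hS s (hS₁ h3)).2.1, ?_⟩
      rwa [mem_closedBall, dist_eq_norm] at h4)
    Z (fun y _ r _ _ => (hZc y r).trans (by omega)) (by
      push_cast
      nlinarith)
  have hδη : η * η' * r / (η * r) = η' := by
    field_simp
  have hrk := hZ y r (hS₁w y hy) hr hr8 u huy η (η * η' * r) hη0 (by linarith) (by positivity)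
    (by
      have : η * η' * r = (η * r) * η' := by ring
      rw [this]
      have h3 : 0 < η * r := by positivity
      nlinarith) hfar K (by rw [hδη]; exact hnum)
  have hinb : inb S₁ u (η * η' * r) = S₁.filter fun s => ‖s - u‖ ≤ η * η' * r := by
    ext s
    rw [mem_inb, Finset.mem_filter, mem_closedBall, dist_eq_norm]
  rw [hinb] at hmany
  refine ⟨S₁.filter fun s => ‖s - u‖ ≤ η * η' * r, (Finset.filter_subset _ _).trans hS₁, ?_, ?_⟩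
  · -- many points
    set N : ℝ := ((S₁.filter fun s => ‖s - u‖ ≤ η * η' * r).card : ℝ) with hN
    have hN0 : 0 ≤ N := by rw [hN]; positivity
    have h3 : (η * η') ^ 2 = H ^ (-(2 * e₁ + 2 * e₂)) := by
      rw [hη, hη', ← Real.rpow_add hH0, ← Real.rpow_natCast, ← Real.rpow_mul hH0.le]
      congr 1
      push_cast
      ring
    have h4 : H ^ (-(3 * e₂)) ≤ (η * η') ^ 2 := by
      rw [h3]
      exact Real.rpow_le_rpow_of_exponent_le hH1.le (by linarith)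
    have h5 : H ^ (-(4 * e₂)) * H ^ e₂ = H ^ (-(3 * e₂)) := by
      rw [← Real.rpow_add hH0]
      congr 1
      ring
    have h6 : 0 < H ^ (-(4 * e₂)) := Real.rpow_pos_of_pos hH0 _
    have hD0 : 0 < D := by rw [hD]; positivity
    have h7 : H ^ (-(4 * e₂)) * D ≤ (η * η') ^ 2 := by
      calc H ^ (-(4 * e₂)) * D ≤ H ^ (-(4 * e₂)) * H ^ e₂ := mul_le_mul_of_nonneg_left c6 h6.le
        _ = H ^ (-(3 * e₂)) := h5
        _ ≤ (η * η') ^ 2 := h4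
    have h8 : (S.card : ℝ) * (H ^ (-(4 * e₂)) * D) ≤ N * D := by
      calc (S.card : ℝ) * (H ^ (-(4 * e₂)) * D) ≤ (2 * S₁.card) * ((η * η') ^ 2) :=
            mul_le_mul hhalf h7 (by positivity) (by positivity)
        _ = 128 * (S₁.card * (1 / 8) ^ 2 * (η * η') ^ 2) := by ring
        _ ≤ 128 * (49 * 98 * (2 * ((n + 1 : ℕ) : ℝ)) ^ l * N) := by
            exact mul_le_mul_of_nonneg_left hmany (by norm_num)
        _ = N * D := by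
            rw [hD]
            push_cast
            ring
    have h9 : ((S.card : ℝ) * H ^ (-(4 * e₂))) * D ≤ N * D := by
      rw [mul_assoc]
      exact h8
    exact le_of_mul_le_mul_right h9 hD0
  · -- the rank
    have h3 : (rk v (S₁.filter fun s => ‖s - u‖ ≤ η * η' * r) b : ℝ) ≤ ρ * K := by
      exact_mod_cast hrk.le
    have h4 : (0 : ℝ) ≤ e₂ * (b + 1) := by positivity
    calc e₂ * (b + 1) * (rk v (S₁.filter fun s => ‖s - u‖ ≤ η * η' * r) b : ℝ)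
        ≤ e₂ * (b + 1) * (ρ * K) := mul_le_mul_of_nonneg_left h3 h4
      _ = (ρ * (b + 1)) * (e₂ * K) := by ring
      _ ≤ (ρ * (b + 1)) * (20 * (b + 1)) := mul_le_mul_of_nonneg_left hKhi (by positivity)
      _ = 20 * (ρ * (b + 1) ^ 2) := by ring
      _ ≤ 20 * (4 * rk v S (2 * b)) := mul_le_mul_of_nonneg_left hρb (by norm_num)
      _ = 80 * rk v S (2 * b) := by ring

end Pool.Agent.LGO.PWG
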