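import Mathlib
import Pool.Agent.LGO.PWG.Defs
import Pool.Agent.LGO.PW.Mp

/-!
# LGO/PWG: the polynomial of an integral matrix

`mpp b a g = X a (g₁₀ X b + g₁₁) - (g₀₀ X b + g₀₁)`, `a ≠ b`.  As `LGO/PW/Mp.lean`, for two pairs `(b₁, a₁)`, `(b₂, a₂)`
of indices with `a₁, a₂, b₁` different, `a₁, a₂, b₂` different (`b₁ = b₂` is allowed).

* `mpp_indep`: `A₁, A₂` linearly independent, `det A₁ ≠ 0`, the same for `B₁, B₂`: the polynomials
  `(mpp b₁ a₁ A₂) ^ i (mpp b₁ a₁ A₁) ^ (d - i) (mpp b₂ a₂ B₂) ^ j (mpp b₂ a₂ B₁) ^ (d - j)` are linearly independent.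
-/

namespace Pool.Agent.LGO.PWG

open MvPolynomial Metric Pool.Agent.LGO.PW

variable {mm : ℕ}

/-- the polynomial of the relation `Maps g (z b) (z a)` -/
noncomputable def mpp (b a : Fin mm) (g : Matrix (Fin 2) (Fin 2) ℤ) : MvPolynomial (Fin mm) ℂ :=
  X a * (C (g 1 0 : ℂ) * X b + C (g 1 1 : ℂ)) - (C (g 0 0 : ℂ) * X b + C (g 0 1 : ℂ))

theorem mpp_eval (b a : Fin mm) (g : Matrix (Fin 2) (Fin 2) ℤ) (x : Fin mm → ℂ) :
    eval x (mpp b a g) =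
      x a * ((g 1 0 : ℂ) * x b + (g 1 1 : ℂ)) - ((g 0 0 : ℂ) * x b + (g 0 1 : ℂ)) := by
  simp [mpp]

theorem mpp_eval_eq_zero {b a : Fin mm} {g : Matrix (Fin 2) (Fin 2) ℤ} {x : Fin mm → ℂ} :
    eval x (mpp b a g) = 0 ↔ Maps g (x b) (x a) := by
  rw [mpp_eval, sub_eq_zero]
  rfl

private lemma Mp_lin_deg (b : Fin mm) (u v : ℂ) :
    (C u * X b + C v : MvPolynomial (Fin mm) ℂ).totalDegree ≤ 1 := by
  refine (totalDegree_add _ _).trans (max_le ?_ ?_)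
  · refine (totalDegree_mul _ _).trans ?_
    rw [totalDegree_C, totalDegree_X]
  · rw [totalDegree_C]
    exact Nat.zero_le _

theorem mpp_deg (b a : Fin mm) (g : Matrix (Fin 2) (Fin 2) ℤ) : (mpp b a g).totalDegree ≤ 2 := by
  unfold mpp
  refine (totalDegree_sub _ _).trans (max_le ?_ ?_)
  · refine (totalDegree_mul _ _).trans ?_
    rw [totalDegree_X]
    have := Mp_lin_deg b (g 1 0 : ℂ) (g 1 1 : ℂ)
    omega
  · exact (Mp_lin_deg _ _ _).trans (by norm_num)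

theorem mpp_ne_zero {b a : Fin mm} (ha : a ≠ b) {g : Matrix (Fin 2) (Fin 2) ℤ} (hg : g ≠ 0) :
    mpp b a g ≠ 0 := by
  intro h
  have h1 : ∀ s t : ℂ, t * ((g 1 0 : ℂ) * s + (g 1 1 : ℂ)) - ((g 0 0 : ℂ) * s + (g 0 1 : ℂ)) = 0 := by
    intro s t
    have h2 := mpp_eval b a g (fun i => if i = a then t else s)
    rw [h] at h2
    simp only [map_zero, if_true] at h2
    rw [if_neg (Ne.symm ha)] at h2
    exact h2.symm
  apply hg
  have e1 := h1 0 0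
  have e2 := h1 1 0
  have e3 := h1 0 1
  have e4 := h1 1 1
  have f1 : (g 0 1 : ℂ) = 0 := by linear_combination -e1
  have f2 : (g 0 0 : ℂ) = 0 := by linear_combination -e2 + e1
  have f3 : (g 1 1 : ℂ) = 0 := by linear_combination e3 - e1
  have f4 : (g 1 0 : ℂ) = 0 := by linear_combination e4 - e3 - e2 + e1
  ext i j
  have F1 : g 0 1 = 0 := by exact_mod_cast f1
  have F2 : g 0 0 = 0 := by exact_mod_cast f2
  have F3 : g 1 1 = 0 := by exact_mod_cast f3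
  have F4 : g 1 0 = 0 := by exact_mod_cast f4
  fin_cases i <;> fin_cases j <;> simp [F1, F2, F3, F4]

theorem mpp_lin (b a : Fin mm) (x y : ℤ) (g g' : Matrix (Fin 2) (Fin 2) ℤ) :
    mpp b a (x • g + y • g') = C (x : ℂ) * mpp b a g + C (y : ℂ) * mpp b a g' := by
  unfold mpp
  simp only [Matrix.add_apply, Matrix.smul_apply, smul_eq_mul, Int.cast_add, Int.cast_mul, map_add,
    map_mul]
  ring

private lemma Mp_van {d : ℕ} (c : Fin (d + 1) → ℂ) {S : Set ℂ} (hS : S.Infinite)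
    (h : ∀ r ∈ S, ∑ i, c i * r ^ (i : ℕ) = 0) : ∀ i, c i = 0 := by
  have h0 : (∑ i, Polynomial.C (c i) * Polynomial.X ^ (i : ℕ) : Polynomial ℂ) = 0 := by
    refine Polynomial.eq_zero_of_infinite_isRoot _ (hS.mono fun r hr => ?_)
    simp only [Set.mem_ofPred_eq, Polynomial.IsRoot.def, Polynomial.eval_finsetSum,
      Polynomial.eval_mul, Polynomial.eval_C, Polynomial.eval_pow, Polynomial.eval_X]
    exact h r hr
  intro i
  have h1 := congrArg (fun p => Polynomial.coeff p (i : ℕ)) h0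
  simp only [Polynomial.finsetSum_coeff, Polynomial.coeff_C_mul, Polynomial.coeff_X_pow,
    Polynomial.coeff_zero] at h1
  rw [Finset.sum_eq_single i] at h1
  · simpa using h1
  · intro j _ hj
    rw [if_neg (fun hh => hj (Fin.ext hh.symm)), mul_zero]
  · intro hh
    exact absurd (Finset.mem_univ i) hh

/-- determinant of the coefficients -/
private noncomputable def Mp_det (A B : Matrix (Fin 2) (Fin 2) ℤ) (z : ℂ) : ℂ :=
  ((A 1 0 : ℂ) * z + (A 1 1 : ℂ)) * ((B 0 0 : ℂ) * z + (B 0 1 : ℂ)) -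
    ((B 1 0 : ℂ) * z + (B 1 1 : ℂ)) * ((A 0 0 : ℂ) * z + (A 0 1 : ℂ))

private lemma Mp_det_poly {A B : Matrix (Fin 2) (Fin 2) ℤ} (hA : A.det ≠ 0)
    (h : ∀ x y : ℤ, x • A + y • B = 0 → x = 0 ∧ y = 0) :
    ∃ p : Polynomial ℂ, p ≠ 0 ∧ ∀ z, p.eval z = Mp_det A B z := by
  refine ⟨(Polynomial.C (A 1 0 : ℂ) * Polynomial.X + Polynomial.C (A 1 1 : ℂ)) *
    (Polynomial.C (B 0 0 : ℂ) * Polynomial.X + Polynomial.C (B 0 1 : ℂ)) -
    (Polynomial.C (B 1 0 : ℂ) * Polynomial.X + Polynomial.C (B 1 1 : ℂ)) *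
    (Polynomial.C (A 0 0 : ℂ) * Polynomial.X + Polynomial.C (A 0 1 : ℂ)), ?_, ?_⟩
  swap
  · intro z
    simp [Mp_det]
  intro h0
  have h1 : ∀ z, Mp_det A B z = 0 := by
    intro z
    have := congrArg (Polynomial.eval z) h0
    simpa [Mp_det] using this
  have e0 := h1 0
  have e1 := h1 1
  have e2 := h1 (-1)
  unfold Mp_det at e0 e1 e2
  have i0 : (A 1 1 * B 0 1 - B 1 1 * A 0 1 : ℂ) = 0 := by linear_combination e0
  have i1 : (A 1 0 * B 0 0 - B 1 0 * A 0 0 : ℂ) = 0 := by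
    linear_combination (e1 + e2) / 2 - e0
  have i2 : (A 1 0 * B 0 1 + A 1 1 * B 0 0 - B 1 0 * A 0 1 - B 1 1 * A 0 0 : ℂ) = 0 := by
    linear_combination (e1 - e2) / 2
  have j0 : A 1 1 * B 0 1 - B 1 1 * A 0 1 = 0 := by exact_mod_cast i0
  have j1 : A 1 0 * B 0 0 - B 1 0 * A 0 0 = 0 := by exact_mod_cast i1
  have j2 : A 1 0 * B 0 1 + A 1 1 * B 0 0 - B 1 0 * A 0 1 - B 1 1 * A 0 0 = 0 := by
    exact_mod_cast i2
  rw [Matrix.det_fin_two] at hA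
  have k0 : A 1 0 * B 0 1 - A 0 1 * B 1 0 = 0 := by
    have : (A 0 0 * A 1 1 - A 0 1 * A 1 0) * (A 1 0 * B 0 1 - A 0 1 * B 1 0) = 0 := by
      linear_combination A 0 0 * A 1 0 * j0 + A 0 1 * A 1 1 * j1 - A 0 1 * A 1 0 * j2
    rcases mul_eq_zero.1 this with h2 | h2
    · exact absurd h2 hA
    · exact h2
  have k1 : A 1 1 * B 0 0 - A 0 0 * B 1 1 = 0 := by linear_combination j2 - k0
  have h3 := h (-(B 0 0 * A 1 1 - A 1 0 * B 0 1)) (A 0 0 * A 1 1 - A 0 1 * A 1 0) (by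
    ext i j
    simp only [Matrix.add_apply, Matrix.smul_apply, smul_eq_mul, Matrix.zero_apply]
    fin_cases i <;> fin_cases j <;> simp only [Fin.zero_eta, Fin.mk_one, Fin.isValue]
    · linear_combination A 0 0 * k0 - A 0 1 * j1
    · linear_combination A 0 0 * j0 - A 0 1 * k1
    · linear_combination A 1 0 * k0 - A 1 1 * j1
    · linear_combination A 1 0 * j0 - A 1 1 * k1)
  exact hA h3.2

private lemma Mp_sol {A B : Matrix (Fin 2) (Fin 2) ℤ} {z : ℂ} (hz : Mp_det A B z ≠ 0) :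
    ∃ S : Set ℂ, S.Infinite ∧ ∀ r ∈ S, ∃ t : ℂ,
      t * ((B 1 0 : ℂ) * z + (B 1 1 : ℂ)) - ((B 0 0 : ℂ) * z + (B 0 1 : ℂ)) =
        r * (t * ((A 1 0 : ℂ) * z + (A 1 1 : ℂ)) - ((A 0 0 : ℂ) * z + (A 0 1 : ℂ))) ∧
      t * ((A 1 0 : ℂ) * z + (A 1 1 : ℂ)) - ((A 0 0 : ℂ) * z + (A 0 1 : ℂ)) ≠ 0 := by
  unfold Mp_det at hz
  generalize ((A 1 0 : ℂ) * z + (A 1 1 : ℂ)) = m at *
  generalize ((A 0 0 : ℂ) * z + (A 0 1 : ℂ)) = k at *
  generalize ((B 1 0 : ℂ) * z + (B 1 1 : ℂ)) = m' at *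
  generalize ((B 0 0 : ℂ) * z + (B 0 1 : ℂ)) = k' at *
  refine ⟨{m' / m}ᶜ, (Set.finite_singleton _).infinite_compl, fun r hr => ?_⟩
  have hr' : m' - r * m ≠ 0 := by
    intro h0
    by_cases hm : m = 0
    · apply hz
      rw [hm] at h0 ⊢
      have : m' = 0 := by linear_combination h0
      rw [this]
      ring
    · apply hr
      rw [Set.mem_singleton_iff, eq_div_iff hm]
      linear_combination -h0
  refine ⟨(k' - r * k) / (m' - r * m), ?_, ?_⟩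
  · field_simp
    ring
  · have : (k' - r * k) / (m' - r * m) * m - k = (m * k' - m' * k) / (m' - r * m) := by
      field_simp
      ring
    rw [this]
    exact div_ne_zero hz hr'

theorem mpp_indep {b₁ a₁ b₂ a₂ : Fin mm} (n1 : a₁ ≠ b₁) (n2 : a₂ ≠ b₂)
    (n3 : a₁ ≠ a₂) (n4 : a₁ ≠ b₂) (n5 : a₂ ≠ b₁) {A₁ A₂ B₁ B₂ : Matrix (Fin 2) (Fin 2) ℤ} (hA₁ : A₁.det ≠ 0) (hB₁ : B₁.det ≠ 0)
    (hA : ∀ x y : ℤ, x • A₁ + y • A₂ = 0 → x = 0 ∧ y = 0)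
    (hB : ∀ x y : ℤ, x • B₁ + y • B₂ = 0 → x = 0 ∧ y = 0) {d : ℕ}
    (g : Fin (d + 1) → Fin (d + 1) → ℂ) (hg : g ≠ 0) :
    ∑ i, ∑ j, C (g i j) * (mpp b₁ a₁ A₂ ^ (i : ℕ) * mpp b₁ a₁ A₁ ^ (d - i) * mpp b₂ a₂ B₂ ^ (j : ℕ) *
      mpp b₂ a₂ B₁ ^ (d - j)) ≠ 0 := by
  intro h0
  obtain ⟨pA, hpA, hpA'⟩ := Mp_det_poly hA₁ hA
  obtain ⟨pB, hpB, hpB'⟩ := Mp_det_poly hB₁ hB
  obtain ⟨z, hz⟩ : ∃ z, (pA * pB).eval z ≠ 0 := by
    by_contra hcon
    push Not at hcon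
    exact mul_ne_zero hpA hpB (Polynomial.funext fun z => by rw [hcon z, Polynomial.eval_zero])
  rw [Polynomial.eval_mul, hpA', hpB'] at hz
  obtain ⟨S, hS, hS'⟩ := Mp_sol (left_ne_zero_of_mul hz)
  obtain ⟨S', hT, hT'⟩ := Mp_sol (right_ne_zero_of_mul hz)
  apply hg
  have key : ∀ r ∈ S, ∀ r' ∈ S', ∑ i, (∑ j, g i j * r' ^ (j : ℕ)) * r ^ (i : ℕ) = 0 := by
    intro r hr r' hr'
    obtain ⟨t, ht, ht0⟩ := hS' r hr
    obtain ⟨t', ht', ht0'⟩ := hT' r' hr'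
    have h1 := congrArg (eval (fun i => if i = a₁ then t else if i = a₂ then t' else z)) h0
    simp only [map_sum, map_mul, map_pow, eval_C, mpp_eval, map_zero, if_true, if_neg n1.symm,
      if_neg n2.symm, if_neg n3.symm, if_neg n4.symm, if_neg n5.symm] at h1
    rw [ht, ht'] at h1
    generalize (t * ((A₁ 1 0 : ℂ) * z + (A₁ 1 1 : ℂ)) - ((A₁ 0 0 : ℂ) * z + (A₁ 0 1 : ℂ))) = α
      at h1 ht0
    generalize (t' * ((B₁ 1 0 : ℂ) * z + (B₁ 1 1 : ℂ)) - ((B₁ 0 0 : ℂ) * z + (B₁ 0 1 : ℂ))) = β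
      at h1 ht0'
    have h2 : α ^ d * β ^ d * ∑ i, (∑ j, g i j * r' ^ (j : ℕ)) * r ^ (i : ℕ) = 0 := by
      rw [← h1, Finset.mul_sum]
      refine Finset.sum_congr rfl fun i _ => ?_
      rw [Finset.sum_mul, Finset.mul_sum]
      refine Finset.sum_congr rfl fun j _ => ?_
      have hi : α ^ d = α ^ (i : ℕ) * α ^ (d - i) := by
        rw [← pow_add, Nat.add_sub_cancel' (Nat.lt_succ_iff.1 i.2)]
      have hj : β ^ d = β ^ (j : ℕ) * β ^ (d - j) := by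
        rw [← pow_add, Nat.add_sub_cancel' (Nat.lt_succ_iff.1 j.2)]
      rw [hi, hj, mul_pow, mul_pow]
      ring
    rcases mul_eq_zero.1 h2 with h3 | h3
    · exact absurd h3 (mul_ne_zero (pow_ne_zero _ ht0) (pow_ne_zero _ ht0'))
    · exact h3
  funext i j
  refine Mp_van (fun j => g i j) hT (fun r' hr' => ?_) j
  exact Mp_van (fun i => ∑ j, g i j * r' ^ (j : ℕ)) hS (fun r hr => key r hr r' hr') i

end Pool.Agent.LGO.PWG
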