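import Mathlib
import Pool.Agent.LGO.PWG.Step
import Pool.Agent.LGO.PWG.Typ

/-!
# LGO/PWG: tiny discs contain boundedly many points with a quadratic coordinate

`quad_minor`: if two integral vectors `p, q` with entries at most `H` satisfy
`|p₀ τ ^ 2 + p₁ τ + p₂| ≤ δ`, the same for `q`, with `Im τ ≥ c`, `|τ| ≤ H`, `δ` small, then all `2 x 2` minors
are `0`: `p₁ = - 2 p₀ Re τ + O(δ)`, `p₂ = p₀ |τ| ^ 2 + O(H δ)`, so the minors are `O(H ^ 3 δ)`, less than `1`.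
So near a point `s₀` all points with `QuadH H (z a s)` are zeros of one polynomial
`q₀ X_a ^ 2 + q₁ X_a + q₂`: `Fam.zeros_card`.
-/

namespace Pool.Agent.LGO.PWG

open MvPolynomial Metric Pool.Agent.LGO.PW

variable {mm : ℕ} {Ω Cn : Set ℂ} {z : Fin mm → ℂ → ℂ} {ρ : ℂ → ℝ}

/-- approximate solutions -/
private theorem quad_app {c H δ : ℝ} (hc : 0 < c) {τ : ℂ} (hτ : c ≤ τ.im) (hτH : ‖τ‖ ≤ H)
    (hδ : 0 ≤ δ) {q : Fin 3 → ℤ} (h : ‖(q 0 : ℂ) * τ ^ 2 + (q 1 : ℂ) * τ + (q 2 : ℂ)‖ ≤ δ) :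
    |(q 1 : ℝ) - (-(2 * q 0 * τ.re))| ≤ δ / c ∧
      |(q 2 : ℝ) - q 0 * (τ.re ^ 2 + τ.im ^ 2)| ≤ δ + H * (δ / c) := by
  obtain ⟨F, hF⟩ : ∃ F : ℂ, F = (q 0 : ℂ) * τ ^ 2 + (q 1 : ℂ) * τ + (q 2 : ℂ) := ⟨_, rfl⟩
  rw [← hF] at h
  have hτ0 : 0 < τ.im := hc.trans_le hτ
  have e1 : F.im = (2 * (q 0 : ℝ) * τ.re + q 1) * τ.im := by
    rw [hF]
    simp [pow_two]
    ring
  have e2 : F.re = (q 0 : ℝ) * (τ.re ^ 2 - τ.im ^ 2) + q 1 * τ.re + q 2 := by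
    rw [hF]
    simp [pow_two]
  have b1 : |F.im| ≤ δ := (Complex.abs_im_le_norm F).trans h
  have b2 : |F.re| ≤ δ := (Complex.abs_re_le_norm F).trans h
  have k1 : |(q 1 : ℝ) - (-(2 * q 0 * τ.re))| ≤ δ / c := by
    have e3 : (q 1 : ℝ) - (-(2 * q 0 * τ.re)) = F.im / τ.im := by
      rw [e1, mul_div_cancel_right₀ _ hτ0.ne']
      ring
    rw [e3, abs_div, abs_of_pos hτ0]
    calc |F.im| / τ.im ≤ δ / τ.im := div_le_div_of_nonneg_right b1 hτ0.le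
      _ ≤ δ / c := div_le_div_of_nonneg_left hδ hc hτ
  refine ⟨k1, ?_⟩
  have e4 : (q 2 : ℝ) - q 0 * (τ.re ^ 2 + τ.im ^ 2) =
      F.re - τ.re * ((q 1 : ℝ) - (-(2 * q 0 * τ.re))) := by
    rw [e2]
    ring
  rw [e4]
  have hre : |τ.re| ≤ H := (Complex.abs_re_le_norm τ).trans hτH
  calc |F.re - τ.re * ((q 1 : ℝ) - (-(2 * q 0 * τ.re)))|
      ≤ |F.re| + |τ.re * ((q 1 : ℝ) - (-(2 * q 0 * τ.re)))| := abs_sub _ _
    _ ≤ δ + H * (δ / c) := by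
        rw [abs_mul]
        exact add_le_add b2 (mul_le_mul hre k1 (abs_nonneg _) ((abs_nonneg _).trans hre))

private theorem lt_one_zero {n : ℤ} (h : |(n : ℝ)| < 1) : n = 0 := by
  by_contra hn
  have h1 := Int.one_le_abs hn
  have h2 : (1 : ℝ) ≤ |(n : ℝ)| := by exact_mod_cast h1
  linarith

/-- approximately proportional vectors -/
private theorem minor_app {u u' A B e H : ℝ} (hu : |u| ≤ H) (hu' : |u'| ≤ H) (hA : |A| ≤ H ^ 2)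
    (hB : |B| ≤ H ^ 2) (hH : 1 ≤ H) {x y x' y' : ℝ} (hx : |x - u * A| ≤ e) (hy : |y - u * B| ≤ e)
    (hx' : |x' - u' * A| ≤ e) (hy' : |y' - u' * B| ≤ e) (he : e ≤ 1) :
    |x * y' - x' * y| ≤ 4 * H ^ 3 * e + 2 * e := by
  have he0 : 0 ≤ e := (abs_nonneg _).trans hx
  obtain ⟨a, ha⟩ : ∃ a, a = x - u * A := ⟨_, rfl⟩
  obtain ⟨b, hb⟩ : ∃ b, b = y - u * B := ⟨_, rfl⟩
  obtain ⟨a', ha'⟩ : ∃ a', a' = x' - u' * A := ⟨_, rfl⟩
  obtain ⟨b', hb'⟩ : ∃ b', b' = y' - u' * B := ⟨_, rfl⟩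
  rw [← ha] at hx
  rw [← hb] at hy
  rw [← ha'] at hx'
  rw [← hb'] at hy'
  have e1 : x * y' - x' * y = u * A * b' + a * (u' * B) - u' * A * b - a' * (u * B) +
      (a * b' - a' * b) := by
    rw [ha, hb, ha', hb']
    ring
  have hH0 : 0 ≤ H := by linarith
  have m1 : ∀ p q r : ℝ, |p| ≤ H → |q| ≤ H ^ 2 → |r| ≤ e → |p * q * r| ≤ H ^ 3 * e := by
    intro p q r hp hq hr
    rw [abs_mul, abs_mul]
    calc |p| * |q| * |r| ≤ H * H ^ 2 * e :=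
          mul_le_mul (mul_le_mul hp hq (abs_nonneg _) hH0) hr (abs_nonneg _) (by positivity)
      _ = H ^ 3 * e := by ring
  have n1 := m1 u A b' hu hA hy'
  have n2 := m1 u' B a hu' hB hx
  have n3 := m1 u' A b hu' hA hy
  have n4 := m1 u B a' hu hB hx'
  have n5 : |a * b'| ≤ e := by
    rw [abs_mul]
    calc |a| * |b'| ≤ e * 1 := mul_le_mul hx (hy'.trans he) (abs_nonneg _) he0
      _ = e := mul_one e
  have n6 : |a' * b| ≤ e := by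
    rw [abs_mul]
    calc |a'| * |b| ≤ e * 1 := mul_le_mul hx' (hy.trans he) (abs_nonneg _) he0
      _ = e := mul_one e
  rw [e1]
  rw [abs_le] at *
  constructor
  · nlinarith
  · nlinarith

/-- two approximate integral solutions are proportional -/
theorem quad_minor {c : ℝ} (hc : 0 < c) : ∃ C : ℕ, 0 < C ∧ ∀ (H δ : ℝ) (τ : ℂ), 2 ≤ H → c ≤ τ.im →
    ‖τ‖ ≤ H → 0 ≤ δ → C * H ^ C * δ < 1 → ∀ p q : Fin 3 → ℤ, (∀ i, |(p i : ℝ)| ≤ H) →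
    (∀ i, |(q i : ℝ)| ≤ H) → ‖(p 0 : ℂ) * τ ^ 2 + (p 1 : ℂ) * τ + (p 2 : ℂ)‖ ≤ δ →
    ‖(q 0 : ℂ) * τ ^ 2 + (q 1 : ℂ) * τ + (q 2 : ℂ)‖ ≤ δ → ∀ i j, p i * q j = p j * q i := by
  obtain ⟨K, hK⟩ := exists_nat_ge (1 + 1 / c)
  have hc1 : 0 < 1 / c := by positivity
  have hK1 : (1 : ℝ) ≤ K := by linarith
  have hK0 : 0 < K := by exact_mod_cast (by linarith : (0 : ℝ) < K)
  refine ⟨6 * K + 6, by omega, ?_⟩
  intro H δ τ hH hτ hτH hδ hsm p q hp hq hpδ hqδ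
  have hH1 : 1 ≤ H := by linarith
  have hH0 : 0 ≤ H := by linarith
  obtain ⟨e, he⟩ : ∃ e : ℝ, e = K * H * δ := ⟨_, rfl⟩
  have he0 : 0 ≤ e := by rw [he]; positivity
  have hsm2 : 6 * H ^ 3 * e < 1 := by
    refine lt_of_le_of_lt ?_ hsm
    have e1 : H ^ 4 ≤ H ^ (6 * K + 6) := pow_le_pow_right₀ hH1 (by omega)
    have e2 : (6 * K : ℝ) ≤ ((6 * K + 6 : ℕ) : ℝ) := by push_cast; linarith
    calc 6 * H ^ 3 * e = 6 * K * H ^ 4 * δ := by rw [he]; ring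
      _ ≤ ((6 * K + 6 : ℕ) : ℝ) * H ^ (6 * K + 6) * δ := by
          apply mul_le_mul_of_nonneg_right _ hδ
          exact mul_le_mul e2 e1 (by positivity) (by positivity)
  have hH3 : 1 ≤ H ^ 3 := one_le_pow₀ hH1
  have he1 : e ≤ 1 := by nlinarith
  -- the bounds
  have hb1 : δ / c ≤ e := by
    rw [he, div_eq_mul_one_div]
    have e1 : 1 / c ≤ K * H := by nlinarith
    calc δ * (1 / c) ≤ δ * (K * H) := mul_le_mul_of_nonneg_left e1 hδ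
      _ = K * H * δ := by ring
  have hb2 : δ + H * (δ / c) ≤ e := by
    rw [he, div_eq_mul_one_div]
    have e1 : 1 + H * (1 / c) ≤ K * H := by nlinarith
    calc δ + H * (δ * (1 / c)) = (1 + H * (1 / c)) * δ := by ring
      _ ≤ K * H * δ := mul_le_mul_of_nonneg_right e1 hδ
  obtain ⟨A, hA⟩ : ∃ A : ℝ, A = -(2 * τ.re) := ⟨_, rfl⟩
  obtain ⟨B, hB⟩ : ∃ B : ℝ, B = τ.re ^ 2 + τ.im ^ 2 := ⟨_, rfl⟩
  have hAb : |A| ≤ H ^ 2 := by
    rw [hA, abs_neg, abs_mul, abs_of_pos (by norm_num : (0 : ℝ) < 2)]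
    have := (Complex.abs_re_le_norm τ).trans hτH
    nlinarith
  have hBb : |B| ≤ H ^ 2 := by
    have e1 : ‖τ‖ ^ 2 = τ.re ^ 2 + τ.im ^ 2 := by
      rw [Complex.sq_norm, Complex.normSq_apply]
      ring
    rw [hB, abs_of_nonneg (by positivity), ← e1]
    exact pow_le_pow_left₀ (norm_nonneg _) hτH 2
  have hOb : |(1 : ℝ)| ≤ H ^ 2 := by
    rw [abs_one]
    exact one_le_pow₀ hH1
  -- entries
  have ap : ∀ r : Fin 3 → ℤ, ‖(r 0 : ℂ) * τ ^ 2 + (r 1 : ℂ) * τ + (r 2 : ℂ)‖ ≤ δ →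
      |(r 0 : ℝ) - r 0 * 1| ≤ e ∧ |(r 1 : ℝ) - r 0 * A| ≤ e ∧ |(r 2 : ℝ) - r 0 * B| ≤ e := by
    intro r hr
    obtain ⟨k1, k2⟩ := quad_app hc hτ hτH hδ hr
    refine ⟨?_, ?_, ?_⟩
    · rw [mul_one, sub_self, abs_zero]
      exact he0
    · have e1 : (r 1 : ℝ) - r 0 * A = (r 1 : ℝ) - (-(2 * r 0 * τ.re)) := by rw [hA]; ring
      rw [e1]
      exact k1.trans hb1
    · rw [hB]
      exact k2.trans hb2
  obtain ⟨p0, p1, p2⟩ := ap p hpδ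
  obtain ⟨q0, q1, q2⟩ := ap q hqδ
  have fin : ∀ (x y x' y' : ℤ) (A B : ℝ), |A| ≤ H ^ 2 → |B| ≤ H ^ 2 →
      |(x : ℝ) - p 0 * A| ≤ e → |(y : ℝ) - p 0 * B| ≤ e → |(x' : ℝ) - q 0 * A| ≤ e →
      |(y' : ℝ) - q 0 * B| ≤ e → x * y' = x' * y := by
    intro x y x' y' A B hA hB h1 h2 h3 h4
    have h5 := minor_app (hp 0) (hq 0) hA hB hH1 h1 h2 h3 h4 he1
    have h6 : 4 * H ^ 3 * e + 2 * e < 1 := by nlinarith
    have h7 : x * y' - x' * y = 0 := by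
      apply lt_one_zero
      push_cast
      exact lt_of_le_of_lt h5 h6
    linarith
  have m01 := fin (p 0) (p 1) (q 0) (q 1) 1 A hOb hAb p0 p1 q0 q1
  have m02 := fin (p 0) (p 2) (q 0) (q 2) 1 B hOb hBb p0 p2 q0 q2
  have m12 := fin (p 1) (p 2) (q 1) (q 2) A B hAb hBb p1 p2 q1 q2
  intro i j
  fin_cases i <;> fin_cases j
  · rfl
  · change p 0 * q 1 = p 1 * q 0
    linarith
  · change p 0 * q 2 = p 2 * q 0
    linarith
  · change p 1 * q 0 = p 0 * q 1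
    linarith
  · rfl
  · change p 1 * q 2 = p 2 * q 1
    linarith
  · change p 2 * q 0 = p 0 * q 2
    linarith
  · change p 2 * q 1 = p 1 * q 2
    linarith
  · rfl

/-- tiny discs contain boundedly many points with a quadratic coordinate -/
theorem tiny_quad (hF : Fam Ω Cn z ρ) (a : Fin mm) : Tiny Cn (fun H s => QuadH H (z a s)) := by
  classical
  obtain ⟨p, hp⟩ := hF.zeros_card 2
  obtain ⟨C₁, hC₁, hlip⟩ := hF.lip
  obtain ⟨C₂, hsz⟩ := hF.size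
  obtain ⟨c, hc, him⟩ := hF.im
  obtain ⟨C₃, hC₃, hmin⟩ := quad_minor hc
  -- `‖z a s‖ ≤ H ^ k`
  obtain ⟨k, hk⟩ := pow_unbounded_of_one_lt (3 * |C₂|) (by norm_num : (1 : ℝ) < 2)
  obtain ⟨l, hl⟩ := pow_unbounded_of_one_lt ((C₃ : ℝ) * (6 * C₁)) (by norm_num : (1 : ℝ) < 2)
  refine ⟨(k + 1) * C₃ + (2 * (k + 1) + l + 4), p, ?_⟩
  intro H hH w hw hwH s₀ hs₀ S hS
  have hH1 : 1 ≤ H := by linarith
  have hH0 : 0 < H := by linarith
  have hsub : closedBall w 1 ⊆ Ω :=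
    (closedBall_subset_ball (by norm_num)).trans (hF.ball w hw)
  rcases S.eq_empty_or_nonempty with hS0 | ⟨s₁, hs₁⟩
  · rw [hS0]
    simp
  have hnorm : ∀ s ∈ closedBall w 1, ‖z a s‖ ≤ H ^ (k + 1) := by
    intro s hs
    have e1 : ‖s‖ ≤ H + 1 := by
      rw [mem_closedBall, dist_eq_norm] at hs
      have := norm_sub_norm_le s w
      linarith
    have e2 : C₂ * (1 + ‖s‖) ≤ |C₂| * (1 + ‖s‖) :=
      mul_le_mul_of_nonneg_right (le_abs_self _) (by positivity)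
    have e3 : |C₂| * (1 + ‖s‖) ≤ |C₂| * (3 * H) :=
      mul_le_mul_of_nonneg_left (by linarith) (abs_nonneg _)
    have e4 : (2 : ℝ) ^ k ≤ H ^ k := pow_le_pow_left₀ (by norm_num) hH k
    calc ‖z a s‖ ≤ C₂ * (1 + ‖s‖) := hsz a s (hsub hs)
      _ ≤ 3 * |C₂| * H := by linarith
      _ ≤ H ^ k * H := mul_le_mul_of_nonneg_right (hk.le.trans e4) hH0.le
      _ = H ^ (k + 1) := (pow_succ _ _).symm
  have hex : ∀ s ∈ S, ∃ q : Fin 3 → ℤ, q ≠ 0 ∧ (∀ i, |(q i : ℝ)| ≤ H) ∧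
      (q 0 : ℂ) * z a s ^ 2 + (q 1 : ℂ) * z a s + (q 2 : ℂ) = 0 := fun s hs => (hS s hs).2.1.2
  choose! q hq0 hqH hqr using hex
  obtain ⟨T, hT⟩ : ∃ T : ℕ, T = (k + 1) * C₃ + (2 * (k + 1) + l + 4) := ⟨_, rfl⟩
  rw [← hT] at hS
  -- the value at `s₀`
  obtain ⟨δ, hδ⟩ : ∃ δ : ℝ, δ = 3 * H ^ (k + 1) * H * (C₁ * (1 + H) * (H ^ T)⁻¹) := ⟨_, rfl⟩
  have hHk : 1 ≤ H ^ (k + 1) := one_le_pow₀ hH1
  have hδ0 : 0 ≤ δ := by rw [hδ]; positivity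
  have happ : ∀ s ∈ S, ‖(q s 0 : ℂ) * z a s₀ ^ 2 + (q s 1 : ℂ) * z a s₀ + (q s 2 : ℂ)‖ ≤ δ := by
    intro s hs
    have hsw := (hS s hs).1
    have e1 : ‖z a s₀ - z a s‖ ≤ C₁ * (1 + H) * (H ^ T)⁻¹ := by
      have e2 := hlip a w hw s₀ hs₀ s hsw
      have e3 : ‖s₀ - s‖ ≤ (H ^ T)⁻¹ := by
        rw [norm_sub_rev]
        exact (hS s hs).2.2
      calc ‖z a s₀ - z a s‖ ≤ C₁ * (1 + ‖w‖) * ‖s₀ - s‖ := e2
        _ ≤ C₁ * (1 + H) * (H ^ T)⁻¹ := by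
            apply mul_le_mul _ e3 (norm_nonneg _) (by positivity)
            exact mul_le_mul_of_nonneg_left (by linarith) (Nat.cast_nonneg _)
    have e4 : (q s 0 : ℂ) * z a s₀ ^ 2 + (q s 1 : ℂ) * z a s₀ + (q s 2 : ℂ) =
        ((q s 0 : ℂ) * (z a s₀ + z a s) + (q s 1 : ℂ)) * (z a s₀ - z a s) := by
      linear_combination hqr s hs
    have e5 : ‖(q s 0 : ℂ) * (z a s₀ + z a s) + (q s 1 : ℂ)‖ ≤ 3 * H ^ (k + 1) * H := by
      have f1 : ‖(q s 0 : ℂ)‖ ≤ H := by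
        rw [Complex.norm_intCast]
        exact hqH s hs 0
      have f2 : ‖(q s 1 : ℂ)‖ ≤ H := by
        rw [Complex.norm_intCast]
        exact hqH s hs 1
      calc ‖(q s 0 : ℂ) * (z a s₀ + z a s) + (q s 1 : ℂ)‖
          ≤ ‖(q s 0 : ℂ)‖ * (‖z a s₀‖ + ‖z a s‖) + ‖(q s 1 : ℂ)‖ := by
            refine (norm_add_le _ _).trans ?_
            rw [norm_mul]
            exact add_le_add (mul_le_mul_of_nonneg_left (norm_add_le _ _) (norm_nonneg _)) le_rfl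
        _ ≤ H * (H ^ (k + 1) + H ^ (k + 1)) + H := by
            refine add_le_add (mul_le_mul f1 (add_le_add (hnorm s₀ hs₀) (hnorm s hsw))
              (by positivity) hH0.le) f2
        _ ≤ 3 * H ^ (k + 1) * H := by nlinarith
    rw [e4, norm_mul, hδ]
    exact mul_le_mul e5 e1 (norm_nonneg _) (by positivity)
  have hsmall : (C₃ : ℝ) * (H ^ (k + 1)) ^ C₃ * δ < 1 := by
    have e1 : (1 + H) ≤ 2 * H := by linarith
    have e2 : (2 : ℝ) ^ l ≤ H ^ l := pow_le_pow_left₀ (by norm_num) hH l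
    have hT0 : 0 < H ^ T := by positivity
    have e3 : (C₃ : ℝ) * (H ^ (k + 1)) ^ C₃ * (3 * H ^ (k + 1) * H * (C₁ * (1 + H))) < H ^ T := by
      calc (C₃ : ℝ) * (H ^ (k + 1)) ^ C₃ * (3 * H ^ (k + 1) * H * (C₁ * (1 + H)))
          ≤ (C₃ : ℝ) * (H ^ (k + 1)) ^ C₃ * (3 * H ^ (k + 1) * H * (C₁ * (2 * H))) := by gcongr
        _ = (C₃ : ℝ) * (6 * C₁) * ((H ^ (k + 1)) ^ C₃ * (H ^ (k + 1) * H ^ 2)) := by ring
        _ ≤ H ^ l * ((H ^ (k + 1)) ^ C₃ * (H ^ (k + 1) * H ^ 2)) :=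
            mul_le_mul_of_nonneg_right (hl.le.trans e2) (by positivity)
        _ = H ^ ((k + 1) * C₃ + (k + 1 + l + 2)) := by
            rw [← pow_mul]
            ring
        _ < H ^ T := by
            rw [hT]
            exact pow_lt_pow_right₀ (by linarith) (by omega)
    calc (C₃ : ℝ) * (H ^ (k + 1)) ^ C₃ * δ =
        (C₃ : ℝ) * (H ^ (k + 1)) ^ C₃ * (3 * H ^ (k + 1) * H * (C₁ * (1 + H))) * (H ^ T)⁻¹ := by
          rw [hδ]; ring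
      _ < H ^ T * (H ^ T)⁻¹ := mul_lt_mul_of_pos_right e3 (by positivity)
      _ = 1 := mul_inv_cancel₀ hT0.ne'
  have hHle : H ≤ H ^ (k + 1) := le_self_pow₀ hH1 (Nat.succ_ne_zero k)
  have hprop : ∀ s ∈ S, ∀ i j, q s i * q s₁ j = q s j * q s₁ i := fun s hs =>
    hmin (H ^ (k + 1)) δ (z a s₀) (hH.trans hHle) (him a s₀ (hsub hs₀)) (hnorm s₀ hs₀) hδ0 hsmall
      (q s) (q s₁) (fun i => (hqH s hs i).trans hHle) (fun i => (hqH s₁ hs₁ i).trans hHle)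
      (happ s hs) (happ s₁ hs₁)
  -- the polynomial
  set G : MvPolynomial (Fin mm) ℂ :=
    C (q s₁ 0 : ℂ) * X a ^ 2 + C (q s₁ 1 : ℂ) * X a + C (q s₁ 2 : ℂ) with hG
  have hev : ∀ x : Fin mm → ℂ, eval x G =
      (q s₁ 0 : ℂ) * x a ^ 2 + (q s₁ 1 : ℂ) * x a + (q s₁ 2 : ℂ) := by
    intro x
    simp [hG]
  have hG0 : G ≠ 0 := by
    intro hz
    apply hq0 s₁ hs₁
    have hval : ∀ u : ℂ, (q s₁ 0 : ℂ) * u ^ 2 + (q s₁ 1 : ℂ) * u + (q s₁ 2 : ℂ) = 0 := by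
      intro u
      have := hev (fun _ => u)
      rw [hz, map_zero] at this
      exact this.symm
    have e0 := hval 0
    have e1 := hval 1
    have e2 := hval (-1)
    funext i
    have f0 : (q s₁ 0 : ℂ) = 0 := by
      linear_combination (1 / 2 : ℂ) * e1 + (1 / 2 : ℂ) * e2 - e0
    have f1 : (q s₁ 1 : ℂ) = 0 := by
      linear_combination (1 / 2 : ℂ) * e1 - (1 / 2 : ℂ) * e2
    have f2 : (q s₁ 2 : ℂ) = 0 := by
      linear_combination e0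
    fin_cases i
    · exact_mod_cast f0
    · exact_mod_cast f1
    · exact_mod_cast f2
  have hGd : G.totalDegree ≤ 2 := by
    rw [hG]
    refine (totalDegree_add _ _).trans (max_le ((totalDegree_add _ _).trans (max_le ?_ ?_)) ?_)
    · refine (totalDegree_mul _ _).trans ?_
      rw [totalDegree_C, zero_add]
      exact (totalDegree_pow _ _).trans (by rw [totalDegree_X])
    · refine (totalDegree_mul _ _).trans ?_
      rw [totalDegree_C, zero_add, totalDegree_X]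
      norm_num
    · rw [totalDegree_C]
      norm_num
  refine hp w hw G hG0 hGd S fun s hs => ⟨(hS s hs).1, ?_⟩
  rw [hev]
  obtain ⟨i, hi⟩ : ∃ i, q s i ≠ 0 := by
    by_contra hcon
    push Not at hcon
    exact hq0 s hs (funext hcon)
  have hi' : (q s i : ℂ) ≠ 0 := by exact_mod_cast hi
  have hpr : ∀ j, (q s i : ℂ) * (q s₁ j : ℂ) = (q s j : ℂ) * (q s₁ i : ℂ) := by
    intro j
    exact_mod_cast hprop s hs i j
  have hfin : (q s i : ℂ) * ((q s₁ 0 : ℂ) * z a s ^ 2 + (q s₁ 1 : ℂ) * z a s + (q s₁ 2 : ℂ)) = 0 := by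
    linear_combination z a s ^ 2 * hpr 0 + z a s * hpr 1 + hpr 2 + (q s₁ i : ℂ) * hqr s hs
  exact (mul_eq_zero.1 hfin).resolve_left hi'

theorem Tiny.mono {P Q : ℝ → ℂ → Prop} (h : Tiny Cn P) (hPQ : ∀ H s, Q H s → P H s) : Tiny Cn Q := by
  obtain ⟨T, p, hT⟩ := h
  exact ⟨T, p, fun H hH w hw hwH s₀ hs₀ S hS => hT H hH w hw hwH s₀ hs₀ S fun s hs =>
    ⟨(hS s hs).1, hPQ H s (hS s hs).2.1, (hS s hs).2.2⟩⟩

theorem tiny3 {z : Fin 3 → ℂ → ℂ} (hF : Fam Ω Cn z ρ) : Tiny Cn (Pt3 z) :=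
  (tiny_quad hF 2).mono fun _ _ h => h.2

theorem tiny4 {z : Fin 2 → ℂ → ℂ} (hF : Fam Ω Cn z ρ) : Tiny Cn (Pt4 z) :=
  (tiny_quad hF 0).mono fun _ _ h => h.1

end Pool.Agent.LGO.PWG
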