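import Mathlib
import Pool.Agent.LGO.PWG.TinyA
import Pool.Agent.LGO.PWG.TinyQ

/-!
# LGO/PWG: tiny discs contain boundedly many points, two pairs

As `LGO/PW/Tiny.lean`, for two pairs `(b₁, a₁)`, `(b₂, a₂)` of indices with `a₁, a₂, b₁` different, `a₁, a₂, b₂` different
(`b₁ = b₂` is allowed: isogenous triples, type 1; two disjoint pairs: type 2).
-/

namespace Pool.Agent.LGO.PWG

open MvPolynomial Metric Pool.Agent.LGO.PW

variable {mm : ℕ} {Ω Cn : Set ℂ} {z : Fin mm → ℂ → ℂ} {ρ : ℂ → ℝ}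

private theorem pow_sub_le {a b : ℂ} {R ε : ℝ} (hR : 1 ≤ R) (ha : ‖a‖ ≤ R) (hb : ‖b‖ ≤ R)
    (h : ‖a - b‖ ≤ ε) (n : ℕ) : ‖a ^ n - b ^ n‖ ≤ n * R ^ n * ε := by
  have hε : 0 ≤ ε := (norm_nonneg _).trans h
  have hR0 : 0 ≤ R := by linarith
  induction n with
  | zero => simp
  | succ n ih =>
    have h1 : a ^ (n + 1) - b ^ (n + 1) = a * (a ^ n - b ^ n) + (a - b) * b ^ n := by ring
    rw [h1]
    calc ‖a * (a ^ n - b ^ n) + (a - b) * b ^ n‖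
        ≤ ‖a‖ * ‖a ^ n - b ^ n‖ + ‖a - b‖ * ‖b‖ ^ n := by
          refine (norm_add_le _ _).trans ?_
          rw [norm_mul, norm_mul, norm_pow]
      _ ≤ R * (n * R ^ n * ε) + ε * R ^ n := by gcongr
      _ ≤ R * (n * R ^ n * ε) + ε * R ^ (n + 1) := by
          have : R ^ n ≤ R ^ (n + 1) := pow_le_pow_right₀ hR (Nat.le_succ n)
          gcongr
      _ = ((n + 1 : ℕ) : ℝ) * R ^ (n + 1) * ε := by push_cast; ring

private theorem minor_ne {A B : Matrix (Fin 2) (Fin 2) ℤ}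
    (h : ∀ x y : ℤ, x • A + y • B = 0 → x = 0 ∧ y = 0) :
    ∃ k l m n, A k l * B m n - A m n * B k l ≠ 0 := by
  by_contra hcon
  push Not at hcon
  have hA : ∃ k l, A k l ≠ 0 := by
    by_contra h0
    push Not at h0
    have h1 := h 1 0 (by
      ext k l
      simp [h0 k l])
    exact one_ne_zero h1.1
  obtain ⟨k, l, hk⟩ := hA
  have h1 := h (-(B k l)) (A k l) (by
    ext m n
    have h2 := hcon k l m n
    simp only [Matrix.add_apply, Matrix.smul_apply, smul_eq_mul, Matrix.zero_apply]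
    linarith)
  exact hk h1.2

private theorem cramer {A₁ A₂ g : Matrix (Fin 2) (Fin 2) ℤ} {H : ℝ}
    (hA : ∀ x y : ℤ, x • A₁ + y • A₂ = 0 → x = 0 ∧ y = 0)
    (h1 : ∀ i j, |(A₁ i j : ℝ)| ≤ H) (h2 : ∀ i j, |(A₂ i j : ℝ)| ≤ H)
    (h3 : ∀ i j, |(g i j : ℝ)| ≤ H)
    (hg : ∃ α β : ℚ, ∀ i j, (g i j : ℚ) = α * A₁ i j + β * A₂ i j) :
    ∃ μ x y : ℤ, μ ≠ 0 ∧ μ • g = x • A₁ + y • A₂ ∧ |(x : ℝ)| ≤ 2 * H ^ 2 ∧
      |(y : ℝ)| ≤ 2 * H ^ 2 := by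
  obtain ⟨k, l, m, n, hμ⟩ := minor_ne hA
  obtain ⟨α, β, hg⟩ := hg
  have hb : ∀ a b c d : ℝ, |a| ≤ H → |b| ≤ H → |c| ≤ H → |d| ≤ H → |a * b - c * d| ≤ 2 * H ^ 2 := by
    intro a b c d ha hb hc hd
    have hH : 0 ≤ H := (abs_nonneg _).trans ha
    calc |a * b - c * d| ≤ |a * b| + |c * d| := abs_sub _ _
      _ = |a| * |b| + |c| * |d| := by rw [abs_mul, abs_mul]
      _ ≤ H * H + H * H := by gcongr
      _ = 2 * H ^ 2 := by ring
  refine ⟨A₁ k l * A₂ m n - A₁ m n * A₂ k l, g k l * A₂ m n - g m n * A₂ k l,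
    A₁ k l * g m n - A₁ m n * g k l, hμ, ?_, ?_, ?_⟩
  · ext i j
    have h4 := hg i j
    have h5 := hg k l
    have h6 := hg m n
    have h7 : (((A₁ k l * A₂ m n - A₁ m n * A₂ k l) * g i j : ℤ) : ℚ) =
        (((g k l * A₂ m n - g m n * A₂ k l) * A₁ i j +
          (A₁ k l * g m n - A₁ m n * g k l) * A₂ i j : ℤ) : ℚ) := by
      push_cast
      rw [h4, h5, h6]
      ring
    simp only [Matrix.add_apply, Matrix.smul_apply, smul_eq_mul]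
    exact_mod_cast h7
  · push_cast
    exact hb _ _ _ _ (h3 _ _) (h2 _ _) (h3 _ _) (h2 _ _)
  · push_cast
    exact hb _ _ _ _ (h1 _ _) (h3 _ _) (h1 _ _) (h3 _ _)

private theorem mem_pair {S : Finset ℂ} {g : ℂ → Matrix (Fin 2) (Fin 2) ℤ}
    (hfin : Module.finrank ℚ (Submodule.span ℚ
      ((fun s => (g s).map (Int.cast : ℤ → ℚ)) '' (S : Set ℂ))) ≤ 2)
    {s₁ s₂ : ℂ} (h1 : s₁ ∈ S) (h2 : s₂ ∈ S)
    (hA : ∀ x y : ℤ, x • g s₁ + y • g s₂ = 0 → x = 0 ∧ y = 0) {s : ℂ} (hs : s ∈ S) :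
    ∃ α β : ℚ, ∀ i j, (g s i j : ℚ) = α * g s₁ i j + β * g s₂ i j := by
  have hli : LinearIndependent ℚ
      ![(g s₁).map (Int.cast : ℤ → ℚ), (g s₂).map (Int.cast : ℤ → ℚ)] := by
    rw [LinearIndependent.pair_iff]
    intro a b hab
    have h3 := hA (a.num * b.den) (b.num * a.den) (by
      ext i j
      have h4 := congrFun (congrFun hab i) j
      simp only [Matrix.add_apply, Matrix.smul_apply, smul_eq_mul, Matrix.zero_apply,
        Matrix.map_apply] at h4 ⊢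
      have ha : (a.num : ℚ) = a * a.den := (Rat.mul_den_eq_num a).symm
      have hb : (b.num : ℚ) = b * b.den := (Rat.mul_den_eq_num b).symm
      have h5 : ((a.num * b.den * g s₁ i j + b.num * a.den * g s₂ i j : ℤ) : ℚ) = 0 := by
        push_cast
        rw [ha, hb]
        linear_combination (a.den : ℚ) * b.den * h4
      exact_mod_cast h5)
    have ha : (a.den : ℤ) ≠ 0 := by exact_mod_cast a.den_ne_zero
    have hb : (b.den : ℤ) ≠ 0 := by exact_mod_cast b.den_ne_zero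
    constructor
    · rw [← Rat.num_eq_zero]
      exact (mul_eq_zero.1 h3.1).resolve_right hb
    · rw [← Rat.num_eq_zero]
      exact (mul_eq_zero.1 h3.2).resolve_right ha
  have hcard := finrank_span_eq_card hli
  rw [Fintype.card_fin] at hcard
  have hle : Submodule.span ℚ (Set.range
      ![(g s₁).map (Int.cast : ℤ → ℚ), (g s₂).map (Int.cast : ℤ → ℚ)]) ≤
      Submodule.span ℚ ((fun s => (g s).map (Int.cast : ℤ → ℚ)) '' (S : Set ℂ)) := by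
    apply Submodule.span_mono
    rintro _ ⟨i, rfl⟩
    fin_cases i
    · exact ⟨s₁, h1, rfl⟩
    · exact ⟨s₂, h2, rfl⟩
  have heq := Submodule.eq_of_le_of_finrank_le hle (by rw [hcard]; exact hfin)
  have hmem : (g s).map (Int.cast : ℤ → ℚ) ∈ Submodule.span ℚ (Set.range
      ![(g s₁).map (Int.cast : ℤ → ℚ), (g s₂).map (Int.cast : ℤ → ℚ)]) := by
    rw [heq]
    exact Submodule.subset_span ⟨s, hs, rfl⟩
  rw [Submodule.mem_span_range_iff_exists_fun] at hmem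
  obtain ⟨c, hc⟩ := hmem
  refine ⟨c 0, c 1, fun i j => ?_⟩
  have h3 := congrFun (congrFun hc i) j
  simp only [Fin.sum_univ_two, Matrix.cons_val_zero, Matrix.cons_val_one, Matrix.add_apply,
    Matrix.smul_apply, smul_eq_mul, Matrix.map_apply] at h3
  exact h3.symm

/-- the coefficients of the matrices of one of the two families -/
private theorem coeffs {S : Finset ℂ} {g : ℂ → Matrix (Fin 2) (Fin 2) ℤ} {b₀ a : Fin mm} {H : ℝ}
    (hfin : Module.finrank ℚ (Submodule.span ℚ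
      ((fun s => (g s).map (Int.cast : ℤ → ℚ)) '' (S : Set ℂ))) ≤ 2)
    (hdet : ∀ s ∈ S, (g s).det ≠ 0) (hH : ∀ s ∈ S, ∀ i j, |(g s i j : ℝ)| ≤ H)
    (hM : ∀ s ∈ S, Maps (g s) (z b₀ s) (z a s)) {s₁ s₂ : ℂ} (h1 : s₁ ∈ S) (h2 : s₂ ∈ S)
    (hA : ∀ x y : ℤ, x • g s₁ + y • g s₂ = 0 → x = 0 ∧ y = 0) {s : ℂ} (hs : s ∈ S)
    (hf1 : eval (fun a => z a s) (mpp b₀ a (g s₁)) ≠ 0)
    (hf2 : eval (fun a => z a s) (mpp b₀ a (g s₂)) ≠ 0) :
    ∃ x y : ℤ, y ≠ 0 ∧ |(x : ℝ)| ≤ 2 * H ^ 2 ∧ |(y : ℝ)| ≤ 2 * H ^ 2 ∧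
      (x : ℂ) * eval (fun a => z a s) (mpp b₀ a (g s₁)) +
        y * eval (fun a => z a s) (mpp b₀ a (g s₂)) = 0 := by
  obtain ⟨μ, x, y, hμ, he, hx, hy⟩ := cramer hA (hH _ h1) (hH _ h2) (hH _ hs)
    (mem_pair hfin h1 h2 hA hs)
  have h3 : (x : ℂ) * eval (fun a => z a s) (mpp b₀ a (g s₁)) +
      y * eval (fun a => z a s) (mpp b₀ a (g s₂)) = 0 := by
    have h4 : mpp b₀ a (x • g s₁ + y • g s₂) = C (μ : ℂ) * mpp b₀ a (g s) := by
      rw [← he]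
      have h5 := mpp_lin b₀ a μ 0 (g s) (g s)
      rw [zero_smul, add_zero] at h5
      rw [h5]
      simp
    rw [mpp_lin] at h4
    have h6 := congrArg (eval (fun a => z a s)) h4
    simp only [map_add, map_mul, eval_C] at h6
    rw [h6, (mpp_eval_eq_zero).2 (hM s hs), mul_zero]
  refine ⟨x, y, ?_, hx, hy, h3⟩
  intro hy0
  rw [hy0, Int.cast_zero, zero_mul, add_zero] at h3
  have hx0 : (x : ℂ) = 0 := (mul_eq_zero.1 h3).resolve_right hf1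
  have hx1 : x = 0 := by exact_mod_cast hx0
  rw [hx1, hy0, zero_smul, zero_smul, add_zero] at he
  apply hdet s hs
  have h7 : g s = 0 := by
    ext i j
    have h8 := congrFun (congrFun he i) j
    simp only [Matrix.smul_apply, smul_eq_mul, Matrix.zero_apply] at h8
    exact (mul_eq_zero.1 h8).resolve_left hμ
  rw [h7]
  simp

/-- all matrices are proportional, or two of them are independent -/
private theorem prop_or {S : Finset ℂ} {g : ℂ → Matrix (Fin 2) (Fin 2) ℤ}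
    (hdet : ∀ s ∈ S, (g s).det ≠ 0) {s₁ : ℂ} (h1 : s₁ ∈ S) :
    (∀ s ∈ S, ∃ x y : ℤ, x ≠ 0 ∧ x • g s = y • g s₁) ∨
      ∃ s₂ ∈ S, ∀ x y : ℤ, x • g s₁ + y • g s₂ = 0 → x = 0 ∧ y = 0 := by
  by_cases h : ∀ s ∈ S, ∃ x y : ℤ, x ≠ 0 ∧ x • g s = y • g s₁
  · exact Or.inl h
  · push Not at h
    obtain ⟨s₂, h2, h3⟩ := h
    refine Or.inr ⟨s₂, h2, fun x y hxy => ?_⟩
    have hy : y = 0 := by
      by_contra hy
      apply h3 y (-x) hy
      rw [neg_smul]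
      exact eq_neg_of_add_eq_zero_right hxy
    refine ⟨?_, hy⟩
    by_contra hx
    apply hdet s₁ h1
    rw [hy, zero_smul, add_zero] at hxy
    have h7 : g s₁ = 0 := by
      ext i j
      have h8 := congrFun (congrFun hxy i) j
      simp only [Matrix.smul_apply, smul_eq_mul, Matrix.zero_apply] at h8
      exact (mul_eq_zero.1 h8).resolve_left hx
    rw [h7]
    simp

/-- the relation between the approximations gives an approximate relation -/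
private theorem approx {d : ℕ} {g : Fin (d + 1) → Fin (d + 1) → ℂ} (hg : ∀ i j, ‖g i j‖ ≤ 1)
    {N D N' D' : ℂ} (hD : D ≠ 0) (hD' : D' ≠ 0)
    (hrel : ∑ i, ∑ j, g i j * (N ^ (i : ℕ) * D ^ (d - i) * N' ^ (j : ℕ) * D' ^ (d - j)) = 0)
    {x y x' y' : ℤ} (hy : y ≠ 0) (hy' : y' ≠ 0) {R ε : ℝ} (hR : 1 ≤ R) (hε1 : ε ≤ 1)
    (hx : |(x : ℝ)| ≤ R) (hyR : |(y : ℝ)| ≤ R) (hx' : |(x' : ℝ)| ≤ R) (hyR' : |(y' : ℝ)| ≤ R)
    (h1 : ‖-(x : ℂ) / y - N / D‖ ≤ ε) (h2 : ‖-(x' : ℂ) / y' - N' / D'‖ ≤ ε) :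
    ‖∑ i, ∑ j, g i j * (((-x) ^ (i : ℕ) * y ^ (d - i) * (-x') ^ (j : ℕ) * y' ^ (d - j) : ℤ) : ℂ)‖ ≤
      ((d + 1) * (d + 1) : ℕ) * (2 * d) * (R + 1) ^ (4 * d) * ε := by
  have hε0 : 0 ≤ ε := (norm_nonneg _).trans h1
  have hR0 : 0 ≤ R := by linarith
  set r : ℂ := -(x : ℂ) / y with hr
  set r' : ℂ := -(x' : ℂ) / y' with hr'
  set q : ℂ := N / D with hq
  set q' : ℂ := N' / D' with hq'
  have hyc : (y : ℂ) ≠ 0 := by exact_mod_cast hy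
  have hyc' : (y' : ℂ) ≠ 0 := by exact_mod_cast hy'
  have hnr : ∀ u v : ℤ, v ≠ 0 → |(u : ℝ)| ≤ R → ‖-(u : ℂ) / v‖ ≤ R := by
    intro u v hv hu
    rw [norm_div, norm_neg, Complex.norm_intCast, Complex.norm_intCast]
    have hv1 : (1 : ℝ) ≤ |(v : ℝ)| := by
      have := Int.one_le_abs hv
      exact_mod_cast this
    rw [div_le_iff₀ (by linarith)]
    nlinarith [abs_nonneg (u : ℝ)]
  have hr1 : ‖r‖ ≤ R + 1 := (hnr x y hy hx).trans (by linarith)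
  have hr1' : ‖r'‖ ≤ R + 1 := (hnr x' y' hy' hx').trans (by linarith)
  have hq1 : ‖q‖ ≤ R + 1 := by
    have h3 : q = r - (r - q) := by ring
    rw [h3]
    exact (norm_sub_le _ _).trans (add_le_add (hnr x y hy hx) (h1.trans hε1))
  have hq1' : ‖q'‖ ≤ R + 1 := by
    have h3 : q' = r' - (r' - q') := by ring
    rw [h3]
    exact (norm_sub_le _ _).trans (add_le_add (hnr x' y' hy' hx') (h2.trans hε1))
  have hsum0 : ∑ i, ∑ j, g i j * (q ^ (i : ℕ) * q' ^ (j : ℕ)) = 0 := by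
    have h3 : ∑ i, ∑ j, g i j * (q ^ (i : ℕ) * q' ^ (j : ℕ)) =
        (∑ i, ∑ j, g i j * (N ^ (i : ℕ) * D ^ (d - i) * N' ^ (j : ℕ) * D' ^ (d - j))) /
          (D ^ d * D' ^ d) := by
      rw [Finset.sum_div]
      refine Finset.sum_congr rfl fun i _ => ?_
      rw [Finset.sum_div]
      refine Finset.sum_congr rfl fun j _ => ?_
      have hi : (i : ℕ) ≤ d := Nat.lt_succ_iff.1 i.2
      have hj : (j : ℕ) ≤ d := Nat.lt_succ_iff.1 j.2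
      have e1 : D ^ d = D ^ (i : ℕ) * D ^ (d - i) := by rw [← pow_add]; congr 1; omega
      have e2 : D' ^ d = D' ^ (j : ℕ) * D' ^ (d - j) := by rw [← pow_add]; congr 1; omega
      rw [hq, hq', e1, e2, div_pow, div_pow]
      field_simp
    rw [h3, hrel, zero_div]
  have hmain : ∑ i, ∑ j, g i j * (((-x) ^ (i : ℕ) * y ^ (d - i) * (-x') ^ (j : ℕ) *
      y' ^ (d - j) : ℤ) : ℂ) = (y : ℂ) ^ d * (y' : ℂ) ^ d *
        ∑ i, ∑ j, g i j * (r ^ (i : ℕ) * r' ^ (j : ℕ) - q ^ (i : ℕ) * q' ^ (j : ℕ)) := by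
    have h3 : ∑ i, ∑ j, g i j * (r ^ (i : ℕ) * r' ^ (j : ℕ) - q ^ (i : ℕ) * q' ^ (j : ℕ)) =
        ∑ i, ∑ j, g i j * (r ^ (i : ℕ) * r' ^ (j : ℕ)) := by
      simp only [mul_sub, Finset.sum_sub_distrib]
      rw [hsum0, sub_zero]
    rw [h3, Finset.mul_sum]
    refine Finset.sum_congr rfl fun i _ => ?_
    rw [Finset.mul_sum]
    refine Finset.sum_congr rfl fun j _ => ?_
    have hi : (i : ℕ) ≤ d := Nat.lt_succ_iff.1 i.2
    have hj : (j : ℕ) ≤ d := Nat.lt_succ_iff.1 j.2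
    have e1 : (y : ℂ) ^ d = (y : ℂ) ^ (i : ℕ) * (y : ℂ) ^ (d - i) := by
      rw [← pow_add]; congr 1; omega
    have e2 : (y' : ℂ) ^ d = (y' : ℂ) ^ (j : ℕ) * (y' : ℂ) ^ (d - j) := by
      rw [← pow_add]; congr 1; omega
    have e3 : (y : ℂ) ^ (i : ℕ) * r ^ (i : ℕ) = (-(x : ℂ)) ^ (i : ℕ) := by
      rw [← mul_pow, hr, mul_div_cancel₀ _ hyc]
    have e4 : (y' : ℂ) ^ (j : ℕ) * r' ^ (j : ℕ) = (-(x' : ℂ)) ^ (j : ℕ) := by
      rw [← mul_pow, hr', mul_div_cancel₀ _ hyc']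
    push_cast
    rw [e1, e2, ← e3, ← e4]
    ring
  rw [hmain, norm_mul, norm_mul, norm_pow, norm_pow, Complex.norm_intCast, Complex.norm_intCast]
  have hR1 : (1 : ℝ) ≤ R + 1 := by linarith
  have hterm : ∀ i j : Fin (d + 1), ‖g i j * (r ^ (i : ℕ) * r' ^ (j : ℕ) -
      q ^ (i : ℕ) * q' ^ (j : ℕ))‖ ≤ 2 * d * (R + 1) ^ (2 * d) * ε := by
    intro i j
    have hi : (i : ℕ) ≤ d := Nat.lt_succ_iff.1 i.2
    have hj : (j : ℕ) ≤ d := Nat.lt_succ_iff.1 j.2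
    have h3 : ‖r ^ (i : ℕ) - q ^ (i : ℕ)‖ ≤ d * (R + 1) ^ d * ε := by
      refine (pow_sub_le hR1 hr1 hq1 h1 i).trans ?_
      have h4 : ((i : ℕ) : ℝ) ≤ d := by exact_mod_cast hi
      have h5 : (R + 1) ^ (i : ℕ) ≤ (R + 1) ^ d := pow_le_pow_right₀ hR1 hi
      gcongr
    have h3' : ‖r' ^ (j : ℕ) - q' ^ (j : ℕ)‖ ≤ d * (R + 1) ^ d * ε := by
      refine (pow_sub_le hR1 hr1' hq1' h2 j).trans ?_
      have h4 : ((j : ℕ) : ℝ) ≤ d := by exact_mod_cast hj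
      have h5 : (R + 1) ^ (j : ℕ) ≤ (R + 1) ^ d := pow_le_pow_right₀ hR1 hj
      gcongr
    have h6 : ‖r' ^ (j : ℕ)‖ ≤ (R + 1) ^ d := by
      rw [norm_pow]
      exact (pow_le_pow_left₀ (norm_nonneg _) hr1' _).trans (pow_le_pow_right₀ hR1 hj)
    have h7 : ‖q ^ (i : ℕ)‖ ≤ (R + 1) ^ d := by
      rw [norm_pow]
      exact (pow_le_pow_left₀ (norm_nonneg _) hq1 _).trans (pow_le_pow_right₀ hR1 hi)
    have h8 : r ^ (i : ℕ) * r' ^ (j : ℕ) - q ^ (i : ℕ) * q' ^ (j : ℕ) =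
        (r ^ (i : ℕ) - q ^ (i : ℕ)) * r' ^ (j : ℕ) +
          q ^ (i : ℕ) * (r' ^ (j : ℕ) - q' ^ (j : ℕ)) := by ring
    rw [norm_mul, h8]
    calc ‖g i j‖ * ‖(r ^ (i : ℕ) - q ^ (i : ℕ)) * r' ^ (j : ℕ) +
          q ^ (i : ℕ) * (r' ^ (j : ℕ) - q' ^ (j : ℕ))‖
        ≤ 1 * (‖r ^ (i : ℕ) - q ^ (i : ℕ)‖ * ‖r' ^ (j : ℕ)‖ +
          ‖q ^ (i : ℕ)‖ * ‖r' ^ (j : ℕ) - q' ^ (j : ℕ)‖) := by
          apply mul_le_mul (hg i j) _ (norm_nonneg _) zero_le_one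
          refine (norm_add_le _ _).trans ?_
          rw [norm_mul, norm_mul]
      _ ≤ 1 * (d * (R + 1) ^ d * ε * (R + 1) ^ d + (R + 1) ^ d * (d * (R + 1) ^ d * ε)) := by
          gcongr
      _ = 2 * d * (R + 1) ^ (2 * d) * ε := by ring
  have hsum : ‖∑ i, ∑ j, g i j * (r ^ (i : ℕ) * r' ^ (j : ℕ) - q ^ (i : ℕ) * q' ^ (j : ℕ))‖ ≤
      ((d + 1) * (d + 1) : ℕ) * (2 * d * (R + 1) ^ (2 * d) * ε) := by
    refine (norm_sum_le _ _).trans ?_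
    have h9 : ∀ i ∈ (Finset.univ : Finset (Fin (d + 1))),
        ‖∑ j, g i j * (r ^ (i : ℕ) * r' ^ (j : ℕ) - q ^ (i : ℕ) * q' ^ (j : ℕ))‖ ≤
          (d + 1 : ℕ) * (2 * d * (R + 1) ^ (2 * d) * ε) := by
      intro i _
      refine (norm_sum_le _ _).trans ?_
      refine (Finset.sum_le_card_nsmul _ _ _ fun j _ => hterm i j).trans ?_
      rw [nsmul_eq_mul, Finset.card_univ, Fintype.card_fin]
    refine (Finset.sum_le_card_nsmul _ _ _ h9).trans ?_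
    rw [nsmul_eq_mul, Finset.card_univ, Fintype.card_fin]
    apply le_of_eq
    push_cast
    ring
  calc |(y : ℝ)| ^ d * |(y' : ℝ)| ^ d *
        ‖∑ i, ∑ j, g i j * (r ^ (i : ℕ) * r' ^ (j : ℕ) - q ^ (i : ℕ) * q' ^ (j : ℕ))‖
      ≤ (R + 1) ^ d * (R + 1) ^ d * (((d + 1) * (d + 1) : ℕ) *
          (2 * d * (R + 1) ^ (2 * d) * ε)) := by
        have h10 : |(y : ℝ)| ^ d ≤ (R + 1) ^ d :=
          pow_le_pow_left₀ (abs_nonneg _) (hyR.trans (by linarith)) _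
        have h11 : |(y' : ℝ)| ^ d ≤ (R + 1) ^ d :=
          pow_le_pow_left₀ (abs_nonneg _) (hyR'.trans (by linarith)) _
        gcongr
    _ = ((d + 1) * (d + 1) : ℕ) * (2 * d) * (R + 1) ^ (4 * d) * ε := by
        have h12 : (R + 1) ^ (4 * d) = (R + 1) ^ d * (R + 1) ^ d * (R + 1) ^ (2 * d) := by
          rw [← pow_add, ← pow_add]
          congr 1
          ring
        rw [h12]
        ring

theorem tiny_pairs (hF : Fam Ω Cn z ρ) {b₁ a₁ b₂ a₂ : Fin mm} (n1 : a₁ ≠ b₁) (n2 : a₂ ≠ b₂)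
    (n3 : a₁ ≠ a₂) (n4 : a₁ ≠ b₂) (n5 : a₂ ≠ b₁) :
    Tiny Cn (fun H s => IsoH H (z b₁ s) (z a₁ s) ∧ IsoH H (z b₂ s) (z a₂ s)) := by
  classical
  obtain ⟨T1, hrank⟩ := tiny_rank hF
  obtain ⟨p1, hone⟩ := tiny_one hF
  obtain ⟨p2, C2, hC2, hratio⟩ := tiny_ratio hF
  obtain ⟨p3, hz2⟩ := hF.zeros_card 2
  set d : ℕ := 2 * p2 + 1 with hd
  obtain ⟨p4, hz4⟩ := hF.zeros_card (4 * d)
  set K : ℕ := Fintype.card (Fin (d + 1) × Fin (d + 1)) with hK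
  have hKd : K = (d + 1) * (d + 1) := by
    rw [hK, Fintype.card_prod, Fintype.card_fin]
  set c0 : ℕ := K.factorial * (K * (2 * d) * C2) with hc0
  refine ⟨T1 + (12 * d * K + 16 * d + C2 + c0), p1 + 4 * p3 + p4, ?_⟩
  intro H hH w hw hwH s₀ hs₀ S hS
  have hH1 : (1 : ℝ) ≤ H := by linarith
  have hH0 : (0 : ℝ) < H := by linarith
  rcases S.eq_empty_or_nonempty with hSe | ⟨s₁, hs₁⟩
  · rw [hSe]
    simp
  have hchoose : ∀ b a : Fin mm, (∀ s ∈ S, IsoH H (z b s) (z a s)) →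
      ∃ g : ℂ → Matrix (Fin 2) (Fin 2) ℤ, ∀ s ∈ S, (g s).det ≠ 0 ∧
      (∀ i j, |(g s i j : ℝ)| ≤ H) ∧ Maps (g s) (z b s) (z a s) := by
    intro b a hI
    have h1 : ∀ s, ∃ g : Matrix (Fin 2) (Fin 2) ℤ, s ∈ S → g.det ≠ 0 ∧
        (∀ i j, |(g i j : ℝ)| ≤ H) ∧ Maps g (z b s) (z a s) := by
      intro s
      by_cases hs : s ∈ S
      · obtain ⟨g, hg⟩ := hI s hs
        exact ⟨g, fun _ => hg⟩
      · exact ⟨0, fun h => absurd h hs⟩
    choose g hg using h1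
    exact ⟨g, fun s hs => hg s hs⟩
  obtain ⟨g, hg⟩ := hchoose b₁ a₁ fun s hs => (hS s hs).2.1.1
  obtain ⟨g', hg'⟩ := hchoose b₂ a₂ fun s hs => (hS s hs).2.1.2
  have hT1 : (H ^ (T1 + (12 * d * K + 16 * d + C2 + c0)))⁻¹ ≤ (H ^ T1)⁻¹ := by
    apply inv_anti₀ (pow_pos hH0 _)
    exact pow_le_pow_right₀ hH1 (Nat.le_add_right _ _)
  have hfin := hrank H hH w hw hwH s₀ hs₀ b₁ a₁ S g (fun s hs =>
    ⟨(hS s hs).1, (hS s hs).2.2.trans hT1, (hg s hs).2.1, (hg s hs).2.2⟩)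
  have hfin' := hrank H hH w hw hwH s₀ hs₀ b₂ a₂ S g' (fun s hs =>
    ⟨(hS s hs).1, (hS s hs).2.2.trans hT1, (hg' s hs).2.1, (hg' s hs).2.2⟩)
  rcases prop_or (fun s hs => (hg s hs).1) hs₁ with hp | ⟨s₂, hs₂, hind⟩
  · have h1 := hone w hw b₁ a₁ n1 S g
      (fun s hs => ⟨(hS s hs).1, (hg s hs).1, (hg s hs).2.2⟩) ⟨g s₁, (hg s₁ hs₁).1, hp⟩
    omega
  rcases prop_or (fun s hs => (hg' s hs).1) hs₁ with hp | ⟨s₃, hs₃, hind'⟩
  · have h1 := hone w hw b₂ a₂ n2 S g'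
      (fun s hs => ⟨(hS s hs).1, (hg' s hs).1, (hg' s hs).2.2⟩) ⟨g' s₁, (hg' s₁ hs₁).1, hp⟩
    omega
  have hne : ∀ {A : Matrix (Fin 2) (Fin 2) ℤ}, A.det ≠ 0 → A ≠ 0 := by
    rintro A hA rfl
    exact hA (by simp)
  have hA1 : g s₁ ≠ 0 := hne (hg s₁ hs₁).1
  have hA2 : g s₂ ≠ 0 := hne (hg s₂ hs₂).1
  have hB1 : g' s₁ ≠ 0 := hne (hg' s₁ hs₁).1
  have hB2 : g' s₃ ≠ 0 := hne (hg' s₃ hs₃).1
  obtain ⟨N, D, hN, hD, hND⟩ := hratio H hH w hw hwH s₀ hs₀ b₁ a₁ n1 (g s₁) (g s₂) hA1 hA2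
  obtain ⟨N', D', hN', hD', hND'⟩ :=
    hratio H hH w hw hwH s₀ hs₀ b₂ a₂ n2 (g' s₁) (g' s₃) hB1 hB2
  obtain ⟨γ, hγ, ⟨i₀, j₀, hγ1⟩, hγ0⟩ := rel_exists (p := p2) (d := d) (by
    rw [hd]
    ring_nf
    nlinarith [Nat.zero_le p2]) hN hD hN' hD'
  -- the points which are not zeros
  set Z1 := S.filter fun s => eval (fun a => z a s) (mpp b₁ a₁ (g s₁)) = 0 with hZ1
  set Z2 := S.filter fun s => eval (fun a => z a s) (mpp b₁ a₁ (g s₂)) = 0 with hZ2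
  set Z3 := S.filter fun s => eval (fun a => z a s) (mpp b₂ a₂ (g' s₁)) = 0 with hZ3
  set Z4 := S.filter fun s => eval (fun a => z a s) (mpp b₂ a₂ (g' s₃)) = 0 with hZ4
  set S' := S.filter fun s => eval (fun a => z a s) (mpp b₁ a₁ (g s₁)) ≠ 0 ∧
    eval (fun a => z a s) (mpp b₁ a₁ (g s₂)) ≠ 0 ∧ eval (fun a => z a s) (mpp b₂ a₂ (g' s₁)) ≠ 0 ∧
      eval (fun a => z a s) (mpp b₂ a₂ (g' s₃)) ≠ 0 with hS'
  have hzc : ∀ (b a : Fin mm) (A : Matrix (Fin 2) (Fin 2) ℤ), a ≠ b → A ≠ 0 →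
      (S.filter fun s => eval (fun a => z a s) (mpp b a A) = 0).card ≤ p3 := by
    intro b a A ha hA
    apply hz2 w hw (mpp b a A) (mpp_ne_zero ha hA) (mpp_deg b a A)
    intro s hs
    rw [Finset.mem_filter] at hs
    exact ⟨(hS s hs.1).1, hs.2⟩
  have c1 : Z1.card ≤ p3 := hzc b₁ a₁ _ n1 hA1
  have c2 : Z2.card ≤ p3 := hzc b₁ a₁ _ n1 hA2
  have c3 : Z3.card ≤ p3 := hzc b₂ a₂ _ n2 hB1
  have c4 : Z4.card ≤ p3 := hzc b₂ a₂ _ n2 hB2
  have hcov : S ⊆ Z1 ∪ (Z2 ∪ (Z3 ∪ (Z4 ∪ S'))) := by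
    intro s hs
    simp only [Finset.mem_union, hZ1, hZ2, hZ3, hZ4, hS', Finset.mem_filter, hs, true_and]
    by_cases h1 : eval (fun a => z a s) (mpp b₁ a₁ (g s₁)) = 0
    · exact Or.inl h1
    by_cases h2 : eval (fun a => z a s) (mpp b₁ a₁ (g s₂)) = 0
    · exact Or.inr (Or.inl h2)
    by_cases h3 : eval (fun a => z a s) (mpp b₂ a₂ (g' s₁)) = 0
    · exact Or.inr (Or.inr (Or.inl h3))
    by_cases h4 : eval (fun a => z a s) (mpp b₂ a₂ (g' s₃)) = 0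
    · exact Or.inr (Or.inr (Or.inr (Or.inl h4)))
    exact Or.inr (Or.inr (Or.inr (Or.inr ⟨h1, h2, h3, h4⟩)))
  -- the coefficients
  have hco : ∀ s, ∃ q : (ℤ × ℤ) × (ℤ × ℤ), s ∈ S' → (q.1.2 ≠ 0 ∧ |(q.1.1 : ℝ)| ≤ 2 * H ^ 2 ∧
      |(q.1.2 : ℝ)| ≤ 2 * H ^ 2 ∧ (q.1.1 : ℂ) * eval (fun a => z a s) (mpp b₁ a₁ (g s₁)) +
        q.1.2 * eval (fun a => z a s) (mpp b₁ a₁ (g s₂)) = 0) ∧ (q.2.2 ≠ 0 ∧
      |(q.2.1 : ℝ)| ≤ 2 * H ^ 2 ∧
      |(q.2.2 : ℝ)| ≤ 2 * H ^ 2 ∧ (q.2.1 : ℂ) * eval (fun a => z a s) (mpp b₂ a₂ (g' s₁)) +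
        q.2.2 * eval (fun a => z a s) (mpp b₂ a₂ (g' s₃)) = 0) := by
    intro s
    by_cases hs : s ∈ S'
    · have hs1 := hs
      rw [hS', Finset.mem_filter] at hs1
      obtain ⟨hsS, hf1, hf2, hf3, hf4⟩ := hs1
      obtain ⟨x, y, h1⟩ := coeffs hfin (fun s hs => (hg s hs).1) (fun s hs => (hg s hs).2.1)
        (fun s hs => (hg s hs).2.2) hs₁ hs₂ hind hsS hf1 hf2
      obtain ⟨x', y', h2⟩ := coeffs hfin' (fun s hs => (hg' s hs).1)
        (fun s hs => (hg' s hs).2.1)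
        (fun s hs => (hg' s hs).2.2) hs₁ hs₃ hind' hsS hf3 hf4
      exact ⟨((x, y), (x', y')), fun _ => ⟨h1, h2⟩⟩
    · exact ⟨((0, 0), (0, 0)), fun h => absurd h hs⟩
  choose q hq using hco
  -- the bounds
  set R : ℝ := 2 * H ^ 2 with hR
  have hR1 : 1 ≤ R := by nlinarith
  have hRH : R + 1 ≤ H ^ 4 := by
    rw [hR]
    have h1 : (4 : ℝ) ≤ H ^ 2 := by nlinarith
    nlinarith
  have hRH3 : R ≤ H ^ 3 := by
    rw [hR]
    have h1 : (0 : ℝ) ≤ H ^ 2 := by positivity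
    nlinarith
  set ε : ℝ := C2 * H ^ C2 * (H ^ (T1 + (12 * d * K + 16 * d + C2 + c0)))⁻¹ with hε
  have hε0 : 0 ≤ ε := by positivity
  have hc0H : (c0 : ℝ) < H ^ c0 := by
    calc (c0 : ℝ) < 2 ^ c0 := by exact_mod_cast Nat.lt_two_pow_self
      _ ≤ H ^ c0 := pow_le_pow_left₀ (by norm_num) hH _
  have hfac1 : 1 ≤ K.factorial := Nat.one_le_iff_ne_zero.2 (Nat.factorial_ne_zero K)
  have hK1 : 1 ≤ K := by
    rw [hKd]
    exact Nat.mul_pos (Nat.succ_pos _) (Nat.succ_pos _)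
  have hC2c0 : C2 ≤ c0 := by
    rw [hc0]
    calc C2 = 1 * (1 * 1 * C2) := by ring
      _ ≤ K.factorial * (K * (2 * d) * C2) := by
        gcongr
        omega
  have hHT : 0 < H ^ (T1 + (12 * d * K + 16 * d + C2 + c0)) := pow_pos hH0 _
  have hε1 : ε ≤ 1 := by
    rw [hε, ← div_eq_mul_inv, div_le_one hHT]
    calc (C2 : ℝ) * H ^ C2 ≤ H ^ c0 * H ^ C2 := by
          have h1 : (C2 : ℝ) ≤ c0 := by exact_mod_cast hC2c0
          have h2 : (C2 : ℝ) ≤ H ^ c0 := h1.trans hc0H.le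
          gcongr
      _ = H ^ (c0 + C2) := by rw [pow_add]
      _ ≤ _ := pow_le_pow_right₀ hH1 (by omega)
  -- the exact relation
  set v : ℂ → Fin (d + 1) × Fin (d + 1) → ℤ := fun s k =>
    (-(q s).1.1) ^ (k.1 : ℕ) * (q s).1.2 ^ (d - k.1) * (-(q s).2.1) ^ (k.2 : ℕ) *
      (q s).2.2 ^ (d - k.2) with hv
  have hvB : ∀ s ∈ (S' : Set ℂ), ∀ k, |(v s k : ℝ)| ≤ H ^ (12 * d) := by
    intro s hs k
    obtain ⟨⟨-, hx, hy, -⟩, -, hx', hy', -⟩ := hq s hs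
    have hi : (k.1 : ℕ) ≤ d := Nat.lt_succ_iff.1 k.1.2
    have hj : (k.2 : ℕ) ≤ d := Nat.lt_succ_iff.1 k.2.2
    have hp : ∀ (u : ℝ) (n : ℕ), n ≤ d → |u| ≤ R → |u| ^ n ≤ H ^ (3 * d) := by
      intro u n hn hu
      calc |u| ^ n ≤ (H ^ 3) ^ n := pow_le_pow_left₀ (abs_nonneg _) (hu.trans hRH3) _
        _ = H ^ (3 * n) := by rw [← pow_mul]
        _ ≤ H ^ (3 * d) := pow_le_pow_right₀ hH1 (by omega)
    rw [hv]
    push_cast
    rw [abs_mul, abs_mul, abs_mul, abs_pow, abs_pow, abs_pow, abs_pow, abs_neg, abs_neg]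
    have e : H ^ (12 * d) = H ^ (3 * d) * H ^ (3 * d) * H ^ (3 * d) * H ^ (3 * d) := by
      rw [← pow_add, ← pow_add, ← pow_add]
      congr 1
      ring
    rw [e]
    have b1 := hp _ _ hi hx
    have b2 := hp _ _ (Nat.sub_le d k.1) hy
    have b3 := hp _ _ hj hx'
    have b4 := hp _ _ (Nat.sub_le d k.2) hy'
    gcongr
  have hB1' : (1 : ℝ) ≤ H ^ (12 * d) := one_le_pow₀ hH1
  have hδ : ∀ s ∈ (S' : Set ℂ), ‖∑ k, (fun k : Fin (d + 1) × Fin (d + 1) => γ k.1 k.2) k *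
      (v s k : ℂ)‖ ≤ K * (2 * d) * (R + 1) ^ (4 * d) * ε := by
    intro s hs
    obtain ⟨⟨hy0, hx, hy, he⟩, hy0', hx', hy', he'⟩ := hq s hs
    have hs1 : s ∈ S' := hs
    rw [hS', Finset.mem_filter] at hs1
    obtain ⟨hsS, hf1, hf2, hf3, hf4⟩ := hs1
    obtain ⟨hDs, hr⟩ := hND s (hS s hsS).1 hf1 hf2
    obtain ⟨hDs', hr'⟩ := hND' s (hS s hsS).1 hf3 hf4
    have hεs : C2 * H ^ C2 * ‖s - s₀‖ ≤ ε := by
      rw [hε]
      have := (hS s hsS).2.2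
      gcongr
    have h1 := (hr _ _ hy0 hx he).trans hεs
    have h2 := (hr' _ _ hy0' hx' he').trans hεs
    have hrel : ∑ i, ∑ j, γ i j * (N.eval s ^ (i : ℕ) * D.eval s ^ (d - i) *
        N'.eval s ^ (j : ℕ) * D'.eval s ^ (d - j)) = 0 := by
      have h3 := congrArg (Polynomial.eval s) hγ0
      simpa [Polynomial.eval_finsetSum] using h3
    have h4 := approx hγ hDs hDs' hrel hy0 hy0' hR1 hε1 hx hy hx' hy' h1 h2
    rw [← hKd] at h4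
    rw [Fintype.sum_prod_type]
    exact h4
  obtain ⟨γ', hγ'0, hγ'⟩ := exact_rel (S' : Set ℂ) v hB1' hvB
    (fun k : Fin (d + 1) × Fin (d + 1) => γ k.1 k.2) (fun k => hγ k.1 k.2) ⟨(i₀, j₀), hγ1⟩ hδ (by
      rw [← hK]
      have h1 : (R + 1) ^ (4 * d) ≤ H ^ (16 * d) := by
        calc (R + 1) ^ (4 * d) ≤ (H ^ 4) ^ (4 * d) := pow_le_pow_left₀ (by linarith) hRH _
          _ = H ^ (16 * d) := by rw [← pow_mul]; congr 1; ring
      calc (K.factorial : ℝ) * (H ^ (12 * d)) ^ K * (K * (2 * d) * (R + 1) ^ (4 * d) * ε)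
          ≤ (K.factorial : ℝ) * (H ^ (12 * d)) ^ K * (K * (2 * d) * H ^ (16 * d) * ε) := by
            gcongr
        _ = c0 * (H ^ (12 * d * K + 16 * d + C2)) /
              H ^ (T1 + (12 * d * K + 16 * d + C2 + c0)) := by
            rw [hε, hc0]
            push_cast
            rw [pow_add H (12 * d * K + 16 * d), pow_add H (12 * d * K), pow_mul H (12 * d) K]
            ring
        _ < 1 := by
            rw [div_lt_one hHT]
            calc (c0 : ℝ) * (H ^ (12 * d * K + 16 * d + C2))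
                < H ^ c0 * (H ^ (12 * d * K + 16 * d + C2)) := by
                  have := pow_pos hH0 (12 * d * K + 16 * d + C2)
                  gcongr
              _ = H ^ (c0 + (12 * d * K + 16 * d + C2)) := by rw [pow_add H c0]
              _ ≤ _ := pow_le_pow_right₀ hH1 (by omega))
  -- the polynomial
  set G : MvPolynomial (Fin mm) ℂ := ∑ i : Fin (d + 1), ∑ j : Fin (d + 1), C ((γ' (i, j) : ℚ) : ℂ) *
    (mpp b₁ a₁ (g s₂) ^ (i : ℕ) * mpp b₁ a₁ (g s₁) ^ (d - i) * mpp b₂ a₂ (g' s₃) ^ (j : ℕ) *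
      mpp b₂ a₂ (g' s₁) ^ (d - j)) with hG
  have hGne : G ≠ 0 := by
    apply mpp_indep n1 n2 n3 n4 n5 (hg s₁ hs₁).1 (hg' s₁ hs₁).1 hind hind'
      (fun i j => ((γ' (i, j) : ℚ) : ℂ))
    intro h0
    apply hγ'0
    funext k
    have h1 := congrFun (congrFun h0 k.1) k.2
    simp only [Pi.zero_apply] at h1
    exact_mod_cast h1
  have hGdeg : G.totalDegree ≤ 4 * d := by
    rw [hG]
    refine (totalDegree_finsetSum_le ?_)
    intro i _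
    refine (totalDegree_finsetSum_le ?_)
    intro j _
    have hi : (i : ℕ) ≤ d := Nat.lt_succ_iff.1 i.2
    have hj : (j : ℕ) ≤ d := Nat.lt_succ_iff.1 j.2
    have hp : ∀ (b a : Fin mm) (A : Matrix (Fin 2) (Fin 2) ℤ) (n : ℕ),
        (mpp b a A ^ n).totalDegree ≤ n * 2 := fun b a A n =>
      (totalDegree_pow _ _).trans (Nat.mul_le_mul_left _ (mpp_deg b a A))
    refine (totalDegree_mul _ _).trans ?_
    rw [totalDegree_C, zero_add]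
    refine (totalDegree_mul _ _).trans ?_
    refine (add_le_add (totalDegree_mul _ _) (hp _ _ _ _)).trans ?_
    refine (add_le_add (add_le_add (totalDegree_mul _ _) (hp _ _ _ _)) le_rfl).trans ?_
    refine (add_le_add (add_le_add (add_le_add (hp _ _ _ _) (hp _ _ _ _)) le_rfl) le_rfl).trans ?_
    omega
  have hS'card : S'.card ≤ p4 := by
    apply hz4 w hw G hGne hGdeg
    intro s hs
    obtain ⟨⟨hy0, hx, hy, he⟩, hy0', hx', hy', he'⟩ := hq s hs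
    have hs1 := hs
    rw [hS', Finset.mem_filter] at hs1
    refine ⟨(hS s hs1.1).1, ?_⟩
    have h1 := hγ' s hs
    have h2 : ∑ k : Fin (d + 1) × Fin (d + 1), ((γ' k : ℚ) : ℂ) * ((v s k : ℤ) : ℂ) = 0 := by
      exact_mod_cast congrArg (Rat.cast : ℚ → ℂ) h1
    rw [Fintype.sum_prod_type] at h2
    set f1 := eval (fun a => z a s) (mpp b₁ a₁ (g s₁)) with hf1
    set f2 := eval (fun a => z a s) (mpp b₁ a₁ (g s₂)) with hf2
    set f3 := eval (fun a => z a s) (mpp b₂ a₂ (g' s₁)) with hf3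
    set f4 := eval (fun a => z a s) (mpp b₂ a₂ (g' s₃)) with hf4
    have hyc : ((q s).1.2 : ℂ) ≠ 0 := by exact_mod_cast hy0
    have hyc' : ((q s).2.2 : ℂ) ≠ 0 := by exact_mod_cast hy0'
    have e1 : f2 = -((q s).1.1 : ℂ) / (q s).1.2 * f1 := by
      field_simp
      linear_combination he
    have e2 : f4 = -((q s).2.1 : ℂ) / (q s).2.2 * f3 := by
      field_simp
      linear_combination he'
    have h3 : eval (fun a => z a s) G = f1 ^ d * f3 ^ d / (((q s).1.2 : ℂ) ^ d *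
        ((q s).2.2 : ℂ) ^ d) * ∑ i : Fin (d + 1), ∑ j : Fin (d + 1),
          ((γ' (i, j) : ℚ) : ℂ) * ((v s (i, j) : ℤ) : ℂ) := by
      rw [hG, Finset.mul_sum]
      simp only [map_sum, map_mul, map_pow, eval_C]
      refine Finset.sum_congr rfl fun i _ => ?_
      rw [Finset.mul_sum]
      refine Finset.sum_congr rfl fun j _ => ?_
      have hi : (i : ℕ) ≤ d := Nat.lt_succ_iff.1 i.2
      have hj : (j : ℕ) ≤ d := Nat.lt_succ_iff.1 j.2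
      have a1 : f1 ^ d = f1 ^ (i : ℕ) * f1 ^ (d - i) := by rw [← pow_add]; congr 1; omega
      have a2 : f3 ^ d = f3 ^ (j : ℕ) * f3 ^ (d - j) := by rw [← pow_add]; congr 1; omega
      have a3 : ((q s).1.2 : ℂ) ^ d = ((q s).1.2 : ℂ) ^ (i : ℕ) * ((q s).1.2 : ℂ) ^ (d - i) := by
        rw [← pow_add]; congr 1; omega
      have a4 : ((q s).2.2 : ℂ) ^ d = ((q s).2.2 : ℂ) ^ (j : ℕ) * ((q s).2.2 : ℂ) ^ (d - j) := by
        rw [← pow_add]; congr 1; omega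
      rw [← hf1, ← hf2, ← hf3, ← hf4, e1, e2, a1, a2, a3, a4, hv]
      push_cast
      rw [mul_pow, mul_pow, div_pow, div_pow]
      field_simp
    rw [h3, h2, mul_zero]
  have hfinal := Finset.card_le_card hcov
  have u1 := Finset.card_union_le Z1 (Z2 ∪ (Z3 ∪ (Z4 ∪ S')))
  have u2 := Finset.card_union_le Z2 (Z3 ∪ (Z4 ∪ S'))
  have u3 := Finset.card_union_le Z3 (Z4 ∪ S')
  have u4 := Finset.card_union_le Z4 S'
  omega

/-- isogenous triples -/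
theorem tiny1 {z : Fin 3 → ℂ → ℂ} (hF : Fam Ω Cn z ρ) : Tiny Cn (fun H s => PW.Pt H z s) :=
  (tiny_pairs hF (b₁ := 0) (a₁ := 1) (b₂ := 0) (a₂ := 2) (by decide) (by decide) (by decide)
    (by decide) (by decide)).mono fun _ _ h => ⟨h 1 0, h 2 0⟩

/-- pair and pair -/
theorem tiny2 {z : Fin 4 → ℂ → ℂ} (hF : Fam Ω Cn z ρ) : Tiny Cn (Pt2 z) :=
  (tiny_pairs hF (b₁ := 0) (a₁ := 1) (b₂ := 2) (a₂ := 3) (by decide) (by decide) (by decide)
    (by decide) (by decide)).mono fun _ _ h => h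

end Pool.Agent.LGO.PWG
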