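import Mathlib
import Pool.Agent.LGO.PWG.Count
import Pool.Agent.LGO.PWG.FamC
import Pool.Agent.LGO.PWG.FamQ
import Pool.Agent.LGO.PWG.Tiny2
import Pool.Agent.LGO.PWG.Main
import Pool.Agent.LGO.PWG.Grow

/-!
# LGO/PWG: the four types of special points can be counted

* `Q1 H x` (`m = 3`): the three coordinates are pairwise isogenous, with isogenies of degree at most `H`.
* `Q2 H x` (`m = 4`): `x 0`, `x 1` and `x 2`, `x 3` are isogenous, with isogenies of degree at most `H`.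
* `Q3 H x` (`m = 3`): `x 0`, `x 1` as before; `x 2` is the invariant of a quadratic point `τ`, a root of an integral
  polynomial with coefficients at most `H`.
* `Q4 H x` (`m = 2`): both coordinates are invariants of such quadratic points.
-/

namespace Pool.Agent.LGO.PWG

open MvPolynomial Metric Pool.Agent.LGO.PW

/-- isogenous, with an isogeny of degree at most `H` -/
def IsoLe (H : ℝ) (x y : ℂ) : Prop := ∃ N : ℕ, 0 < N ∧ (N : ℝ) ≤ H ∧ IsogDeg N x y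

theorem IsoLe.mono {H H' : ℝ} (h : H ≤ H') {x y : ℂ} (hx : IsoLe H x y) : IsoLe H' x y := by
  obtain ⟨N, h1, h2, h3⟩ := hx
  exact ⟨N, h1, h2.trans h, h3⟩

def Q1 (H : ℝ) (x : Fin 3 → ℂ) : Prop := ∀ a b, IsoLe H (x a) (x b)

def Q2 (H : ℝ) (x : Fin 4 → ℂ) : Prop := IsoLe H (x 0) (x 1) ∧ IsoLe H (x 2) (x 3)

def Q3 (H : ℝ) (x : Fin 3 → ℂ) : Prop := IsoLe H (x 0) (x 1) ∧ QJ H (x 2)

def Q4 (H : ℝ) (x : Fin 2 → ℂ) : Prop := QJ H (x 0) ∧ QJ H (x 1)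

private theorem grw_mono {m : ℕ} {z : Fin m → ℂ → ℂ} {v : ℂ → Fin 8 → ℤ} {P Q : ℂ → Prop}
    (h : Grw z v P) (hPQ : ∀ s, Q s → P s) : Grw z v Q :=
  fun S hS => h S fun s hs => hPQ s (hS s hs)

private theorem cble_of {mm : ℕ} {Q : ℝ → (Fin mm → ℂ) → Prop} {Pt : (Fin mm → ℂ → ℂ) → ℝ → ℂ → Prop}
    (hmono : ∀ (H H' : ℝ), H ≤ H' → ∀ x, Q H x → Q H' x)
    (htiny : ∀ {Ω Cn : Set ℂ} {z : Fin mm → ℂ → ℂ} {ρ : ℂ → ℝ}, Fam Ω Cn z ρ → Tiny Cn (Pt z))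
    (hv : ∀ (z : Fin mm → ℂ → ℂ) (H : ℝ), 2 ≤ H → ∃ v : ℂ → Fin 8 → ℤ,
      (∀ s, Pt z H s → ∀ k, |(v s k : ℝ)| ≤ H) ∧ Grw z v (Pt z H))
    (hcov : ∀ {e : Fin mm → ℕ} {ψ : Fin mm → ℂ → ℂ}, Cusp e ψ → Solo e → Cov (Pt (cz e ψ)))
    (htr : ∀ {Ω Cn : Set ℂ} {z : Fin mm → ℂ → ℂ} {ρ : ℂ → ℝ}, Fam Ω Cn z ρ → Tr Ω z Q (Pt z)) :
    Cble Q where
  mono := hmono
  comp := fun z hz => ⟨Pt z, disc_count hz.fam (htiny hz.fam) (hv z), htr hz.fam⟩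
  cusp := fun e ψ h hs => ⟨Pt (cz e ψ), disc_count h.fam (htiny h.fam) (hv (cz e ψ)),
    hcov h hs, htr h.fam⟩

private theorem pow_le_both {H : ℝ} (hH : 2 ≤ H) {C C' : ℕ} : H ^ C ≤ H ^ (C + C') ∧
    H ^ C' ≤ H ^ (C + C') :=
  ⟨pow_le_pow_right₀ (by linarith) (Nat.le_add_right _ _),
    pow_le_pow_right₀ (by linarith) (Nat.le_add_left _ _)⟩

theorem cble1 : Cble Q1 := by
  refine cble_of (Pt := fun z H s => PW.Pt H z s) ?_ (fun h => tiny1 h) ?_ (fun h hs => h.cover1 hs) ?_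
  · exact fun H H' hH x h a b => (h a b).mono hH
  · intro z H hH
    obtain ⟨v, h1⟩ := PWC.exists_rel H z
    exact ⟨v, fun s hs => (h1 s hs).2, grw_mono (grw1 z v) fun s hs => (h1 s hs).1⟩
  · intro Ω Cn z ρ hF
    obtain ⟨C, hC, h⟩ := hF.isoH_of_isog
    refine ⟨C, hC, fun H hH s hs hsH x hx hq a b => ?_⟩
    exact h H hH s hs hsH x hx b a (hq b a)

theorem cble2 : Cble Q2 := by
  refine cble_of (Pt := fun z => Pt2 z) ?_ (fun h => tiny2 h) ?_ (fun h hs => h.cover2 hs) ?_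
  · exact fun H H' hH x h => ⟨h.1.mono hH, h.2.mono hH⟩
  · intro z H hH
    obtain ⟨v, h1, h2⟩ := exists_rel2 (by linarith : 0 ≤ H) z
    exact ⟨v, fun s _ k => h1 s k, grw_mono (grw2 z v) h2⟩
  · intro Ω Cn z ρ hF
    obtain ⟨C, hC, h⟩ := hF.isoH_of_isog
    refine ⟨C, hC, fun H hH s hs hsH x hx hq => ⟨?_, ?_⟩⟩
    · exact h H hH s hs hsH x hx 0 1 hq.1
    · exact h H hH s hs hsH x hx 2 3 hq.2

theorem cble3 : Cble Q3 := by
  refine cble_of (Pt := fun z => Pt3 z) ?_ (fun h => tiny3 h) ?_ (fun h hs => h.cover3 hs) ?_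
  · exact fun H H' hH x h => ⟨h.1.mono hH, h.2.mono hH⟩
  · intro z H hH
    obtain ⟨v, h1, h2⟩ := exists_rel3 (by linarith : 0 ≤ H) z
    exact ⟨v, fun s _ k => h1 s k, grw_mono (grw3 z v) h2⟩
  · intro Ω Cn z ρ hF
    obtain ⟨C, hC, h⟩ := hF.isoH_of_isog
    obtain ⟨C', hC', h'⟩ := hF.quadH_of
    refine ⟨C + C', by omega, fun H hH s hs hsH x hx hq => ⟨?_, ?_⟩⟩
    · exact (h H hH s hs hsH x hx 0 1 hq.1).mono (pow_le_both hH).1
    · exact (h' H hH s hs hsH x hx 2 hq.2).mono (pow_le_both hH).2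

theorem cble4 : Cble Q4 := by
  refine cble_of (Pt := fun z => Pt4 z) ?_ (fun h => tiny4 h) ?_ (fun h hs => h.cover4 hs) ?_
  · exact fun H H' hH x h => ⟨h.1.mono hH, h.2.mono hH⟩
  · intro z H hH
    obtain ⟨v, h1, h2⟩ := exists_rel4 (by linarith : 0 ≤ H) z
    exact ⟨v, fun s _ k => h1 s k, grw_mono (grw4 z v) h2⟩
  · intro Ω Cn z ρ hF
    obtain ⟨C', hC', h'⟩ := hF.quadH_of
    refine ⟨C', hC', fun H hH s hs hsH x hx hq => ⟨?_, ?_⟩⟩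
    · exact h' H hH s hs hsH x hx 0 hq.1
    · exact h' H hH s hs hsH x hx 1 hq.2

end Pool.Agent.LGO.PWG
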