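import Mathlib
import Pool.Agent.LGO.PWG.CoverH
import Pool.Agent.LGO.PWG.Types
import Pool.Agent.LGO.PWG.Fin

/-!
# LGO/PWG: counting and finiteness with an arbitrary atlas (common poles allowed)

`CbleG`, `countG`, `fin_absG`, `cbleG1`, .., `cbleG4`: as `Cble`, `count` (`Count.lean`), `fin_abs` (`Fin.lean`),
`cble1`, .., `cble4` (`Types.lean`), with `HasAtlas` (`Defs.lean`) instead of `Atl`: no condition on the exponents
`e a` of the cusp charts (`Cusp.coverG1`, .., `Cusp.coverG4`, `CoverH.lean`).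
-/

namespace Pool.Agent.LGO.PWG

open MvPolynomial Metric Pool.Agent.LGO.PW

variable {mm : ℕ}

/-- the condition `Q` can be counted in charts, common poles allowed -/
structure CbleG (Q : ℝ → (Fin mm → ℂ) → Prop) : Prop where
  mono : ∀ (H H' : ℝ), H ≤ H' → ∀ x, Q H x → Q H' x
  comp : ∀ z, Comp z → ∃ Pt : ℝ → ℂ → Prop, DC (closedBall 0 1) Pt ∧ Tr (ball 0 4) z Q Pt
  cusp : ∀ e ψ, Cusp e ψ → ∃ Pt : ℝ → ℂ → Prop, DC CD Pt ∧ Cov Pt ∧ Tr LH (cz e ψ) Q Pt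

theorem countG {Q : ℝ → (Fin mm → ℂ) → Prop} (hQ : CbleG Q) {W : Set (Fin mm → ℂ)} (hW : HasAtlas W)
    (δ : ℝ) (hδ : 0 < δ) :
    ∃ C : ℝ, 0 < C ∧ ∀ H : ℝ, 2 ≤ H → ∀ S : Finset (Fin mm → ℂ),
      (∀ x ∈ S, x ∈ W ∧ (∀ a, ‖x a‖ ≤ Real.exp H) ∧ Q H x) → (S.card : ℝ) ≤ C * H ^ δ := by
  classical
  obtain ⟨F, n, m, z, e, ψ, hF, hz, he, hcov⟩ := hW
  have hz' : ∀ k, ∃ H₀ : ℝ, 2 ≤ H₀ ∧ ∀ H : ℝ, H₀ ≤ H → ∀ S : Finset (Fin mm → ℂ),
      (∀ x ∈ S, (∃ s ∈ closedBall (0 : ℂ) 1, Lift (z k) s x) ∧ Q H x) → (S.card : ℝ) ≤ H ^ δ := by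
    intro k
    obtain ⟨Pt, h1, h2⟩ := hQ.comp _ (hz k)
    exact count_comp h1 h2 δ hδ
  have he' : ∀ k, ∃ H₀ : ℝ, 2 ≤ H₀ ∧ ∀ H : ℝ, H₀ ≤ H → ∀ S : Finset (Fin mm → ℂ),
      (∀ x ∈ S, (∃ w ∈ CD, Lift (cz (e k) (ψ k)) w x) ∧ (∀ a, ‖x a‖ ≤ Real.exp H) ∧ Q H x) →
        (S.card : ℝ) ≤ H ^ δ := by
    intro k
    obtain ⟨Pt, h1, h2, h3⟩ := hQ.cusp _ _ (he k)
    exact count_cusp hQ.mono (he k) h1 h2 h3 δ hδ
  choose A hA2 hA using hz'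
  choose B hB2 hB using he'
  obtain ⟨M, hM2, hMA, hMB⟩ : ∃ M : ℝ, 2 ≤ M ∧ (∀ k, A k ≤ M) ∧ ∀ k, B k ≤ M := by
    refine ⟨2 + ∑ k, |A k| + ∑ k, |B k|, ?_, ?_, ?_⟩
    · have h1 : 0 ≤ ∑ k, |A k| := Finset.sum_nonneg fun _ _ => abs_nonneg _
      have h2 : 0 ≤ ∑ k, |B k| := Finset.sum_nonneg fun _ _ => abs_nonneg _
      linarith
    · intro k
      have h1 : |A k| ≤ ∑ k, |A k| :=
        Finset.single_le_sum (f := fun k => |A k|) (fun _ _ => abs_nonneg _) (Finset.mem_univ k)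
      have h2 : 0 ≤ ∑ k, |B k| := Finset.sum_nonneg fun _ _ => abs_nonneg _
      have := le_abs_self (A k)
      linarith
    · intro k
      have h1 : |B k| ≤ ∑ k, |B k| :=
        Finset.single_le_sum (f := fun k => |B k|) (fun _ _ => abs_nonneg _) (Finset.mem_univ k)
      have h2 : 0 ≤ ∑ k, |A k| := Finset.sum_nonneg fun _ _ => abs_nonneg _
      have := le_abs_self (B k)
      linarith
  have hMpos : 0 < M ^ δ := Real.rpow_pos_of_pos (by linarith) _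
  refine ⟨(hF.toFinset.card : ℝ) + (n + m) * M ^ δ + 1, by positivity, ?_⟩
  intro H hH S hS
  have hH0 : 0 < H := by linarith
  have hq1 : 1 ≤ H ^ δ := Real.one_le_rpow (by linarith) hδ.le
  set H' : ℝ := max H M with hH'
  have hHH' : H ≤ H' := le_max_left _ _
  have hMH' : M ≤ H' := le_max_right _ _
  have hH'le : H' ≤ H * M := by
    refine max_le ?_ ?_
    · nlinarith
    · nlinarith
  have hH'q : H' ^ δ ≤ H ^ δ * M ^ δ := by
    rw [← Real.mul_rpow hH0.le (by linarith)]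
    exact Real.rpow_le_rpow (by linarith) hH'le hδ.le
  have hiso : ∀ x ∈ S, Q H' x := fun x hx => hQ.mono H H' hHH' x (hS x hx).2.2
  have hnorm : ∀ x ∈ S, ∀ a, ‖x a‖ ≤ Real.exp H' := fun x hx a =>
    ((hS x hx).2.1 a).trans (Real.exp_le_exp.2 hHH')
  set S₁ : Fin n → Finset (Fin mm → ℂ) := fun k =>
    S.filter fun x => ∃ s ∈ closedBall (0 : ℂ) 1, Lift (z k) s x with hS₁
  set S₂ : Fin m → Finset (Fin mm → ℂ) := fun k =>
    S.filter fun x => ∃ w ∈ CD, Lift (cz (e k) (ψ k)) w x with hS₂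
  have hsub : S ⊆ hF.toFinset ∪ (Finset.univ.biUnion S₁ ∪ Finset.univ.biUnion S₂) := by
    intro x hx
    rcases hcov x (hS x hx).1 with hxF | ⟨k, hk⟩ | ⟨k, hk⟩
    · exact Finset.mem_union_left _ (hF.mem_toFinset.2 hxF)
    · refine Finset.mem_union_right _ (Finset.mem_union_left _ (Finset.mem_biUnion.2
        ⟨k, Finset.mem_univ _, Finset.mem_filter.2 ⟨hx, hk⟩⟩))
    · refine Finset.mem_union_right _ (Finset.mem_union_right _ (Finset.mem_biUnion.2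
        ⟨k, Finset.mem_univ _, Finset.mem_filter.2 ⟨hx, hk⟩⟩))
  have h1 : ∀ k, ((S₁ k).card : ℝ) ≤ H' ^ δ := fun k =>
    hA k H' ((hMA k).trans hMH') (S₁ k) fun x hx =>
      ⟨(Finset.mem_filter.1 hx).2, hiso x (Finset.mem_filter.1 hx).1⟩
  have h2 : ∀ k, ((S₂ k).card : ℝ) ≤ H' ^ δ := fun k =>
    hB k H' ((hMB k).trans hMH') (S₂ k) fun x hx =>
      ⟨(Finset.mem_filter.1 hx).2, hnorm x (Finset.mem_filter.1 hx).1,
        hiso x (Finset.mem_filter.1 hx).1⟩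
  have h3 : ((Finset.univ.biUnion S₁).card : ℝ) ≤ n * H' ^ δ := by
    calc ((Finset.univ.biUnion S₁).card : ℝ) ≤ ∑ k, ((S₁ k).card : ℝ) := by
          exact_mod_cast Finset.card_biUnion_le
      _ ≤ ∑ _k : Fin n, H' ^ δ := Finset.sum_le_sum fun k _ => h1 k
      _ = n * H' ^ δ := by simp
  have h4 : ((Finset.univ.biUnion S₂).card : ℝ) ≤ m * H' ^ δ := by
    calc ((Finset.univ.biUnion S₂).card : ℝ) ≤ ∑ k, ((S₂ k).card : ℝ) := by
          exact_mod_cast Finset.card_biUnion_le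
      _ ≤ ∑ _k : Fin m, H' ^ δ := Finset.sum_le_sum fun k _ => h2 k
      _ = m * H' ^ δ := by simp
  have h5 : (S.card : ℝ) ≤ hF.toFinset.card +
      ((Finset.univ.biUnion S₁).card + (Finset.univ.biUnion S₂).card) := by
    exact_mod_cast (Finset.card_le_card hsub).trans
      ((Finset.card_union_le _ _).trans (Nat.add_le_add_left (Finset.card_union_le _ _) _))
  have h6 : (n : ℝ) * H' ^ δ ≤ n * (H ^ δ * M ^ δ) := mul_le_mul_of_nonneg_left hH'q (Nat.cast_nonneg _)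
  have h7 : (m : ℝ) * H' ^ δ ≤ m * (H ^ δ * M ^ δ) := mul_le_mul_of_nonneg_left hH'q (Nat.cast_nonneg _)
  have h8 : (hF.toFinset.card : ℝ) ≤ hF.toFinset.card * H ^ δ :=
    le_mul_of_one_le_right (Nat.cast_nonneg _) hq1
  calc (S.card : ℝ) ≤ hF.toFinset.card * H ^ δ + (n * (H ^ δ * M ^ δ) + m * (H ^ δ * M ^ δ)) := by
        linarith
    _ ≤ ((hF.toFinset.card : ℝ) + (n + m) * M ^ δ + 1) * H ^ δ := by
        have : 0 ≤ H ^ δ := by linarith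
        nlinarith

private theorem CountG_bound {C m D c : ℕ} {C' : ℝ} (hC' : 0 < C') (hD : 1 ≤ D) (hDm : D ≤ m * c)
    (hc : (c : ℝ) ≤ C' * (((C : ℝ) * D) ^ C + 2) ^ (1 / (2 * ((C : ℝ) + 1)))) :
    (D : ℝ) ≤ ((m : ℝ) * C' * (3 : ℝ) ^ (1 / (2 * ((C : ℝ) + 1))) * ((C : ℝ) + 2) ^ (1 / 2 : ℝ)) ^ 2 := by
  set δ : ℝ := 1 / (2 * ((C : ℝ) + 1)) with hδ
  have hC0 : (0 : ℝ) ≤ C := Nat.cast_nonneg _
  have hδ0 : 0 < δ := by positivity
  have hD1 : (1 : ℝ) ≤ D := by exact_mod_cast hD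
  have hD0 : (0 : ℝ) < D := by linarith
  set E : ℝ := ((C : ℝ) + 2) * D with hE
  have hE1 : 1 ≤ E := by rw [hE]; nlinarith
  have hE0 : 0 < E := by linarith
  have hCD : (C : ℝ) * D ≤ E := by rw [hE]; nlinarith
  have h1 : ((C : ℝ) * D) ^ C ≤ E ^ (C + 1) :=
    (pow_le_pow_left₀ (by positivity) hCD C).trans (pow_le_pow_right₀ hE1 (Nat.le_succ C))
  have h2 : 1 ≤ E ^ (C + 1) := one_le_pow₀ hE1
  have h3 : ((C : ℝ) * D) ^ C + 2 ≤ 3 * E ^ (C + 1) := by linarith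
  have h4 : (((C : ℝ) * D) ^ C + 2) ^ δ ≤ (3 * E ^ (C + 1)) ^ δ :=
    Real.rpow_le_rpow (by positivity) h3 hδ0.le
  have h5 : (3 * E ^ (C + 1)) ^ δ = (3 : ℝ) ^ δ * E ^ (1 / 2 : ℝ) := by
    rw [Real.mul_rpow (by norm_num) (by positivity), ← Real.rpow_natCast E, ← Real.rpow_mul hE0.le]
    congr 2
    rw [hδ]
    push_cast
    field_simp
  have h6 : E ^ (1 / 2 : ℝ) = ((C : ℝ) + 2) ^ (1 / 2 : ℝ) * (D : ℝ) ^ (1 / 2 : ℝ) := by
    rw [hE, Real.mul_rpow (by positivity) hD0.le]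
  set q : ℝ := (D : ℝ) ^ (1 / 2 : ℝ) with hq
  have hq0 : 0 < q := Real.rpow_pos_of_pos hD0 _
  have hqq : q * q = D := by
    rw [hq, ← Real.rpow_add hD0]
    norm_num
  have h7 : (D : ℝ) ≤ m * c := by exact_mod_cast hDm
  have hm0 : (0 : ℝ) ≤ m := Nat.cast_nonneg _
  have h8 : (D : ℝ) ≤ ((m : ℝ) * C' * (3 : ℝ) ^ δ * ((C : ℝ) + 2) ^ (1 / 2 : ℝ)) * q := by
    calc (D : ℝ) ≤ m * c := h7
      _ ≤ m * (C' * (((C : ℝ) * D) ^ C + 2) ^ δ) := mul_le_mul_of_nonneg_left hc hm0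
      _ ≤ m * (C' * ((3 : ℝ) ^ δ * (((C : ℝ) + 2) ^ (1 / 2 : ℝ) * q))) := by
          rw [h5, h6] at h4
          exact mul_le_mul_of_nonneg_left (mul_le_mul_of_nonneg_left h4 hC'.le) hm0
      _ = _ := by ring
  set M : ℝ := (m : ℝ) * C' * (3 : ℝ) ^ δ * ((C : ℝ) + 2) ^ (1 / 2 : ℝ) with hM
  have h9 : q ≤ M := by
    rw [← hqq] at h8
    exact le_of_mul_le_mul_right h8 hq0
  rw [← hqq, sq]
  exact mul_le_mul h9 h9 hq0.le (hq0.le.trans h9)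

/-- **Large Galois orbits and an atlas imply finiteness** -/
theorem fin_absG {Q : ℝ → (Fin mm → ℂ) → Prop} (hQ : CbleG Q) {W : Set (Fin mm → ℂ)} (hA : HasAtlas W)
    (k₀ : IntermediateField ℚ ℂ) [FiniteDimensional ℚ k₀]
    (hW : ∀ s : ℂ ≃+* ℂ, (∀ z ∈ k₀, s z = z) → ∀ y ∈ W, (fun a => s (y a)) ∈ W)
    {T : Set (Fin mm → ℂ)} (hTW : T ⊆ W) (C : ℕ) (hal : ∀ y ∈ T, ∀ a, IsAlgebraic ℚ (y a))
    (hT : ∀ y ∈ T, ∀ s : ℂ ≃+* ℂ,
      Q (((C : ℝ) * Module.finrank ℚ (IntermediateField.adjoin ℚ (Set.range y))) ^ C + 2)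
        (fun a => s (y a)) ∧
      ∀ a, ‖s (y a)‖ ≤
        Real.exp (((C : ℝ) * Module.finrank ℚ (IntermediateField.adjoin ℚ (Set.range y))) ^ C + 2)) :
    T.Finite := by
  classical
  have hδ : 0 < 1 / (2 * ((C : ℝ) + 1)) := by positivity
  obtain ⟨C', hC', hcount⟩ := countG hQ hA (1 / (2 * ((C : ℝ) + 1))) hδ
  set m : ℕ := Module.finrank ℚ k₀ with hm
  set M : ℝ := ((m : ℝ) * C' * (3 : ℝ) ^ (1 / (2 * ((C : ℝ) + 1))) * ((C : ℝ) + 2) ^ (1 / 2 : ℝ)) ^ 2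
    with hM
  have hM0 : 0 ≤ M := by rw [hM]; positivity
  -- the degree is bounded
  have hdeg : ∀ y ∈ T, (Module.finrank ℚ (IntermediateField.adjoin ℚ (Set.range y)) : ℝ) ≤ M := by
    intro y hy
    have hfd : FiniteDimensional ℚ (IntermediateField.adjoin ℚ (Set.range y)) := by
      refine IntermediateField.finiteDimensional_adjoin ?_
      rintro z ⟨a, rfl⟩
      exact (hal y hy a).isIntegral
    have hD : 1 ≤ Module.finrank ℚ (IntermediateField.adjoin ℚ (Set.range y)) := Module.finrank_pos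
    obtain ⟨S, hS1, hS2⟩ := conj_many k₀ hW (hTW hy) (hal y hy)
    refine CountG_bound hC' hD hS1 ?_
    refine hcount _ ?_ S fun x hx => ?_
    · have : (0 : ℝ) ≤ ((C : ℝ) * Module.finrank ℚ (IntermediateField.adjoin ℚ (Set.range y))) ^ C := by
        positivity
      linarith
    · obtain ⟨hxW, s, rfl⟩ := hS2 x hx
      exact ⟨hxW, (hT y hy s).2, (hT y hy s).1⟩
  -- all points satisfy the condition with a fixed height
  set H : ℝ := ((C : ℝ) * M) ^ C + 2 with hH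
  have hH2 : 2 ≤ H := by
    have : (0 : ℝ) ≤ ((C : ℝ) * M) ^ C := by positivity
    linarith
  by_contra hinf
  have hinf' : T.Infinite := hinf
  obtain ⟨S, hST, hScard⟩ := hinf'.exists_subset_card_eq (⌈C' * H ^ (1 / (2 * ((C : ℝ) + 1)))⌉₊ + 1)
  have h1 : (S.card : ℝ) ≤ C' * H ^ (1 / (2 * ((C : ℝ) + 1))) := by
    refine hcount H hH2 S fun y hy => ?_
    have hyT : y ∈ T := hST hy
    have hle : ((C : ℝ) * Module.finrank ℚ (IntermediateField.adjoin ℚ (Set.range y))) ^ C + 2 ≤ H := by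
      have h3 : (C : ℝ) * Module.finrank ℚ (IntermediateField.adjoin ℚ (Set.range y)) ≤ C * M :=
        mul_le_mul_of_nonneg_left (hdeg y hyT) (Nat.cast_nonneg _)
      have h4 := pow_le_pow_left₀ (by positivity) h3 C
      rw [hH]
      linarith
    obtain ⟨h5, h6⟩ := hT y hyT (RingEquiv.refl ℂ)
    refine ⟨hTW hyT, fun a => (h6 a).trans (Real.exp_le_exp.2 hle), hQ.mono _ _ hle _ h5⟩
  have h2 : C' * H ^ (1 / (2 * ((C : ℝ) + 1))) ≤ (⌈C' * H ^ (1 / (2 * ((C : ℝ) + 1)))⌉₊ : ℝ) :=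
    Nat.le_ceil _
  rw [hScard] at h1
  push_cast at h1
  linarith

private theorem CountG_grw_mono {m : ℕ} {z : Fin m → ℂ → ℂ} {v : ℂ → Fin 8 → ℤ} {P Q : ℂ → Prop}
    (h : Grw z v P) (hPQ : ∀ s, Q s → P s) : Grw z v Q :=
  fun S hS => h S fun s hs => hPQ s (hS s hs)

private theorem CountG_cble_of {mm : ℕ} {Q : ℝ → (Fin mm → ℂ) → Prop} {Pt : (Fin mm → ℂ → ℂ) → ℝ → ℂ → Prop}
    (hmono : ∀ (H H' : ℝ), H ≤ H' → ∀ x, Q H x → Q H' x)
    (htiny : ∀ {Ω Cn : Set ℂ} {z : Fin mm → ℂ → ℂ} {ρ : ℂ → ℝ}, Fam Ω Cn z ρ → Tiny Cn (Pt z))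
    (hv : ∀ (z : Fin mm → ℂ → ℂ) (H : ℝ), 2 ≤ H → ∃ v : ℂ → Fin 8 → ℤ,
      (∀ s, Pt z H s → ∀ k, |(v s k : ℝ)| ≤ H) ∧ Grw z v (Pt z H))
    (hcov : ∀ {e : Fin mm → ℕ} {ψ : Fin mm → ℂ → ℂ}, Cusp e ψ → Cov (Pt (cz e ψ)))
    (htr : ∀ {Ω Cn : Set ℂ} {z : Fin mm → ℂ → ℂ} {ρ : ℂ → ℝ}, Fam Ω Cn z ρ → Tr Ω z Q (Pt z)) :
    CbleG Q where
  mono := hmono
  comp := fun z hz => ⟨Pt z, disc_count hz.fam (htiny hz.fam) (hv z), htr hz.fam⟩
  cusp := fun e ψ h => ⟨Pt (cz e ψ), disc_count h.fam (htiny h.fam) (hv (cz e ψ)),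
    hcov h, htr h.fam⟩

private theorem CountG_pow_le_both {H : ℝ} (hH : 2 ≤ H) {C C' : ℕ} : H ^ C ≤ H ^ (C + C') ∧
    H ^ C' ≤ H ^ (C + C') :=
  ⟨pow_le_pow_right₀ (by linarith) (Nat.le_add_right _ _),
    pow_le_pow_right₀ (by linarith) (Nat.le_add_left _ _)⟩

theorem cbleG1 : CbleG Q1 := by
  refine CountG_cble_of (Pt := fun z H s => PW.Pt H z s) ?_ (fun h => tiny1 h) ?_ (fun h => h.coverG1) ?_
  · exact fun H H' hH x h a b => (h a b).mono hH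
  · intro z H hH
    obtain ⟨v, h1⟩ := PWC.exists_rel H z
    exact ⟨v, fun s hs => (h1 s hs).2, CountG_grw_mono (grw1 z v) fun s hs => (h1 s hs).1⟩
  · intro Ω Cn z ρ hF
    obtain ⟨C, hC, h⟩ := hF.isoH_of_isog
    refine ⟨C, hC, fun H hH s hs hsH x hx hq a b => ?_⟩
    exact h H hH s hs hsH x hx b a (hq b a)

theorem cbleG2 : CbleG Q2 := by
  refine CountG_cble_of (Pt := fun z => Pt2 z) ?_ (fun h => tiny2 h) ?_ (fun h => h.coverG2) ?_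
  · exact fun H H' hH x h => ⟨h.1.mono hH, h.2.mono hH⟩
  · intro z H hH
    obtain ⟨v, h1, h2⟩ := exists_rel2 (by linarith : 0 ≤ H) z
    exact ⟨v, fun s _ k => h1 s k, CountG_grw_mono (grw2 z v) h2⟩
  · intro Ω Cn z ρ hF
    obtain ⟨C, hC, h⟩ := hF.isoH_of_isog
    refine ⟨C, hC, fun H hH s hs hsH x hx hq => ⟨?_, ?_⟩⟩
    · exact h H hH s hs hsH x hx 0 1 hq.1
    · exact h H hH s hs hsH x hx 2 3 hq.2

theorem cbleG3 : CbleG Q3 := by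
  refine CountG_cble_of (Pt := fun z => Pt3 z) ?_ (fun h => tiny3 h) ?_ (fun h => h.coverG3) ?_
  · exact fun H H' hH x h => ⟨h.1.mono hH, h.2.mono hH⟩
  · intro z H hH
    obtain ⟨v, h1, h2⟩ := exists_rel3 (by linarith : 0 ≤ H) z
    exact ⟨v, fun s _ k => h1 s k, CountG_grw_mono (grw3 z v) h2⟩
  · intro Ω Cn z ρ hF
    obtain ⟨C, hC, h⟩ := hF.isoH_of_isog
    obtain ⟨C', hC', h'⟩ := hF.quadH_of
    refine ⟨C + C', by omega, fun H hH s hs hsH x hx hq => ⟨?_, ?_⟩⟩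
    · exact (h H hH s hs hsH x hx 0 1 hq.1).mono (CountG_pow_le_both hH).1
    · exact (h' H hH s hs hsH x hx 2 hq.2).mono (CountG_pow_le_both hH).2

theorem cbleG4 : CbleG Q4 := by
  refine CountG_cble_of (Pt := fun z => Pt4 z) ?_ (fun h => tiny4 h) ?_ (fun h => h.coverG4) ?_
  · exact fun H H' hH x h => ⟨h.1.mono hH, h.2.mono hH⟩
  · intro z H hH
    obtain ⟨v, h1, h2⟩ := exists_rel4 (by linarith : 0 ≤ H) z
    exact ⟨v, fun s _ k => h1 s k, CountG_grw_mono (grw4 z v) h2⟩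
  · intro Ω Cn z ρ hF
    obtain ⟨C', hC', h'⟩ := hF.quadH_of
    refine ⟨C', hC', fun H hH s hs hsH x hx hq => ⟨?_, ?_⟩⟩
    · exact h' H hH s hs hsH x hx 0 hq.1
    · exact h' H hH s hs hsH x hx 1 hq.2

end Pool.Agent.LGO.PWG
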